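import Pool.Agent.Lib.UIPQ.D.MaxP

/-!
# D/Annulus: oscillation of a function without flux between two rings

PROOF. `Bd K1` and `Bd K2` are nonempty (`exit`, with a point in `K2 ⊆ K1` and a point outside `K1`; if `z ∈ K`, `k z ∉ K` then `z ∈ Bd K`), and
finite (`Bd K1 ⊆ Bd K2 ∪ {x | x ∈ K1 \ K2 ∨ k x ∈ K1 \ K2}`). Let `m_i, M_i` be the minimum and the maximum of `u` on `Bd K_i`; `M_i - m_i ≤ L_i`.
STEP A (`no_gap`): NOT `M_1 < m_2`. Suppose `α := M_1 < β := m_2`. `w x := α` if `x ∉ K1`, `β` if `x ∈ K2`, `clip α β (u x)` if `x ∈ K1 \ K2`. `w` is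
`RInv`. `DFin w`: `w - α - (β-α) 1_{K2}` has finite support (contained in `K1 \ K2`), `1_{K2}` is `DFin` (`Bd K2` finite). So `B u w = 0` (`NoFlux`).
For every dart `x`: `(d w x)^2 ≤ d u x * d w x`. By cases (use the symmetry `d_k`, or all cases): both ends outside `K1`, or both in `K2`: `d w x = 0`.
Both in `K1 \ K2`: `clip` is monotone and 1-Lipschitz (`clip_d` for the function `u`). One end in `K1 \ K2`, the other outside `K1`: both `x` and
`k x` are in `Bd K1`, so `u ≤ α` at both ends, so `w = α` at both: `d w x = 0`. One end in `K2`, the other in `K1 \ K2`: both in `Bd K2`, `u ≥ β` at both, `w = β`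
at both. One end in `K2`, the other outside `K1`: both in `Bd K1` and in `Bd K2`: `β ≤ u ≤ α`, impossible.
So `B w w ≤ B u w = 0` (`B_le_of_d`), `d w = 0` (`d_eq_zero_of_B`), `w` is constant (`const_of_conn`), but it is `α` at a point outside `K1` and `β` at a point
of `K2`: contradiction.
STEP B: NOT `M_2 < m_1`: apply step A to `-u` (`NoFlux` of `-u`: `B_smul_left` with `c = -1`).
STEP C: let `x ∈ S = K1 \ K2` (finite, VSet, not everything). `max_principle` (`NoFlux.harm`): there is `y ∈ S`, `k y ∉ S`, `u x ≤ u (k y)`: `k y ∉ K1` (then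
`k y ∈ Bd K1`) or `k y ∈ K2` (then `k y ∈ Bd K2`). So `u x ≤ max M_1 M_2`; in the same way `u x ≥ min m_1 m_2`. As `m_2 ≤ M_1`, `m_1 ≤ M_2`,
`max M_1 M_2 - min m_1 m_2 ≤ L_1 + L_2`.
-/

namespace UIPQ.D

variable {X : Type} {m : CMap X}

private theorem mem_bd {K : Set X} {x : X} : x ∈ m.Bd K ↔ ¬ (x ∈ K ↔ m.k x ∈ K) := Iff.rfl

private theorem k_mem_bd {K : Set X} {x : X} (h : x ∈ m.Bd K) : m.k x ∈ m.Bd K := by
  rw [mem_bd] at h ⊢
  rw [m.k_k]
  tauto

private theorem clip_low {α β t : ℝ} (h : t ≤ α) : clip α β t = α := by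
  unfold clip
  exact max_eq_left (le_trans (min_le_right _ _) h)

private theorem clip_high {α β t : ℝ} (hab : α ≤ β) (h : β ≤ t) : clip α β t = β := by
  unfold clip
  rw [min_eq_left h, max_eq_right hab]

theorem no_gap (hc : m.Connected) {K1 K2 : Set X} (hV1 : m.VSet K1) (hV2 : m.VSet K2)
    (h21 : K2 ⊆ K1) (hfin : (K1 \ K2).Finite) (hb : (m.Bd K2).Finite) (hn1 : ∃ x, x ∉ K1)
    (hn2 : K2.Nonempty) {u : X → ℝ} (hu : m.RInv u) (hF : m.NoFlux u) {α β : ℝ}
    (h1 : ∀ x ∈ m.Bd K1, u x ≤ α) (h2 : ∀ x ∈ m.Bd K2, β ≤ u x) : β ≤ α := by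
  classical
  by_contra hlt
  push Not at hlt
  obtain ⟨w, hw⟩ : ∃ w : X → ℝ, w = fun x => if x ∈ K1 then
      (if x ∈ K2 then β else clip α β (u x)) else α := ⟨_, rfl⟩
  have w1 : ∀ x, x ∉ K1 → w x = α := by
    intro x hx
    rw [hw]
    exact if_neg hx
  have w2 : ∀ x, x ∈ K2 → w x = β := by
    intro x hx
    rw [hw]
    simp only [if_pos (h21 hx), if_pos hx]
  have w3 : ∀ x, x ∈ K1 → x ∉ K2 → w x = clip α β (u x) := by
    intro x hx hx2
    rw [hw]
    simp only [if_pos hx, if_neg hx2]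
  have hwr : m.RInv w := by
    intro x
    rw [hw]
    simp only [hV1 x, hV2 x, hu x]
  have hwd : m.DFin w := by
    refine ((hfin.union (hfin.preimage (f := m.k) m.k.injective.injOn)).union hb).subset ?_
    intro x hx
    by_contra hx1
    apply hx
    simp only [Set.mem_union, Set.mem_preimage, Set.mem_sdiff, mem_bd] at hx1
    change w (m.k x) - w x = 0
    by_cases a : x ∈ K2
    · have a' : m.k x ∈ K2 := by tauto
      rw [w2 _ a, w2 _ a', sub_self]
    · have a' : m.k x ∉ K2 := by tauto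
      have b : x ∉ K1 := by tauto
      have b' : m.k x ∉ K1 := by tauto
      rw [w1 _ b, w1 _ b', sub_self]
  have hB := hF w hwr hwd
  have hd : ∀ x, (m.d w x) ^ 2 ≤ m.d u x * m.d w x := by
    intro x
    have h0 : w (m.k x) = w x → (m.d w x) ^ 2 ≤ m.d u x * m.d w x := by
      intro h
      have h3 : m.d w x = 0 := by
        change w (m.k x) - w x = 0
        rw [h, sub_self]
      rw [h3]
      norm_num
    by_cases a : x ∈ K2
    · by_cases a' : m.k x ∈ K2
      · exact h0 (by rw [w2 _ a, w2 _ a'])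
      · have hx2 : x ∈ m.Bd K2 := by rw [mem_bd]; tauto
        by_cases b' : m.k x ∈ K1
        · apply h0
          rw [w2 _ a, w3 _ b' a', clip_high hlt.le (h2 _ (k_mem_bd hx2))]
        · exfalso
          have hx1 : x ∈ m.Bd K1 := by
            rw [mem_bd]
            have := h21 a
            tauto
          have := h1 _ hx1
          have := h2 _ hx2
          linarith
    · by_cases a' : m.k x ∈ K2
      · have hx2 : x ∈ m.Bd K2 := by rw [mem_bd]; tauto
        by_cases b : x ∈ K1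
        · apply h0
          rw [w2 _ a', w3 _ b a, clip_high hlt.le (h2 _ hx2)]
        · exfalso
          have hx1 : x ∈ m.Bd K1 := by
            rw [mem_bd]
            have := h21 a'
            tauto
          have := h1 _ hx1
          have := h2 _ hx2
          linarith
      · by_cases b : x ∈ K1
        · by_cases b' : m.k x ∈ K1
          · have h3 := clip_d (m := m) α β hlt.le u x
            have h4 : m.d (fun y => clip α β (u y)) x = m.d w x := by
              change clip α β (u (m.k x)) - clip α β (u x) = w (m.k x) - w x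
              rw [w3 _ b a, w3 _ b' a']
            rwa [h4] at h3
          · have hx1 : x ∈ m.Bd K1 := by rw [mem_bd]; tauto
            apply h0
            rw [w1 _ b', w3 _ b a, clip_low (h1 _ hx1)]
        · by_cases b' : m.k x ∈ K1
          · have hx1 : x ∈ m.Bd K1 := by rw [mem_bd]; tauto
            apply h0
            rw [w1 _ b, w3 _ b' a', clip_low (h1 _ (k_mem_bd hx1))]
          · exact h0 (by rw [w1 _ b, w1 _ b'])
  have hle := B_le_of_d hwd hd
  rw [hB] at hle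
  have hz := d_eq_zero_of_B hwd hle
  have hk : ∀ x, w (m.k x) = w x := by
    intro x
    have h3 : w (m.k x) - w x = 0 := hz x
    linarith
  obtain ⟨p, hp⟩ := hn1
  obtain ⟨q, hq⟩ := hn2
  have h5 := const_of_conn hc w hwr hk p q
  rw [w1 _ hp, w2 _ hq] at h5
  linarith

private theorem noFlux_neg {u : X → ℝ} (hF : m.NoFlux u) : m.NoFlux (fun x => - u x) := by
  intro w hw hd
  have h1 : (fun x => - u x) = fun x => (-1 : ℝ) * u x := by
    funext x
    ring
  rw [h1, B_smul_left _ hd, hF w hw hd, mul_zero]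

private theorem one_side (hc : m.Connected) {K1 K2 : Set X} (hV1 : m.VSet K1) (hV2 : m.VSet K2)
    (h21 : K2 ⊆ K1) (hfin : (K1 \ K2).Finite) (hb : (m.Bd K2).Finite) (hn1 : ∃ x, x ∉ K1)
    (hn2 : K2.Nonempty) {u : X → ℝ} (hu : m.RInv u) (hF : m.NoFlux u) {L1 L2 : ℝ}
    (h1 : ∀ x ∈ m.Bd K1, ∀ y ∈ m.Bd K1, |u x - u y| ≤ L1)
    (h2 : ∀ x ∈ m.Bd K2, ∀ y ∈ m.Bd K2, |u x - u y| ≤ L2) :
    ∀ x ∈ K1 \ K2, ∀ y ∈ K1 \ K2, u x - u y ≤ L1 + L2 := by
  intro x hx y hy
  obtain ⟨o, ho⟩ := hn1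
  obtain ⟨i, hi⟩ := hn2
  have hVS : m.VSet (K1 \ K2) := by
    intro z
    simp only [Set.mem_sdiff, hV1 z, hV2 z]
  have hne : ∃ y, y ∉ K1 \ K2 := ⟨o, fun h => ho h.1⟩
  have hH : m.HarmOn (K1 \ K2) u := HarmOn.mono (Set.subset_univ _) (NoFlux.harm hF)
  have bdy : ∀ z ∈ K1 \ K2, m.k z ∉ K1 \ K2 → m.k z ∈ m.Bd K1 ∨ m.k z ∈ m.Bd K2 := by
    intro z hz hkz
    rw [mem_bd, mem_bd, m.k_k]
    simp only [Set.mem_sdiff] at hz hkz
    tauto
  obtain ⟨p, hp, hkp, hup⟩ := max_principle hc hfin hVS hne hu hH hx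
  obtain ⟨q, hq, hkq, huq⟩ := min_principle hc hfin hVS hne hu hH hy
  have hL1 : 0 ≤ L1 := by
    obtain ⟨z, hz, hkz⟩ := exit hc hV1 (h21 hi) ho
    have hzb : z ∈ m.Bd K1 := by rw [mem_bd]; tauto
    exact le_trans (abs_nonneg _) (h1 z hzb z hzb)
  have hL2 : 0 ≤ L2 := by
    obtain ⟨z, hz, hkz⟩ := exit hc hV2 hi (fun h => ho (h21 h))
    have hzb : z ∈ m.Bd K2 := by rw [mem_bd]; tauto
    exact le_trans (abs_nonneg _) (h2 z hzb z hzb)
  have key : u (m.k p) - u (m.k q) ≤ L1 + L2 := by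
    rcases bdy p hp hkp with hp1 | hp2
    · rcases bdy q hq hkq with hq1 | hq2
      · have := (abs_le.1 (h1 _ hp1 _ hq1)).2
        linarith
      · have hg := no_gap hc hV1 hV2 h21 hfin hb ⟨o, ho⟩ ⟨i, hi⟩ (u := fun x => - u x)
          (α := -(u (m.k p) - L1)) (β := -(u (m.k q) + L2))
          (fun z => by simp only [hu z]) (noFlux_neg hF)
          (fun z hz => by
            have := (abs_le.1 (h1 _ hp1 _ hz)).2
            linarith)
          (fun z hz => by
            have := (abs_le.1 (h2 _ hz _ hq2)).2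
            linarith)
        linarith
    · rcases bdy q hq hkq with hq1 | hq2
      · have hg := no_gap hc hV1 hV2 h21 hfin hb ⟨o, ho⟩ ⟨i, hi⟩ (u := u)
          (α := u (m.k q) + L1) (β := u (m.k p) - L2) hu hF
          (fun z hz => by
            have := (abs_le.1 (h1 _ hz _ hq1)).2
            linarith)
          (fun z hz => by
            have := (abs_le.1 (h2 _ hp2 _ hz)).2
            linarith)
        linarith
      · have := (abs_le.1 (h2 _ hp2 _ hq2)).2
        linarith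
  linarith

theorem annulus (hc : m.Connected) {K1 K2 : Set X} (hV1 : m.VSet K1) (hV2 : m.VSet K2)
    (h21 : K2 ⊆ K1) (hfin : (K1 \ K2).Finite) (hb : (m.Bd K2).Finite) (hn1 : ∃ x, x ∉ K1)
    (hn2 : K2.Nonempty) {u : X → ℝ} (hu : m.RInv u) (hF : m.NoFlux u) {L1 L2 : ℝ}
    (h1 : ∀ x ∈ m.Bd K1, ∀ y ∈ m.Bd K1, |u x - u y| ≤ L1)
    (h2 : ∀ x ∈ m.Bd K2, ∀ y ∈ m.Bd K2, |u x - u y| ≤ L2) :
    ∀ x ∈ K1 \ K2, ∀ y ∈ K1 \ K2, |u x - u y| ≤ L1 + L2 := by
  intro x hx y hy
  have ha := one_side hc hV1 hV2 h21 hfin hb hn1 hn2 hu hF h1 h2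
  rw [abs_le]
  have h3 := ha x hx y hy
  have h4 := ha y hy x hx
  constructor
  · linarith
  · linarith

end UIPQ.D
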