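import Pool.Agent.Lib.UIPQ.D.Basic

/-!
# D/BForm: calculus of the Dirichlet form `B(u, w) = (1/2) ∑_x d u x * d w x`

`d u (k x) = - d u x`. If `w` has finite support then `d w` has finite support: `d w x ≠ 0` implies `w x ≠ 0` or
`w (k x) ≠ 0`; `k` is a bijection. All the sums are `finsum`s with finite support: use
`finsum_eq_sum_of_support_subset`, `finsum_add_distrib`, `mul_finsum`, and the change of variables `x ↦ k x`
(`finsum_comp_equiv m.k`).
`B_eq`: `∑ d u x * (w (k x) - w x) = ∑ d u x * w (k x) - ∑ d u x * w x`, and in the first sum replace `x` by `k x`: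
`∑ d u (k x) * w x = - ∑ d u x * w x`.
`B_test`: from `B_eq` and `HarmOn`. `NoFlux.harm`: from `B_eq` (`w` with finite support is `DFin`).
`B_cs`: Cauchy-Schwarz for finite sums (`Finset.sum_mul_sq_le_sq_mul_sq`) over the union of the supports.
-/

namespace UIPQ.D

variable {X : Type} {m : CMap X} {u w w1 w2 : X → ℝ}

theorem d_k (m : CMap X) (u : X → ℝ) (x : X) : m.d u (m.k x) = - m.d u x := by
  simp only [CMap.d, m.k_k]
  ring

theorem dfin_of_finite (hw : (Function.support w).Finite) : m.DFin w := by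
  refine (hw.union (hw.preimage (m.k.injective.injOn (s := m.k ⁻¹' Function.support w)))).subset ?_
  intro x hx
  by_contra hn
  simp only [Set.mem_union, Set.mem_preimage, Function.mem_support, not_or, not_not] at hn
  apply hx
  simp [CMap.d, hn.1, hn.2]

theorem dfin_const (c : ℝ) : m.DFin (fun _ => c) := by
  have : m.d (fun _ => c) = fun _ => 0 := by
    funext x
    simp [CMap.d]
  rw [CMap.DFin, this, Function.support_fun_zero]
  exact Set.finite_empty

theorem DFin.add' (h1 : m.DFin w1) (h2 : m.DFin w2) : m.DFin (fun x => w1 x + w2 x) := by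
  refine (h1.union h2).subset fun x hx => ?_
  by_contra hn
  simp only [Set.mem_union, Function.mem_support, not_or, not_not] at hn
  apply hx
  have e : m.d (fun x => w1 x + w2 x) x = m.d w1 x + m.d w2 x := by simp only [CMap.d]; ring
  rw [e, hn.1, hn.2, add_zero]

theorem DFin.sub' (h1 : m.DFin w1) (h2 : m.DFin w2) : m.DFin (fun x => w1 x - w2 x) := by
  refine (h1.union h2).subset fun x hx => ?_
  by_contra hn
  simp only [Set.mem_union, Function.mem_support, not_or, not_not] at hn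
  apply hx
  have e : m.d (fun x => w1 x - w2 x) x = m.d w1 x - m.d w2 x := by simp only [CMap.d]; ring
  rw [e, hn.1, hn.2, sub_zero]

theorem DFin.smul' (c : ℝ) (h1 : m.DFin w1) : m.DFin (fun x => c * w1 x) := by
  refine h1.subset fun x hx hn => ?_
  apply hx
  have e : m.d (fun x => c * w1 x) x = c * m.d w1 x := by simp only [CMap.d]; ring
  rw [e, hn, mul_zero]

theorem DFin.comp' (F : ℝ → ℝ) (h1 : m.DFin w1) : m.DFin (fun x => F (w1 x)) := by
  refine h1.subset fun x hx hn => ?_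
  apply hx
  have e : w1 (m.k x) = w1 x := sub_eq_zero.1 hn
  simp only [CMap.d, e, sub_self]

theorem B_comm (m : CMap X) (u w : X → ℝ) : m.B u w = m.B w u := by
  simp only [CMap.B]
  congr 1
  exact finsum_congr fun x => mul_comm _ _

theorem B_eq_sum (T : Finset X) (hT : ∀ x, m.d w x ≠ 0 → x ∈ T) :
    m.B u w = (∑ x ∈ T, m.d u x * m.d w x) / 2 := by
  rw [CMap.B, finsum_eq_sum_of_support_subset (s := T)]
  intro x hx
  exact hT x fun h0 => hx (by simp only [h0, mul_zero])

theorem B_add_right (h1 : m.DFin w1) (h2 : m.DFin w2) :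
    m.B u (fun x => w1 x + w2 x) = m.B u w1 + m.B u w2 := by
  classical
  have hT1 : ∀ x, m.d w1 x ≠ 0 → x ∈ h1.toFinset ∪ h2.toFinset := fun x hx =>
    Finset.mem_union_left _ (h1.mem_toFinset.2 hx)
  have hT2 : ∀ x, m.d w2 x ≠ 0 → x ∈ h1.toFinset ∪ h2.toFinset := fun x hx =>
    Finset.mem_union_right _ (h2.mem_toFinset.2 hx)
  have e : ∀ x, m.d (fun x => w1 x + w2 x) x = m.d w1 x + m.d w2 x := fun x => by
    simp only [CMap.d]; ring
  have hT3 : ∀ x, m.d (fun x => w1 x + w2 x) x ≠ 0 → x ∈ h1.toFinset ∪ h2.toFinset := fun x hx => by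
    by_contra hn
    apply hx
    rw [e, not_not.1 (mt (hT1 x) hn), not_not.1 (mt (hT2 x) hn), add_zero]
  rw [B_eq_sum _ hT1, B_eq_sum _ hT2, B_eq_sum _ hT3, ← add_div, ← Finset.sum_add_distrib]
  congr 1
  exact Finset.sum_congr rfl fun x _ => by rw [e]; ring

theorem B_sub_right (h1 : m.DFin w1) (h2 : m.DFin w2) :
    m.B u (fun x => w1 x - w2 x) = m.B u w1 - m.B u w2 := by
  have h3 := B_add_right (u := u) (DFin.sub' h1 h2) h2
  have e : (fun x => (fun x => w1 x - w2 x) x + w2 x) = w1 := by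
    funext x
    ring
  rw [e] at h3
  linarith

theorem B_smul_right (c : ℝ) (h1 : m.DFin w) : m.B u (fun x => c * w x) = c * m.B u w := by
  have e : ∀ x, m.d (fun x => c * w x) x = c * m.d w x := fun x => by
    simp only [CMap.d]; ring
  have hT : ∀ x, m.d w x ≠ 0 → x ∈ h1.toFinset := fun x hx => h1.mem_toFinset.2 hx
  have hT3 : ∀ x, m.d (fun x => c * w x) x ≠ 0 → x ∈ h1.toFinset := fun x hx => by
    apply hT
    intro h0
    exact hx (by rw [e, h0, mul_zero])
  rw [B_eq_sum _ hT, B_eq_sum _ hT3, mul_div_assoc', Finset.mul_sum]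
  congr 1
  exact Finset.sum_congr rfl fun x _ => by rw [e]; ring

theorem B_const_right (c : ℝ) : m.B u (fun _ => c) = 0 := by
  have e : ∀ x, m.d u x * m.d (fun _ => c) x = 0 := fun x => by
    simp [CMap.d]
  rw [CMap.B, finsum_congr e, finsum_zero, zero_div]

theorem B_add_left (u1 u2 : X → ℝ) (h : m.DFin w) :
    m.B (fun x => u1 x + u2 x) w = m.B u1 w + m.B u2 w := by
  have e : ∀ x, m.d (fun x => u1 x + u2 x) x = m.d u1 x + m.d u2 x := fun x => by
    simp only [CMap.d]; ring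
  have hT : ∀ x, m.d w x ≠ 0 → x ∈ h.toFinset := fun x hx => h.mem_toFinset.2 hx
  rw [B_eq_sum _ hT, B_eq_sum _ hT, B_eq_sum _ hT, ← add_div, ← Finset.sum_add_distrib]
  congr 1
  exact Finset.sum_congr rfl fun x _ => by rw [e]; ring

theorem B_smul_left (c : ℝ) (h : m.DFin w) : m.B (fun x => c * u x) w = c * m.B u w := by
  have e : ∀ x, m.d (fun x => c * u x) x = c * m.d u x := fun x => by
    simp only [CMap.d]; ring
  have hT : ∀ x, m.d w x ≠ 0 → x ∈ h.toFinset := fun x hx => h.mem_toFinset.2 hx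
  rw [B_eq_sum _ hT, B_eq_sum _ hT, mul_div_assoc', Finset.mul_sum]
  congr 1
  exact Finset.sum_congr rfl fun x _ => by rw [e]; ring

theorem B_sum_left {q : ℕ} (c : Fin q → ℝ) (v : Fin q → X → ℝ) (h : m.DFin w) :
    m.B (fun x => ∑ i, c i * v i x) w = ∑ i, c i * m.B (v i) w := by
  have e : ∀ x, m.d (fun x => ∑ i, c i * v i x) x = ∑ i, c i * m.d (v i) x := fun x => by
    simp only [CMap.d, mul_sub, Finset.sum_sub_distrib]
  have hT : ∀ x, m.d w x ≠ 0 → x ∈ h.toFinset := fun x hx => h.mem_toFinset.2 hx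
  rw [B_eq_sum _ hT]
  have e2 : ∀ i, c i * m.B (v i) w = (∑ x ∈ h.toFinset, c i * (m.d (v i) x * m.d w x)) / 2 := fun i => by
    rw [B_eq_sum _ hT, mul_div_assoc', Finset.mul_sum]
  rw [Finset.sum_congr rfl fun i _ => e2 i, ← Finset.sum_div, Finset.sum_comm]
  congr 1
  refine Finset.sum_congr rfl fun x _ => ?_
  rw [e, Finset.sum_mul]
  exact Finset.sum_congr rfl fun i _ => by ring

/-- summation by parts -/
theorem B_eq (hw : (Function.support w).Finite) : m.B u w = - ∑ᶠ x, w x * m.d u x := by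
  have h1 : (Function.support fun x => m.d u x * w (m.k x)).Finite := by
    refine (hw.preimage (m.k.injective.injOn (s := m.k ⁻¹' Function.support w))).subset fun x hx => ?_
    exact fun h0 => hx (by simp only [h0, mul_zero])
  have h2 : (Function.support fun x => m.d u x * w x).Finite :=
    hw.subset fun x hx h0 => hx (by simp only [h0, mul_zero])
  have e1 : ∀ x, m.d u x * m.d w x = m.d u x * w (m.k x) - m.d u x * w x := fun x => by
    simp only [CMap.d]; ring
  have e2 : ∑ᶠ x, m.d u x * w (m.k x) = - ∑ᶠ x, m.d u x * w x := by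
    rw [← finsum_comp_equiv m.k, ← finsum_neg_distrib]
    refine finsum_congr fun x => ?_
    rw [d_k, m.k_k]
    ring
  have e3 : ∑ᶠ x, w x * m.d u x = ∑ᶠ x, m.d u x * w x := finsum_congr fun x => mul_comm _ _
  rw [CMap.B, finsum_congr e1, finsum_sub_distrib h1 h2, e2, e3]
  ring

theorem B_test {S : Set X} (hu : m.HarmOn S u) (hr : m.RInv w) (hw : (Function.support w).Finite)
    (hS : Function.support w ⊆ S) : m.B u w = 0 := by
  rw [B_eq hw, hu w hr hw hS, neg_zero]

theorem NoFlux.harm (hu : m.NoFlux u) : m.HarmOn Set.univ u := by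
  intro g hg hfin _
  have h := hu g hg (dfin_of_finite hfin)
  rw [B_eq hfin] at h
  linarith

theorem NoFlux.sum {q : ℕ} (c : Fin q → ℝ) (v : Fin q → X → ℝ) (h : ∀ i, m.NoFlux (v i)) :
    m.NoFlux (fun x => ∑ i, c i * v i x) := by
  intro w hr hd
  rw [B_sum_left c v hd]
  exact Finset.sum_eq_zero fun i _ => by rw [h i w hr hd, mul_zero]

theorem HarmOn.neg {S : Set X} (hu : m.HarmOn S u) : m.HarmOn S (fun x => - u x) := by
  intro g hg hfin hS
  have e : ∀ x, g x * m.d (fun x => - u x) x = - (g x * m.d u x) := fun x => by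
    simp only [CMap.d]; ring
  rw [finsum_congr e, finsum_neg_distrib, hu g hg hfin hS, neg_zero]

theorem HarmOn.mono {S T : Set X} (hST : T ⊆ S) (hu : m.HarmOn S u) : m.HarmOn T u := by
  exact fun g hg hfin hS => hu g hg hfin (hS.trans hST)

/-- affine functions of harmonic functions are harmonic -/
theorem HarmOn.affine {S : Set X} (a b : ℝ) (hu : m.HarmOn S u) : m.HarmOn S (fun x => a + b * u x) := by
  intro g hg hfin hS
  have e : ∀ x, g x * m.d (fun x => a + b * u x) x = b * (g x * m.d u x) := fun x => by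
    simp only [CMap.d]; ring
  rw [finsum_congr e, ← mul_finsum, hu g hg hfin hS, mul_zero]

theorem B_self_nonneg (m : CMap X) (u : X → ℝ) : 0 ≤ m.B u u := by
  exact div_nonneg (finsum_nonneg fun x => mul_self_nonneg _) (by norm_num)

theorem B_cs (hu : m.DFin u) (hw : m.DFin w) : (m.B u w) ^ 2 ≤ m.B u u * m.B w w := by
  classical
  have hT1 : ∀ x, m.d u x ≠ 0 → x ∈ hu.toFinset ∪ hw.toFinset := fun x hx =>
    Finset.mem_union_left _ (hu.mem_toFinset.2 hx)
  have hT2 : ∀ x, m.d w x ≠ 0 → x ∈ hu.toFinset ∪ hw.toFinset := fun x hx =>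
    Finset.mem_union_right _ (hw.mem_toFinset.2 hx)
  have h1 := Finset.sum_mul_sq_le_sq_mul_sq (hu.toFinset ∪ hw.toFinset) (m.d u) (m.d w)
  rw [B_eq_sum (u := u) _ hT2, B_eq_sum (u := u) _ hT1, B_eq_sum (u := w) _ hT2]
  simp only [← sq]
  have h2 : ((∑ x ∈ hu.toFinset ∪ hw.toFinset, m.d u x * m.d w x) / 2) ^ 2 =
      (∑ x ∈ hu.toFinset ∪ hw.toFinset, m.d u x * m.d w x) ^ 2 / 4 := by ring
  have h3 : (∑ x ∈ hu.toFinset ∪ hw.toFinset, m.d u x ^ 2) / 2 *
      ((∑ x ∈ hu.toFinset ∪ hw.toFinset, m.d w x ^ 2) / 2) =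
      ((∑ x ∈ hu.toFinset ∪ hw.toFinset, m.d u x ^ 2) *
        ∑ x ∈ hu.toFinset ∪ hw.toFinset, m.d w x ^ 2) / 4 := by ring
  rw [h2, h3]
  linarith

theorem B_le_of_d (hw : m.DFin w) (h : ∀ x, (m.d w x) ^ 2 ≤ m.d u x * m.d w x) :
    m.B w w ≤ m.B u w := by
  have hT : ∀ x, m.d w x ≠ 0 → x ∈ hw.toFinset := fun x hx => hw.mem_toFinset.2 hx
  rw [B_eq_sum _ hT, B_eq_sum _ hT]
  have h1 : ∑ x ∈ hw.toFinset, m.d w x * m.d w x ≤ ∑ x ∈ hw.toFinset, m.d u x * m.d w x :=
    Finset.sum_le_sum fun x _ => by rw [← sq]; exact h x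
  linarith

theorem d_eq_zero_of_B (hw : m.DFin w) (h : m.B w w ≤ 0) (x : X) : m.d w x = 0 := by
  by_contra hx
  have hT : ∀ x, m.d w x ≠ 0 → x ∈ hw.toFinset := fun x hx => hw.mem_toFinset.2 hx
  rw [B_eq_sum _ hT] at h
  have h1 := Finset.single_le_sum (f := fun x => m.d w x * m.d w x) (fun y _ => mul_self_nonneg _) (hT x hx)
  have h2 : 0 < m.d w x * m.d w x := mul_self_pos.2 hx
  have h3 : m.d w x * m.d w x ≤ ∑ x ∈ hw.toFinset, m.d w x * m.d w x := h1
  linarith

/-- one edge carries at most the whole energy -/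
theorem d_mul_le_B (hw : m.DFin w) (h : ∀ x, 0 ≤ m.d u x * m.d w x) (x : X) :
    m.d u x * m.d w x ≤ m.B u w := by
  classical
  have hT : ∀ y, m.d w y ≠ 0 → y ∈ hw.toFinset ∪ {x, m.k x} := fun y hy =>
    Finset.mem_union_left _ (hw.mem_toFinset.2 hy)
  rw [B_eq_sum _ hT]
  have h1 : ∑ y ∈ ({x, m.k x} : Finset X), m.d u y * m.d w y ≤
      ∑ y ∈ hw.toFinset ∪ {x, m.k x}, m.d u y * m.d w y :=
    Finset.sum_le_sum_of_subset_of_nonneg Finset.subset_union_right fun y _ _ => h y
  rw [Finset.sum_pair (m.k_ne x).symm, d_k, d_k] at h1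
  linarith

/-- clipping is monotone and 1-Lipschitz -/
theorem clip_d (a b : ℝ) (hab : a ≤ b) (h : X → ℝ) (x : X) :
    (m.d (fun y => clip a b (h y)) x) ^ 2 ≤ m.d h x * m.d (fun y => clip a b (h y)) x := by
  have key : ∀ s t : ℝ, s ≤ t → 0 ≤ clip a b t - clip a b s ∧ clip a b t - clip a b s ≤ t - s := by
    intro s t hst
    simp only [clip, max_def, min_def]
    split_ifs <;> constructor <;> linarith
  simp only [CMap.d]
  rcases le_total (h x) (h (m.k x)) with h1 | h1
  · obtain ⟨h2, h3⟩ := key _ _ h1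
    nlinarith
  · obtain ⟨h2, h3⟩ := key _ _ h1
    nlinarith

end UIPQ.D
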