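import Pool.Agent.Lib.UIPQ.D.Basic

/-!
# D/Bal: balls, finite sets of vertices, the hull of a finite set

PROOFS. `ball` finite by induction: `ball (n+1) = ball n ∪` image of the finite set of darts starting in `ball n`
(`LocFinite`) under `x ↦ vert (k x)`. `ballDarts` is the union of `darts v` over `v` in the (finite) ball.
`exists_vset`: the union of the (finite) orbits `darts (vert a)`, `a ∈ A`.
`small_comps_finite`: let `x ∉ D` have a finite component `C = {w | Joined Dᶜ x w}`. As `D` is nonempty, some point is not in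
`C`; by `comp_exit` (with `S = Dᶜ`) there is `z ∈ C` with `k z ∈ D`; with `b = k z ∈ D`: `k b = z ∉ D`, and `C` is the component of
`k b`. So the set is contained in the union over `b ∈ D` with `k b ∉ D` and `{w | Joined Dᶜ (k b) w}` finite of these finite
sets.
`hull D = D ∪ {x ∉ D with finite component of Dᶜ}`. VSet: for `x ∉ D`, `x` and `r x` are joined in `Dᶜ`, their components
are the same. `hull_inf`: `y ∉ hull D` means `y ∉ D` and infinite component `C` of `Dᶜ`; every `w ∈ C` has the same component, so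
`w ∉ hull D`; a path inside `Dᶜ` from `y` stays in `C`, hence in `(hull D)ᶜ`: prove `Joined Dᶜ y w → Joined (hull D)ᶜ y w` by
induction on the path.
`hull_exit`: `x ∈ hull D`, `x ∉ D`; the component `C ⊆ hull D` is finite, a set of vertices, and every `y ∈ C` with `k y ∉ C` has
`k y ∈ D`.
-/

namespace UIPQ.D

variable {X : Type} {m : CMap X}

private theorem bal_vert_eq {x y : X} : m.vert x = m.vert y ↔ m.r.SameCycle x y :=
  ⟨fun h => Quotient.exact h, fun h => Quotient.sound h⟩

private theorem bal_vert_r (m : CMap X) (x : X) : m.vert (m.r x) = m.vert x := by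
  rw [bal_vert_eq]
  exact ⟨-1, by simp⟩

theorem ballDarts_finite (hm : m.LocFinite) (x₀ : X) (n : ℕ) : (m.ballDarts x₀ n).Finite := by
  induction n with
  | zero => exact hm (m.vert x₀)
  | succ R ih =>
    have h : m.ballDarts x₀ (R + 1) ⊆ m.ballDarts x₀ R ∪
        ⋃ z ∈ m.ballDarts x₀ R, {y | m.vert y = m.vert (m.k z)} := by
      rintro x (hx | ⟨z, hz, hx⟩)
      · exact Or.inl hx
      · refine Or.inr ?_
        simp only [Set.mem_iUnion]
        exact ⟨z, hz, hx.symm⟩
    exact (ih.union (ih.biUnion fun z _ => hm (m.vert (m.k z)))).subset h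

theorem ballDarts_vset (m : CMap X) (x₀ : X) (n : ℕ) : m.VSet (m.ballDarts x₀ n) := by
  intro x
  show m.vert (m.r x) ∈ m.ball (m.vert x₀) n ↔ m.vert x ∈ m.ball (m.vert x₀) n
  rw [bal_vert_r]

theorem ballDarts_self (m : CMap X) (x₀ : X) (n : ℕ) : x₀ ∈ m.ballDarts x₀ n := by
  induction n with
  | zero => exact rfl
  | succ n ih => exact Or.inl ih

/-- the darts of the ball of radius `n + 1`: the ones of the ball of radius `n`, or `r`-equivalent to `k x`, `x` in the ball -/
theorem ballDarts_succ (m : CMap X) (x₀ : X) (n : ℕ) (y : X) :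
    y ∈ m.ballDarts x₀ (n + 1) ↔
      (y ∈ m.ballDarts x₀ n ∨ ∃ x ∈ m.ballDarts x₀ n, m.r.SameCycle (m.k x) y) := by
  constructor
  · rintro (h | ⟨x, hx, he⟩)
    · exact Or.inl h
    · exact Or.inr ⟨x, hx, bal_vert_eq.1 he⟩
  · rintro (h | ⟨x, hx, he⟩)
    · exact Or.inl h
    · exact Or.inr ⟨x, hx, bal_vert_eq.2 he⟩

theorem ballDarts_zero (m : CMap X) (x₀ : X) (y : X) :
    y ∈ m.ballDarts x₀ 0 ↔ m.r.SameCycle x₀ y := by
  constructor
  · intro h
    exact (bal_vert_eq.1 (show m.vert y = m.vert x₀ from h)).symm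
  · intro h
    exact (bal_vert_eq.2 h.symm : m.vert y = m.vert x₀)

theorem ballDarts_mono (m : CMap X) (x₀ : X) {i j : ℕ} (h : i ≤ j) :
    m.ballDarts x₀ i ⊆ m.ballDarts x₀ j := by
  induction h with
  | refl => exact subset_rfl
  | step _ ih => exact ih.trans fun _ h => Or.inl h

theorem exists_ballDarts (hc : m.Connected) (x₀ x : X) : ∃ n, x ∈ m.ballDarts x₀ n := by
  have key : ∀ a b, Relation.EqvGen (fun a b => b = m.r a ∨ b = m.k a) a b →
      ((∃ R, a ∈ m.ballDarts x₀ R) ↔ ∃ R, b ∈ m.ballDarts x₀ R) := by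
    intro a b h
    induction h with
    | rel a b h =>
      rcases h with rfl | rfl
      · constructor
        · rintro ⟨R, hR⟩
          exact ⟨R, (ballDarts_vset m x₀ R a).2 hR⟩
        · rintro ⟨R, hR⟩
          exact ⟨R, (ballDarts_vset m x₀ R a).1 hR⟩
      · constructor
        · rintro ⟨R, hR⟩
          exact ⟨R + 1, Or.inr ⟨a, hR, rfl⟩⟩
        · rintro ⟨R, hR⟩
          refine ⟨R + 1, Or.inr ⟨m.k a, hR, ?_⟩⟩
          rw [m.k_k]
    | refl a => exact Iff.rfl
    | symm a b _ ih => exact ih.symm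
    | trans a b c _ _ ih1 ih2 => exact ih1.trans ih2
  exact (key x₀ x (hc x₀ x)).1 ⟨0, ballDarts_self m x₀ 0⟩

theorem exists_vset (hm : m.LocFinite) {A : Set X} (hA : A.Finite) :
    ∃ D : Set X, D.Finite ∧ m.VSet D ∧ A ⊆ D := by
  refine ⟨⋃ a ∈ A, {y | m.vert y = m.vert a}, hA.biUnion fun a _ => hm (m.vert a), ?_, ?_⟩
  · intro x
    simp only [Set.mem_iUnion]
    constructor
    · rintro ⟨a, ha, h⟩
      exact ⟨a, ha, (bal_vert_r m x).symm.trans h⟩
    · rintro ⟨a, ha, h⟩
      exact ⟨a, ha, (bal_vert_r m x).trans h⟩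
  · intro a ha
    simp only [Set.mem_iUnion]
    exact ⟨a, ha, rfl⟩

theorem small_comps_finite (hc : m.Connected) {D : Set X} (hD : D.Finite) (hV : m.VSet D)
    (hne : D.Nonempty) : {x | x ∉ D ∧ {w | m.Joined Dᶜ x w}.Finite}.Finite := by
  obtain ⟨y, hy⟩ := hne
  have hfin : (⋃ b ∈ {b | b ∈ D ∧ {w | m.Joined Dᶜ (m.k b) w}.Finite},
      {w | m.Joined Dᶜ (m.k b) w}).Finite :=
    Set.Finite.biUnion (hD.subset fun b hb => hb.1) fun b hb => hb.2
  refine hfin.subset ?_
  rintro x ⟨hxD, hxf⟩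
  have hxy : ¬ m.Joined Dᶜ x y := fun h => Joined.mem' h hxD hy
  obtain ⟨z, hxz, hzD, hkz⟩ := comp_exit hc (vset_compl hV) (show x ∈ Dᶜ from hxD) hxy
  have hkzD : m.k z ∈ D := by
    by_contra h
    exact hkz h
  simp only [Set.mem_iUnion]
  refine ⟨m.k z, ⟨hkzD, ?_⟩, ?_⟩
  · rw [m.k_k]
    exact hxf.subset fun w hw => Joined.trans' hxz hw
  · show m.Joined Dᶜ (m.k (m.k z)) x
    rw [m.k_k]
    exact Joined.symm' hxz

/-- `D` together with the finite components of its complement -/
def hull (m : CMap X) (D : Set X) : Set X := D ∪ {x | x ∉ D ∧ {w | m.Joined Dᶜ x w}.Finite}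

theorem hull_finite (hc : m.Connected) {D : Set X} (hD : D.Finite) (hV : m.VSet D)
    (hne : D.Nonempty) : (hull m D).Finite := by
  exact hD.union (small_comps_finite hc hD hV hne)

theorem hull_vset {D : Set X} (hV : m.VSet D) : m.VSet (hull m D) := by
  intro x
  by_cases hx : x ∈ D
  · exact ⟨fun _ => Or.inl hx, fun _ => Or.inl ((hV x).2 hx)⟩
  · have hrx : m.r x ∉ D := fun h => hx ((hV x).1 h)
    have hj : m.Joined Dᶜ x (m.r x) := joined_r (vset_compl hV) hx
    constructor
    · rintro (h | ⟨_, h⟩)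
      · exact absurd h hrx
      · exact Or.inr ⟨hx, h.subset fun w hw => Joined.trans' (Joined.symm' hj) hw⟩
    · rintro (h | ⟨_, h⟩)
      · exact absurd h hx
      · exact Or.inr ⟨hrx, h.subset fun w hw => Joined.trans' hj hw⟩

theorem hull_inf {D : Set X} (hV : m.VSet D) {y : X} (hy : y ∉ hull m D) :
    {w | m.Joined (hull m D)ᶜ y w}.Infinite := by
  have hyD : y ∉ D := fun h => hy (Or.inl h)
  have hyinf : {w | m.Joined Dᶜ y w}.Infinite := fun h => hy (Or.inr ⟨hyD, h⟩)
  have hnot : ∀ b, m.Joined Dᶜ y b → b ∉ hull m D := by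
    intro b hb h
    rcases h with h | ⟨_, h⟩
    · exact Joined.mem' hb hyD h
    · exact hyinf (h.subset fun w hw => Joined.trans' (Joined.symm' hb) hw)
  refine hyinf.mono ?_
  intro w hw
  have key : ∀ w, Relation.ReflTransGen (fun a b => a ∈ Dᶜ ∧ b ∈ Dᶜ ∧ m.HAdj a b) y w →
      m.Joined (hull m D)ᶜ y w := by
    intro w hw
    induction hw with
    | refl => exact Relation.ReflTransGen.refl
    | tail hb hs ih =>
      exact Relation.ReflTransGen.tail ih
        ⟨hnot _ hb, hnot _ (Relation.ReflTransGen.tail hb hs), hs.2.2⟩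
  exact key w hw

/-- a point of the hull outside `D` lies in a finite set of vertices `C` inside the hull all of whose exits lead to `D` -/
theorem hull_exit {D : Set X} (hV : m.VSet D) {x : X} (hx : x ∈ hull m D) (hxD : x ∉ D) :
    ∃ C : Set X, x ∈ C ∧ C.Finite ∧ m.VSet C ∧ C ⊆ hull m D ∧ Disjoint C D ∧
      ∀ y ∈ C, m.k y ∉ C → m.k y ∈ D := by
  have hfin : {w | m.Joined Dᶜ x w}.Finite := by
    rcases hx with h | ⟨_, h⟩
    · exact absurd h hxD
    · exact h
  refine ⟨{w | m.Joined Dᶜ x w}, joined_refl, hfin, comp_vset (vset_compl hV) hxD, ?_, ?_, ?_⟩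
  · intro w hw
    exact Or.inr ⟨Joined.mem' hw hxD, hfin.subset fun v hv => Joined.trans' hw hv⟩
  · rw [Set.disjoint_left]
    intro w hw hwD
    exact Joined.mem' hw hxD hwD
  · intro y hy hky
    by_contra h
    exact hky (comp_k hxD hy h)

end UIPQ.D
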