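import Pool.Agent.Lib.UIPQ.D.Defs

/-!
# D/Basic: paths inside sets, connectivity

Everything is elementary: `Joined S` is the reflexive transitive closure of `a ∈ S ∧ b ∈ S ∧ HAdj a b`,
a symmetric relation (`HAdj.symm` is in FDefs). `Connected` of Defs is `EqvGen (b = r a ∨ b = k a)`.
`exit`: if no `z ∈ C` has `k z ∉ C`, then `c x = (x ∈ C)` is invariant under `r` and `k` (use `k (k x) = x`), so
constant by `const_of_conn`.
-/

namespace UIPQ.D

variable {X : Type} {m : CMap X} {S T : Set X} {x y z : X}

theorem Joined.symm' (h : m.Joined S x y) : m.Joined S y x := by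
  induction h with
  | refl => exact Relation.ReflTransGen.refl
  | tail _ hbc ih => exact Relation.ReflTransGen.head ⟨hbc.2.1, hbc.1, hbc.2.2.symm⟩ ih

theorem Joined.trans' (h : m.Joined S x y) (h' : m.Joined S y z) : m.Joined S x z :=
  Relation.ReflTransGen.trans h h'

theorem Joined.mono' (hST : S ⊆ T) (h : m.Joined S x y) : m.Joined T x y := by
  induction h with
  | refl => exact Relation.ReflTransGen.refl
  | tail _ hbc ih => exact Relation.ReflTransGen.tail ih ⟨hST hbc.1, hST hbc.2.1, hbc.2.2⟩

theorem Joined.mem' (h : m.Joined S x y) (hx : x ∈ S) : y ∈ S := by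
  induction h with
  | refl => exact hx
  | tail _ hbc _ => exact hbc.2.1

theorem joined_refl : m.Joined S x x := Relation.ReflTransGen.refl

theorem joined_k (hx : x ∈ S) (hk : m.k x ∈ S) : m.Joined S x (m.k x) :=
  Relation.ReflTransGen.single ⟨hx, hk, Or.inl rfl⟩

theorem joined_r (hV : m.VSet S) (hx : x ∈ S) : m.Joined S x (m.r x) :=
  Relation.ReflTransGen.single ⟨hx, (hV x).2 hx, Or.inr (Or.inl rfl)⟩

/-- the component of `x` in `S` is a set of vertices -/
theorem comp_vset (hV : m.VSet S) (hx : x ∈ S) : m.VSet {w | m.Joined S x w} := by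
  intro w
  constructor
  · intro h
    have h1 : m.Joined S x (m.r w) := h
    have h2 : w ∈ S := (hV w).1 (Joined.mem' h1 hx)
    exact Joined.trans' h1 (Joined.symm' (joined_r hV h2))
  · intro h
    have h1 : m.Joined S x w := h
    exact Joined.trans' h1 (joined_r hV (Joined.mem' h1 hx))

theorem comp_sub (hx : x ∈ S) : {w | m.Joined S x w} ⊆ S := fun _ h => Joined.mem' h hx

/-- the component is closed under crossing an edge inside `S` -/
theorem comp_k (hx : x ∈ S) (h : m.Joined S x y) (hk : m.k y ∈ S) : m.Joined S x (m.k y) :=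
  Joined.trans' h (joined_k (Joined.mem' h hx) hk)

theorem vset_compl (hV : m.VSet S) : m.VSet Sᶜ := fun x => not_congr (hV x)

private theorem inv_sameCycle {β : Type} (c : X → β) (hr : ∀ x, c (m.r x) = c x) (h : m.r.SameCycle x y) :
    c x = c y := by
  obtain ⟨n, rfl⟩ := h
  have h1 : ∀ n : ℕ, ∀ x, c ((m.r ^ n) x) = c x := by
    intro n
    induction n with
    | zero => intro x; rfl
    | succ n ih =>
      intro x
      rw [pow_succ', Equiv.Perm.mul_apply, hr, ih]
  cases n with
  | ofNat n =>
    rw [Int.ofNat_eq_natCast, zpow_natCast, h1]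
  | negSucc n =>
    have h2 := h1 (n + 1) ((m.r ^ (Int.negSucc n)) x)
    rw [← h2, zpow_negSucc, ← Equiv.Perm.mul_apply, mul_inv_cancel]
    rfl

theorem vset_sameCycle (hV : m.VSet S) (hx : x ∈ S) (h : m.r.SameCycle x y) : y ∈ S := by
  have h1 := inv_sameCycle (m := m) (fun x => x ∈ S) (fun x => propext (hV x)) h
  exact (eq_iff_iff.1 h1).1 hx

theorem rinv_sameCycle {u : X → ℝ} (hu : m.RInv u) (h : m.r.SameCycle x y) : u x = u y :=
  inv_sameCycle u hu h

/-- a function which is constant along the moves inside `S` is constant on the components -/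
theorem const_of_joined {β : Type} (c : X → β) (hr : ∀ x, c (m.r x) = c x)
    (hk : ∀ x, x ∈ S → m.k x ∈ S → c (m.k x) = c x) (h : m.Joined S x y) : c x = c y := by
  induction h with
  | refl => rfl
  | @tail b d _ hbc ih =>
    rw [ih]
    obtain ⟨h1, h2, h3⟩ := hbc
    rcases h3 with h3 | h3 | h3
    · rw [h3]
      rw [h3] at h2
      exact (hk b h1 h2).symm
    · rw [h3]
      exact (hr b).symm
    · rw [h3]
      exact hr d

theorem const_of_conn (hc : m.Connected) {β : Type} (c : X → β) (hr : ∀ x, c (m.r x) = c x)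
    (hk : ∀ x, c (m.k x) = c x) (x y : X) : c x = c y := by
  have h1 := hc x y
  induction h1 with
  | rel a b h =>
    rcases h with h | h
    · rw [h, hr]
    · rw [h, hk]
  | refl a => rfl
  | symm a b _ ih => exact ih.symm
  | trans a b c _ _ ih1 ih2 => exact ih1.trans ih2

/-- leaving a set of vertices -/
theorem exit (hc : m.Connected) {C : Set X} (hV : m.VSet C) (hx : x ∈ C) (hy : y ∉ C) :
    ∃ z ∈ C, m.k z ∉ C := by
  by_contra hn
  push Not at hn
  have h1 : ∀ z, (m.k z ∈ C) = (z ∈ C) := fun z =>
    propext ⟨fun h => by have h2 := hn _ h; rwa [m.k_k] at h2, hn z⟩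
  have h2 := const_of_conn hc (fun z => z ∈ C) (fun z => propext (hV z)) h1 x y
  exact hy ((eq_iff_iff.1 h2).1 hx)

/-- leaving the component of `x` in `S` leads outside `S` -/
theorem comp_exit (hc : m.Connected) (hV : m.VSet S) (hx : x ∈ S) (hy : ¬ m.Joined S x y) :
    ∃ z, m.Joined S x z ∧ z ∈ S ∧ m.k z ∉ S := by
  obtain ⟨z, hz, hkz⟩ := exit (C := {w | m.Joined S x w}) hc (comp_vset hV hx) (x := x) joined_refl hy
  exact ⟨z, hz, Joined.mem' hz hx, fun h => hkz (comp_k hx hz h)⟩

theorem f_eq (x : X) : m.f x = m.r (m.k x) := rfl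

/-- the value at the end of the dart is the value at the start of the next dart of the face -/
theorem rinv_k {u : X → ℝ} (hu : m.RInv u) (x : X) : u (m.k x) = u (m.f x) := by
  rw [f_eq, hu]

end UIPQ.D
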