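import Pool.Agent.Lib.UIPQ.D.Bal
import Pool.Agent.Lib.UIPQ.D.BForm

/-!
# D/Bridge: from functions on the vertices to functions on the darts

PROOF. `u = h ∘ vert`. `vert (r x) = vert x` (`Quotient.sound`): `RInv`. Let `g` be `RInv` with finite support; `g = G ∘ vert` (`rinv_sameCycle`, `Quotient.lift`).
`∑ᶠ x, g x * d u x`: the support is contained in a finite union of sets `darts v` (`v` in the finite set `V₀ = vert '' support g`); the sum is
`∑_{v ∈ V₀} G v * ∑_{x ∈ darts v} (h (vert (k x)) - h v)` and by `Harmonic`, `h v * ncard = ∑ᶠ_{x ∈ darts v} h (vert (k x))` (`ncard ≠ 0`: `darts v` is finite and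
nonempty, `Quotient.exists_rep`), so every inner sum vanishes. Bound: for `x ∈ ballDarts x₀ n`: `dist (vert x₀) (vert x) ≤ n` (`Nat.sInf_le`),
`|h| ≤ C (1 + dist)^k ≤ C (1 + n)^(max k 0)` (`C ≥ 0` because `|h v| ≥ 0` and `(1 + dist)^k > 0`).
-/

namespace UIPQ.D

variable {X : Type} {m : CMap X}

theorem vert_r (m : CMap X) (x : X) : m.vert (m.r x) = m.vert x :=
  Quotient.sound ⟨-1, by simp⟩

private theorem bridge_sameCycle {x y : X} (h : m.vert x = m.vert y) : m.r.SameCycle x y :=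
  Quotient.exact h

theorem harm_of_harmonic (hm : m.LocFinite) {h : m.Vertex → ℝ} (hh : m.Harmonic h) :
    m.HarmOn Set.univ (fun x => h (m.vert x)) := by
  classical
  intro g hg hfin _
  have hV : (m.vert '' Function.support g).Finite := hfin.image _
  have hT : (⋃ v ∈ m.vert '' Function.support g, m.darts v).Finite :=
    hV.biUnion fun v _ => hm v
  have hsub : Function.support (fun x => g x * m.d (fun x => h (m.vert x)) x) ⊆
      ↑(hT.toFinset) := by
    intro x hx
    have h1 : g x ≠ 0 := fun h0 => hx (by simp [h0])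
    rw [Set.Finite.coe_toFinset]
    simp only [Set.mem_iUnion]
    exact ⟨m.vert x, ⟨x, h1, rfl⟩, rfl⟩
  rw [finsum_eq_sum_of_support_subset _ hsub]
  have hmaps : ∀ x ∈ hT.toFinset, m.vert x ∈ hV.toFinset := by
    intro x hx
    rw [Set.Finite.mem_toFinset] at hx ⊢
    simp only [Set.mem_iUnion] at hx
    obtain ⟨v, hv, hxv⟩ := hx
    have h2 : m.vert x = v := hxv
    rw [h2]
    exact hv
  rw [← Finset.sum_fiberwise_of_maps_to hmaps]
  apply Finset.sum_eq_zero
  intro v hv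
  rw [Set.Finite.mem_toFinset] at hv
  have hfil : hT.toFinset.filter (fun x => m.vert x = v) = (hm v).toFinset := by
    ext x
    simp only [Finset.mem_filter, Set.Finite.mem_toFinset, Set.mem_iUnion]
    constructor
    · rintro ⟨_, h2⟩
      exact h2
    · intro h2
      exact ⟨⟨v, hv, h2⟩, h2⟩
  rw [hfil]
  obtain ⟨y, hy⟩ : ∃ y, m.vert y = v := Quotient.exists_rep v
  have hsum : ∑ x ∈ (hm v).toFinset, g x * m.d (fun x => h (m.vert x)) x =
      ∑ x ∈ (hm v).toFinset, g y * (h (m.vert (m.k x)) - h v) := by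
    apply Finset.sum_congr rfl
    intro x hx
    have h2 : m.vert x = v := (hm v).mem_toFinset.1 hx
    have h3 : g x = g y := rinv_sameCycle hg (bridge_sameCycle (h2.trans hy.symm))
    simp only [CMap.d, h3, h2]
  rw [hsum, ← Finset.mul_sum, Finset.sum_sub_distrib, Finset.sum_const, nsmul_eq_mul]
  have hcard : ((hm v).toFinset.card : ℝ) ≠ 0 := by
    have h4 : 0 < (hm v).toFinset.card := Finset.card_pos.2 ⟨y, (hm v).mem_toFinset.2 hy⟩
    exact_mod_cast h4.ne'
  have h5 := hh v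
  rw [finsum_mem_eq_finite_toFinset_sum _ (hm v), Set.ncard_eq_toFinset_card _ (hm v)] at h5
  rw [eq_div_iff hcard] at h5
  rw [← h5]
  ring

theorem growth_bound (x₀ : X) {k : ℝ} {h : m.Vertex → ℝ} {C : ℝ}
    (hC : ∀ v, |h v| ≤ C * (1 + (m.dist (m.vert x₀) v : ℝ)) ^ k) (n : ℕ) :
    ∀ x ∈ m.ballDarts x₀ n, |h (m.vert x)| ≤ C * (1 + (n : ℝ)) ^ (max k 0) := by
  intro x hx
  have h1 : m.dist (m.vert x₀) (m.vert x) ≤ n := Nat.sInf_le hx
  have h2 : (m.dist (m.vert x₀) (m.vert x) : ℝ) ≤ n := by exact_mod_cast h1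
  have h3 : (0 : ℝ) ≤ (m.dist (m.vert x₀) (m.vert x) : ℝ) := Nat.cast_nonneg _
  have h4 := hC (m.vert x)
  have h5 : (0 : ℝ) < (1 + (m.dist (m.vert x₀) (m.vert x) : ℝ)) ^ k :=
    Real.rpow_pos_of_pos (by linarith) k
  have h6 : 0 ≤ C := by
    by_contra h7
    have h8 : C * (1 + (m.dist (m.vert x₀) (m.vert x) : ℝ)) ^ k < 0 :=
      mul_neg_of_neg_of_pos (not_le.1 h7) h5
    have h9 := abs_nonneg (h (m.vert x))
    linarith
  refine h4.trans (mul_le_mul_of_nonneg_left ?_ h6)
  calc (1 + (m.dist (m.vert x₀) (m.vert x) : ℝ)) ^ k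
      ≤ (1 + (m.dist (m.vert x₀) (m.vert x) : ℝ)) ^ (max k 0) :=
        Real.rpow_le_rpow_of_exponent_le (by linarith) (le_max_left _ _)
    _ ≤ (1 + (n : ℝ)) ^ (max k 0) :=
        Real.rpow_le_rpow (by linarith) (by linarith) (le_max_right _ _)

end UIPQ.D
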