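import Pool.Agent.Lib.UIPQ.D.BForm

/-!
# D/EDForm: the Dirichlet form of the edges inside a finite set `D`

`ED D u w` is a finite sum over `{x ∈ D | k x ∈ D}`; write it once as a `Finset` sum
(`finsum_mem_eq_finite_toFinset_sum`) and everything is linear algebra of finite sums.
-/

namespace UIPQ.D

variable {X : Type} {m : CMap X} {u w w1 w2 : X → ℝ} {D E : Set X}

theorem ED_eq_sum (hD : D.Finite) (T : Finset X) (hT : ∀ x, x ∈ T ↔ (x ∈ D ∧ m.k x ∈ D)) :
    m.ED D u w = (∑ x ∈ T, m.d u x * m.d w x) / 2 := by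
  unfold CMap.ED
  have hs : {x | x ∈ D ∧ m.k x ∈ D} = (T : Set X) := by
    ext x
    simp [hT x]
  rw [hs, finsum_mem_coe_finset]

private theorem exT (m : CMap X) (hD : D.Finite) :
    ∃ T : Finset X, ∀ x, x ∈ T ↔ (x ∈ D ∧ m.k x ∈ D) := by
  have hf : {x | x ∈ D ∧ m.k x ∈ D}.Finite := hD.subset fun x hx => hx.1
  exact ⟨hf.toFinset, fun x => by simp⟩

theorem ED_comm (m : CMap X) (D : Set X) (u w : X → ℝ) : m.ED D u w = m.ED D w u := by
  unfold CMap.ED
  simp only [mul_comm]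

theorem ED_nonneg (m : CMap X) (D : Set X) (u : X → ℝ) : 0 ≤ m.ED D u u := by
  unfold CMap.ED
  exact div_nonneg (finsum_nonneg fun x => finsum_nonneg fun _ => mul_self_nonneg _) (by norm_num)

theorem ED_mono (hE : E.Finite) (h : D ⊆ E) : m.ED D u u ≤ m.ED E u u := by
  obtain ⟨T, hT⟩ := exT m (hE.subset h)
  obtain ⟨S, hS⟩ := exT m hE
  rw [ED_eq_sum (hE.subset h) T hT, ED_eq_sum hE S hS]
  have hsub : T ⊆ S := fun x hx => (hS x).2 ⟨h ((hT x).1 hx).1, h ((hT x).1 hx).2⟩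
  have := Finset.sum_le_sum_of_subset_of_nonneg (f := fun x => m.d u x * m.d u x) hsub
    (fun x _ _ => mul_self_nonneg (m.d u x))
  linarith

private theorem d_lin {q : ℕ} (c : Fin q → ℝ) (v : Fin q → X → ℝ) (x : X) :
    m.d (fun x => ∑ i, c i * v i x) x = ∑ i, c i * m.d (v i) x := by
  unfold CMap.d
  rw [← Finset.sum_sub_distrib]
  exact Finset.sum_congr rfl fun i _ => by ring

/-- the energy of a linear combination is the Gram form -/
theorem ED_sum (hD : D.Finite) {q : ℕ} (c e : Fin q → ℝ) (v : Fin q → X → ℝ) :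
    m.ED D (fun x => ∑ i, c i * v i x) (fun x => ∑ j, e j * v j x) =
      ∑ i, ∑ j, c i * e j * m.ED D (v i) (v j) := by
  obtain ⟨T, hT⟩ := exT m hD
  rw [ED_eq_sum hD T hT]
  have h1 : ∀ i j, m.ED D (v i) (v j) = (∑ x ∈ T, m.d (v i) x * m.d (v j) x) / 2 :=
    fun i j => ED_eq_sum hD T hT
  simp only [h1, d_lin]
  have h2 : ∀ x, (∑ i, c i * m.d (v i) x) * (∑ j, e j * m.d (v j) x) =
      ∑ i, ∑ j, c i * e j * (m.d (v i) x * m.d (v j) x) := by
    intro x
    rw [Finset.sum_mul_sum]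
    exact Finset.sum_congr rfl fun i _ => Finset.sum_congr rfl fun j _ => by ring
  simp only [h2]
  rw [Finset.sum_comm, Finset.sum_div]
  refine Finset.sum_congr rfl fun i _ => ?_
  rw [Finset.sum_comm, Finset.sum_div]
  refine Finset.sum_congr rfl fun j _ => ?_
  rw [← Finset.mul_sum, mul_div_assoc]

/-- the part of the form of edges inside `D` is at most twice ... : a sum of squares over a set of darts
mapped injectively into the darts inside `D` -/
theorem sum_sq_le_ED (hD : D.Finite) (A : Finset X) (g : X → X) (hg : Set.InjOn g A)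
    (hgD : ∀ x ∈ A, g x ∈ D ∧ m.k (g x) ∈ D) : ∑ x ∈ A, (m.d u (g x)) ^ 2 ≤ 2 * m.ED D u u := by
  classical
  obtain ⟨T, hT⟩ := exT m hD
  rw [ED_eq_sum hD T hT]
  have h1 : ∑ x ∈ A, (m.d u (g x)) ^ 2 = ∑ y ∈ A.image g, (m.d u y) ^ 2 :=
    (Finset.sum_image (f := fun y => (m.d u y) ^ 2) hg).symm
  have hsub : A.image g ⊆ T := by
    intro y hy
    obtain ⟨x, hx, rfl⟩ := Finset.mem_image.1 hy
    exact (hT _).2 (hgD x hx)
  have h2 := Finset.sum_le_sum_of_subset_of_nonneg (f := fun x => (m.d u x) ^ 2) hsub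
    (fun x _ _ => sq_nonneg (m.d u x))
  have h3 : ∑ x ∈ T, m.d u x * m.d u x = ∑ x ∈ T, (m.d u x) ^ 2 :=
    Finset.sum_congr rfl fun x _ => by ring
  rw [h1, h3]
  linarith

/-- positivity: zero energy on `D` means equal values along the edges inside `D` -/
theorem d_eq_zero_of_ED (hD : D.Finite) (h : m.ED D u u ≤ 0) (x : X) (hx : x ∈ D) (hk : m.k x ∈ D) :
    m.d u x = 0 := by
  obtain ⟨T, hT⟩ := exT m hD
  rw [ED_eq_sum hD T hT] at h
  have h1 := Finset.single_le_sum (f := fun x => m.d u x * m.d u x)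
    (fun y _ => mul_self_nonneg (m.d u y)) ((hT x).2 ⟨hx, hk⟩)
  have h2 : m.d u x * m.d u x ≤ 0 := by linarith
  exact mul_self_eq_zero.1 (le_antisymm h2 (mul_self_nonneg _))

end UIPQ.D
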