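import Pool.Agent.Lib.UIPQ.D.PotC
import Pool.Agent.Lib.UIPQ.D.EDForm

/-!
# D/Cacc: the Caccioppoli inequality relative to the components above the level `a + 1`

PROOF. `φ x = a + 3 - clip (a+2) (a+3) (h x)` : `φ = 1` on `dn h (a+2)`, `φ = 0` off `{h < a + 3}`, `RInv`, `(d φ x)^2 = (d (clip (a+2) (a+3) ∘ h) x)^2`.
`ψ x = if x ∈ up h (a+1) then u (p x) else 0`: `RInv` (`p (r x) = p x` as `x`, `r x` are joined), `d ψ x ≠ 0` only if `x ∈ Cr h (a+1)` (if both ends are in
`up h (a+1)` they are joined): `DFin ψ`. `v = u - ψ`, `g = φ^2 * v`: `RInv`, finite support (inside `{h < R}`, as `a + 3 ≤ R`). `NoFlux` gives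
`B u g = 0` and `B u ψ = 0`. For a dart `x` write `'` for the value at `k x`.
(i) `x, k x ∈ dn h (a+1)`: `φ = φ' = 1`, `ψ = ψ' = 0`: `d u x * d g x = (d u x)^2`, `d ψ x = 0`.
(ii) `x ∈ Cr h (a+1)`: by `lip` both ends have `h ≤ a + 2`, `φ = φ' = 1`: `d u x * d g x = (d u x)^2 - d u x * d ψ x`.
(iii) `x, k x ∈ up h (a+1)`: `ψ = ψ' = q := u (p x)`, `d u x = v' - v`, and `(v' - v)(φ'^2 v' - φ^2 v) = (φ' v' - φ v)^2 - v v' (φ' - φ)^2`; `d ψ x = 0`.
So for all `x`: `d u x * d g x + d u x * d ψ x = s x - c x` with `c x = (d φ x)^2 * v v'` in case (iii), `0` otherwise, and `s x = (d u x)^2` in cases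
(i), (ii), `(φ' v' - φ v)^2` in case (iii). `s ≥ 0`, and `s x = (d u x)^2` whenever `x, k x ∈ dn h (a+2)` (then `φ = φ' = 1`). Sum over all darts (all
functions have finite support: contained in the finite set of `x` with `h x < a+3` or `h (k x) < a+3`; work in such a finset): `0 = ∑ s - ∑ c`, and
`2 * ED (dn h (a+2)) u u ≤ ∑ s = ∑ c ≤ ∑_{(iii)} (d φ x)^2 |u x - u (p x)| |u (k x) - u (p x)|`.
(In case (iii) `p (k x) = p x`.)
-/

namespace UIPQ.D

variable {X : Type} {m : CMap X} {x₀ : X} {R : ℝ} {h : X → ℝ}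

private theorem clip_low {a b t : ℝ} (hab : a ≤ b) (ht : t ≤ a) : clip a b t = a := by
  unfold clip
  rw [min_eq_right (ht.trans hab), max_eq_left ht]

private theorem clip_high {a b t : ℝ} (hab : a ≤ b) (ht : b ≤ t) : clip a b t = b := by
  unfold clip
  rw [min_eq_left ht, max_eq_right hab]

private theorem lip_le (P : m.Pot x₀ R h) (x : X) : h (m.k x) ≤ h x + 1 ∧ h x ≤ h (m.k x) + 1 := by
  have h1 := abs_le.1 (P.lip x)
  unfold CMap.d at h1
  exact ⟨by linarith [h1.2], by linarith [h1.1]⟩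

private theorem finF (P : m.Pot x₀ R h) {b : ℝ} (hb : b ≤ R) :
    {x | h x < b ∨ h (m.k x) < b}.Finite := by
  have h1 : {x | h x < b}.Finite := P.fin.subset fun x hx => lt_of_lt_of_le hx hb
  have h2 : {x | h (m.k x) < b}.Finite := h1.preimage (m.k.injective.injOn)
  exact h1.union h2

theorem caccioppoli (P : m.Pot x₀ R h) {a : ℝ} (ha : 0 ≤ a) (haR : a + 3 ≤ R) {u : X → ℝ}
    (hu : m.RInv u) (hF : m.NoFlux u) (p : X → X)
    (hp : ∀ x y, x ∈ up h (a + 1) → m.Joined (up h (a + 1)) x y → p x = p y) :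
    m.ED (dn h (a + 2)) u u ≤ (∑ᶠ x ∈ {x | x ∈ up h (a + 1) ∧ m.k x ∈ up h (a + 1)},
      (m.d (fun y => clip (a + 2) (a + 3) (h y)) x) ^ 2 *
        (|u x - u (p x)| * |u (m.k x) - u (p x)|)) / 2 := by
  classical
  have haR' : a + 1 < R := by linarith
  obtain ⟨T, hTm⟩ : ∃ T : Finset X, ∀ x, x ∈ T ↔ (h x < a + 3 ∨ h (m.k x) < a + 3) :=
    ⟨(finF P haR).toFinset, fun x => by simp⟩
  set φ : X → ℝ := fun x => a + 3 - clip (a + 2) (a + 3) (h x) with hφ
  set ψ : X → ℝ := fun x => if x ∈ up h (a + 1) then u (p x) else 0 with hψ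
  set g : X → ℝ := fun x => φ x ^ 2 * (u x - ψ x) with hg
  have hφ1 : ∀ x, h x ≤ a + 2 → φ x = 1 := by
    intro x hx
    simp only [hφ]
    rw [clip_low (by linarith) hx]
    ring
  have hφ0 : ∀ x, a + 3 ≤ h x → φ x = 0 := by
    intro x hx
    simp only [hφ]
    rw [clip_high (by linarith) hx]
    ring
  have hupr : ∀ x, m.r x ∈ up h (a + 1) ↔ x ∈ up h (a + 1) := by
    intro x
    have := P.rinv x
    simp only [up, Set.mem_ofPred_eq, this]
  have hpr : ∀ x, x ∈ up h (a + 1) → p (m.r x) = p x := by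
    intro x hx
    exact (hp x (m.r x) hx (joined_r hupr hx)).symm
  have hφr : ∀ x, φ (m.r x) = φ x := by
    intro x
    simp only [hφ]
    rw [P.rinv x]
  have hψr : m.RInv ψ := by
    intro x
    by_cases hx : x ∈ up h (a + 1)
    · have hx' := (hupr x).2 hx
      simp only [hψ]
      rw [if_pos hx, if_pos hx', hpr x hx]
    · have hx' := fun hh => hx ((hupr x).1 hh)
      simp only [hψ]
      rw [if_neg hx, if_neg hx']
  have hgr : m.RInv g := by
    intro x
    simp only [hg]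
    rw [hφr, hu x, hψr x]
  have hgT : ∀ x, g x ≠ 0 → h x < a + 3 := by
    intro x hx
    by_contra hlt
    apply hx
    simp only [hg]
    rw [hφ0 x (not_lt.1 hlt)]
    ring
  have hgfin : (Function.support g).Finite :=
    P.fin.subset fun x hx => lt_of_lt_of_le (hgT x hx) haR
  have hdψ : ∀ x, m.d ψ x ≠ 0 → x ∈ m.Cr h (a + 1) := by
    intro x hx hiff
    apply hx
    unfold CMap.d
    by_cases h1 : x ∈ up h (a + 1)
    · have h2 := hiff.1 h1
      simp only [hψ]
      rw [if_pos h1, if_pos h2, hp x (m.k x) h1 (joined_k h1 h2)]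
      ring
    · have h2 : m.k x ∉ up h (a + 1) := fun hh => h1 (hiff.2 hh)
      simp only [hψ]
      rw [if_neg h1, if_neg h2]
      ring
  have hψD : m.DFin ψ := by
    refine Set.Finite.subset T.finite_toSet fun x hx => ?_
    have h1 := hdψ x hx
    have hl := lip_le P x
    rw [Finset.mem_coe, hTm]
    by_contra hcon
    rw [not_or, not_lt, not_lt] at hcon
    apply h1
    simp only [up, Set.mem_ofPred_eq]
    constructor
    · intro _; linarith [hcon.2]
    · intro _; linarith [hcon.1]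
  have hB1 : m.B u g = 0 := hF g hgr (dfin_of_finite hgfin)
  have hB2 : m.B u ψ = 0 := hF ψ hψr hψD
  have hTg : ∀ x, m.d g x ≠ 0 → x ∈ T := by
    intro x hx
    rw [hTm]
    by_contra hcon
    rw [not_or] at hcon
    apply hx
    unfold CMap.d
    have h1 : g x = 0 := by
      by_contra hne
      exact hcon.1 (hgT x hne)
    have h2 : g (m.k x) = 0 := by
      by_contra hne
      exact hcon.2 (hgT _ hne)
    rw [h1, h2]
    ring
  have hTψ : ∀ x, m.d ψ x ≠ 0 → x ∈ T := by
    intro x hx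
    have h1 := hdψ x hx
    rw [hTm]
    by_contra hcon
    rw [not_or, not_lt, not_lt] at hcon
    apply h1
    simp only [up, Set.mem_ofPred_eq]
    constructor
    · intro _; linarith [hcon.2]
    · intro _; linarith [hcon.1]
  rw [B_eq_sum T hTg] at hB1
  rw [B_eq_sum T hTψ] at hB2
  set c : X → ℝ := fun x => if x ∈ up h (a + 1) ∧ m.k x ∈ up h (a + 1) then
    (m.d φ x) ^ 2 * ((u x - u (p x)) * (u (m.k x) - u (p x))) else 0 with hc
  set s : X → ℝ := fun x => m.d u x * m.d g x + m.d u x * m.d ψ x + c x with hs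
  have key : ∀ x, 0 ≤ s x ∧ (h x ≤ a + 2 → h (m.k x) ≤ a + 2 → s x = m.d u x * m.d u x) := by
    intro x
    have hl := lip_le P x
    by_cases h1 : x ∈ up h (a + 1)
    · by_cases h2 : m.k x ∈ up h (a + 1)
      · have e1 : ψ x = u (p x) := if_pos h1
        have e2 : ψ (m.k x) = u (p x) := by
          simp only [hψ]
          rw [if_pos h2, hp x (m.k x) h1 (joined_k h1 h2)]
        have e3 : c x = (m.d φ x) ^ 2 * ((u x - u (p x)) * (u (m.k x) - u (p x))) := if_pos ⟨h1, h2⟩
        have e4 : s x = (φ (m.k x) * (u (m.k x) - u (p x)) - φ x * (u x - u (p x))) ^ 2 := by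
          simp only [hs]
          rw [e3]
          unfold CMap.d
          simp only [hg]
          rw [e1, e2]
          ring
        refine ⟨by rw [e4]; exact sq_nonneg _, fun h3 h4 => ?_⟩
        rw [e4, hφ1 x h3, hφ1 _ h4]
        unfold CMap.d
        ring
      · have h3 : h (m.k x) ≤ a + 1 := not_lt.1 h2
        have h4 : φ x = 1 := hφ1 x (by linarith [hl.2])
        have h5 : φ (m.k x) = 1 := hφ1 _ (by linarith)
        have e3 : c x = 0 := if_neg fun hh => h2 hh.2
        have e4 : s x = m.d u x * m.d u x := by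
          simp only [hs]
          rw [e3]
          unfold CMap.d
          simp only [hg]
          rw [h4, h5]
          ring
        exact ⟨by rw [e4]; exact mul_self_nonneg _, fun _ _ => e4⟩
    · have h3 : h x ≤ a + 1 := not_lt.1 h1
      have h4 : φ x = 1 := hφ1 x (by linarith)
      have h5 : φ (m.k x) = 1 := hφ1 _ (by linarith [hl.1])
      have e3 : c x = 0 := if_neg fun hh => h1 hh.1
      have e4 : s x = m.d u x * m.d u x := by
        simp only [hs]
        rw [e3]
        unfold CMap.d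
        simp only [hg]
        rw [h4, h5]
        ring
      exact ⟨by rw [e4]; exact mul_self_nonneg _, fun _ _ => e4⟩
  have hsum : ∑ x ∈ T, s x = ∑ x ∈ T, c x := by
    simp only [hs]
    rw [Finset.sum_add_distrib, Finset.sum_add_distrib]
    linarith
  -- the energy
  have hdnfin : (dn h (a + 2)).Finite := P.fin.subset fun x (hx : h x ≤ a + 2) => by
    show h x < R
    linarith
  obtain ⟨T', hT'⟩ : ∃ T' : Finset X, ∀ x, x ∈ T' ↔ (x ∈ dn h (a + 2) ∧ m.k x ∈ dn h (a + 2)) := by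
    have hf : {x | x ∈ dn h (a + 2) ∧ m.k x ∈ dn h (a + 2)}.Finite := hdnfin.subset fun x hx => hx.1
    exact ⟨hf.toFinset, fun x => by simp⟩
  rw [ED_eq_sum hdnfin T' hT']
  have hsub : T' ⊆ T := by
    intro x hx
    have h1 : h x ≤ a + 2 := ((hT' x).1 hx).1
    exact (hTm x).2 (Or.inl (by linarith))
  have hle1 : ∑ x ∈ T', m.d u x * m.d u x ≤ ∑ x ∈ T, s x := by
    calc ∑ x ∈ T', m.d u x * m.d u x = ∑ x ∈ T', s x :=
          Finset.sum_congr rfl fun x hx =>
            ((key x).2 ((hT' x).1 hx).1 ((hT' x).1 hx).2).symm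
      _ ≤ ∑ x ∈ T, s x :=
          Finset.sum_le_sum_of_subset_of_nonneg hsub fun x _ _ => (key x).1
  -- the right hand side
  set f : X → ℝ := fun x => (m.d (fun y => clip (a + 2) (a + 3) (h y)) x) ^ 2 *
        (|u x - u (p x)| * |u (m.k x) - u (p x)|) with hf
  have hdφ : ∀ x, (m.d φ x) ^ 2 = (m.d (fun y => clip (a + 2) (a + 3) (h y)) x) ^ 2 := by
    intro x
    unfold CMap.d
    simp only [hφ]
    ring
  have hRHS : ∑ᶠ x ∈ {x | x ∈ up h (a + 1) ∧ m.k x ∈ up h (a + 1)}, f x =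
      ∑ x ∈ T.filter (fun x => x ∈ up h (a + 1) ∧ m.k x ∈ up h (a + 1)), f x := by
    apply finsum_mem_eq_sum_of_inter_support_eq
    ext x
    simp only [Set.mem_inter_iff, Set.mem_ofPred_eq, Function.mem_support, Finset.coe_filter]
    constructor
    · rintro ⟨h1, h2⟩
      refine ⟨⟨?_, h1⟩, h2⟩
      rw [hTm]
      by_contra hcon
      rw [not_or, not_lt, not_lt] at hcon
      apply h2
      have h3 : m.d (fun y => clip (a + 2) (a + 3) (h y)) x = 0 := by
        unfold CMap.d
        simp only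
        rw [clip_high (by linarith) hcon.1, clip_high (by linarith) hcon.2]
        ring
      simp only [hf]
      rw [h3]
      ring
    · rintro ⟨⟨_, h1⟩, h2⟩
      exact ⟨h1, h2⟩
  rw [hRHS]
  have hle2 : ∑ x ∈ T, c x ≤
      ∑ x ∈ T.filter (fun x => x ∈ up h (a + 1) ∧ m.k x ∈ up h (a + 1)), f x := by
    rw [Finset.sum_filter]
    apply Finset.sum_le_sum
    intro x _
    by_cases h1 : x ∈ up h (a + 1) ∧ m.k x ∈ up h (a + 1)
    · simp only [hc, hf]
      rw [if_pos h1, if_pos h1, hdφ]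
      apply mul_le_mul_of_nonneg_left _ (sq_nonneg _)
      rw [← abs_mul]
      exact le_abs_self _
    · simp only [hc]
      rw [if_neg h1, if_neg h1]
  linarith

/-- the crude version, used at the top level: test with `φ^2 u`, `φ x = a + 1 - clip a (a+1) (h x)`,
`(u' - u)(φ'^2 u' - φ^2 u) = (φ' u' - φ u)^2 - u u' (φ' - φ)^2`; an edge with `φ ≠ φ'` has one end in
`{h < a + 1}`, so both ends in `{h < a + 2} ⊆ {h < R}` by `lip`, where `|u| ≤ M`; `∑ (d φ)^2 ≤ 2` by `clipE`. -/
theorem top_bound (P : m.Pot x₀ R h) {a : ℝ} (ha : 0 ≤ a) (haR : a + 2 ≤ R) {u : X → ℝ}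
    (hu : m.RInv u) (hF : m.NoFlux u) {M : ℝ} (hM : ∀ x, h x < R → |u x| ≤ M) :
    m.ED (dn h a) u u ≤ M ^ 2 := by
  classical
  obtain ⟨T, hTm⟩ : ∃ T : Finset X, ∀ x, x ∈ T ↔ (h x < a + 1 ∨ h (m.k x) < a + 1) :=
    ⟨(finF P (by linarith : a + 1 ≤ R)).toFinset, fun x => by simp⟩
  set φ : X → ℝ := fun x => a + 1 - clip a (a + 1) (h x) with hφ
  set g : X → ℝ := fun x => φ x ^ 2 * u x with hg
  have hφ1 : ∀ x, h x ≤ a → φ x = 1 := by
    intro x hx
    simp only [hφ]
    rw [clip_low (by linarith) hx]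
    ring
  have hφ0 : ∀ x, a + 1 ≤ h x → φ x = 0 := by
    intro x hx
    simp only [hφ]
    rw [clip_high (by linarith) hx]
    ring
  have hgr : m.RInv g := by
    intro x
    simp only [hg, hφ]
    rw [P.rinv x, hu x]
  have hgT : ∀ x, g x ≠ 0 → h x < a + 1 := by
    intro x hx
    by_contra hlt
    apply hx
    simp only [hg]
    rw [hφ0 x (not_lt.1 hlt)]
    ring
  have hgfin : (Function.support g).Finite :=
    P.fin.subset fun x hx => lt_of_lt_of_le (hgT x hx) (by linarith)
  have hB1 : m.B u g = 0 := hF g hgr (dfin_of_finite hgfin)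
  have hTg : ∀ x, m.d g x ≠ 0 → x ∈ T := by
    intro x hx
    rw [hTm]
    by_contra hcon
    rw [not_or] at hcon
    apply hx
    unfold CMap.d
    have h1 : g x = 0 := by
      by_contra hne
      exact hcon.1 (hgT x hne)
    have h2 : g (m.k x) = 0 := by
      by_contra hne
      exact hcon.2 (hgT _ hne)
    rw [h1, h2]
    ring
  rw [B_eq_sum T hTg] at hB1
  have hdφ : ∀ x, (m.d φ x) ^ 2 = (m.d (fun y => clip a (a + 1) (h y)) x) ^ 2 := by
    intro x
    unfold CMap.d
    simp only [hφ]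
    ring
  have hM0 : 0 ≤ M := by
    have h1 : h x₀ < R := by rw [P.zero]; exact P.pos
    exact (abs_nonneg _).trans (hM x₀ h1)
  have key : ∀ x, m.d u x * m.d g x =
      (φ (m.k x) * u (m.k x) - φ x * u x) ^ 2 - (u x * u (m.k x)) * (m.d φ x) ^ 2 := by
    intro x
    unfold CMap.d
    simp only [hg]
    ring
  have hsum : ∑ x ∈ T, (φ (m.k x) * u (m.k x) - φ x * u x) ^ 2 =
      ∑ x ∈ T, (u x * u (m.k x)) * (m.d φ x) ^ 2 := by
    have h1 : ∑ x ∈ T, m.d u x * m.d g x = 0 := by linarith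
    rw [Finset.sum_congr rfl fun x _ => key x, Finset.sum_sub_distrib] at h1
    linarith
  have hdnfin : (dn h a).Finite := P.fin.subset fun x (hx : h x ≤ a) => by
    show h x < R
    linarith
  obtain ⟨T', hT'⟩ : ∃ T' : Finset X, ∀ x, x ∈ T' ↔ (x ∈ dn h a ∧ m.k x ∈ dn h a) := by
    have hf : {x | x ∈ dn h a ∧ m.k x ∈ dn h a}.Finite := hdnfin.subset fun x hx => hx.1
    exact ⟨hf.toFinset, fun x => by simp⟩
  rw [ED_eq_sum hdnfin T' hT']
  have hsub : T' ⊆ T := by
    intro x hx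
    have h1 : h x ≤ a := ((hT' x).1 hx).1
    exact (hTm x).2 (Or.inl (by linarith))
  have hle1 : ∑ x ∈ T', m.d u x * m.d u x ≤
      ∑ x ∈ T, (φ (m.k x) * u (m.k x) - φ x * u x) ^ 2 := by
    calc ∑ x ∈ T', m.d u x * m.d u x =
          ∑ x ∈ T', (φ (m.k x) * u (m.k x) - φ x * u x) ^ 2 := by
          refine Finset.sum_congr rfl fun x hx => ?_
          rw [hφ1 x ((hT' x).1 hx).1, hφ1 _ ((hT' x).1 hx).2]
          unfold CMap.d
          ring
      _ ≤ _ := Finset.sum_le_sum_of_subset_of_nonneg hsub fun x _ _ => sq_nonneg _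
  have hle2 : ∑ x ∈ T, (u x * u (m.k x)) * (m.d φ x) ^ 2 ≤
      ∑ x ∈ T, M ^ 2 * (m.d φ x) ^ 2 := by
    apply Finset.sum_le_sum
    intro x hx
    have hl := lip_le P x
    have h1 := (hTm x).1 hx
    have h2 : h x < R := by
      rcases h1 with h1 | h1
      · linarith
      · linarith [hl.2]
    have h3 : h (m.k x) < R := by
      rcases h1 with h1 | h1
      · linarith [hl.1]
      · linarith
    apply mul_le_mul_of_nonneg_right _ (sq_nonneg _)
    calc u x * u (m.k x) ≤ |u x * u (m.k x)| := le_abs_self _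
      _ = |u x| * |u (m.k x)| := abs_mul _ _
      _ ≤ M * M := mul_le_mul (hM x h2) (hM _ h3) (abs_nonneg _) hM0
      _ = M ^ 2 := by ring
  have hclip := P.clipE a (a + 1) ha (by linarith) (by linarith)
  have hfs : ∑ᶠ x, (m.d (fun y => clip a (a + 1) (h y)) x) ^ 2 = ∑ x ∈ T, (m.d φ x) ^ 2 := by
    rw [finsum_eq_sum_of_support_subset (s := T)]
    · exact Finset.sum_congr rfl fun x _ => (hdφ x).symm
    · intro x hx
      rw [Finset.mem_coe, hTm]
      by_contra hcon
      rw [not_or, not_lt, not_lt] at hcon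
      apply hx
      have h3 : m.d (fun y => clip a (a + 1) (h y)) x = 0 := by
        unfold CMap.d
        simp only
        rw [clip_high (by linarith) hcon.1, clip_high (by linarith) hcon.2]
        ring
      show (m.d (fun y => clip a (a + 1) (h y)) x) ^ 2 = 0
      rw [h3]
      ring
  rw [hfs] at hclip
  have hle3 : ∑ x ∈ T, M ^ 2 * (m.d φ x) ^ 2 ≤ M ^ 2 * 2 := by
    rw [← Finset.mul_sum]
    apply mul_le_mul_of_nonneg_left _ (sq_nonneg _)
    linarith
  linarith

end UIPQ.D
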