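import Mathlib

/-!
# D/ChainDet: iteration over the windows (pure)

PROOF. `chain_det`: `T` is monotone along `0..J`, so there is at most one `i < J` with `¬ T i ∧ T (i+1)`. Prove by induction on `j ≤ J`:
`d 0 ≤ κ^(j - 1) * d j`, and if `¬ T j` or `T 0` then even `d 0 ≤ κ^j * d j`. (`0 ≤ κ ≤ 1`, `d ≥ 0`.)
`asym_bound`: let `ℓ = log (q/1024)`, so `ℓ > 12 k / c`. For large `n` put `J = ⌊(c log n - s - 4)/6⌋₊`: `6 J ≤ c log n - s - 4 ≤ R - s - 4`, `J ≥ (c log n - s - 10)/6`.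
The logarithm of the left side (if `C0 > 0`; if `C0 = 0` the left side is `0`, `q > 0`) is `q * ( - ℓ (J - 1) + 2 log C0 + 2 k log (1 + n))`,
with `ℓ (J-1) ≥ ℓ (c log n - s - 16)/6` and `ℓ c / 6 > 2 k`, `log (1+n) ≤ log n + log 2`: it tends to `-∞`.
-/

namespace UIPQ.D

open Filter

theorem chain_det (d : ℕ → ℝ) (J : ℕ) (κ : ℝ) (h0 : 0 ≤ κ) (h1 : κ ≤ 1) (T : ℕ → Prop)
    (hT : ∀ i < J, T i → T (i + 1)) (hd : ∀ i ≤ J, 0 ≤ d i) (hm : ∀ i < J, d i ≤ d (i + 1))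
    (hg : ∀ i < J, (T i ∨ ¬ T (i + 1)) → d i ≤ κ * d (i + 1)) : d 0 ≤ κ ^ (J - 1) * d J := by
  have hT0 : T 0 → ∀ j ≤ J, T j := by
    intro h j
    induction j with
    | zero => exact fun _ => h
    | succ j ih => exact fun hj => hT j (by omega) (ih (by omega))
  have key : ∀ j ≤ J, d 0 ≤ κ ^ (j - 1) * d j ∧ ((¬ T j ∨ T 0) → d 0 ≤ κ ^ j * d j) := by
    intro j
    induction j with
    | zero => intro _; simp
    | succ j ih =>
      intro hj
      obtain ⟨ih1, ih2⟩ := ih (by omega)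
      have hjJ : j < J := by omega
      have hd1 := hd (j + 1) hj
      have hstrong : (¬ T (j + 1) ∨ T 0) → d 0 ≤ κ ^ (j + 1) * d (j + 1) := by
        intro h
        have h2 : d 0 ≤ κ ^ j * d j := ih2 (h.imp (fun h3 h4 => h3 (hT j hjJ h4)) id)
        have h3 : d j ≤ κ * d (j + 1) := hg j hjJ (by
          rcases h with h | h
          · exact Or.inr h
          · exact Or.inl (hT0 h j hjJ.le))
        calc d 0 ≤ κ ^ j * d j := h2
          _ ≤ κ ^ j * (κ * d (j + 1)) := mul_le_mul_of_nonneg_left h3 (pow_nonneg h0 _)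
          _ = κ ^ (j + 1) * d (j + 1) := by ring
      refine ⟨?_, hstrong⟩
      rw [Nat.add_sub_cancel]
      by_cases hc : ¬ T (j + 1) ∨ T 0
      · refine (hstrong hc).trans (mul_le_mul_of_nonneg_right ?_ hd1)
        exact pow_le_pow_of_le_one h0 h1 (Nat.le_succ j)
      · have hc2 : ¬ T 0 := fun h => hc (Or.inr h)
        by_cases hTj : T j
        · have h3 : d j ≤ κ * d (j + 1) := hg j hjJ (Or.inl hTj)
          have hj1 : 1 ≤ j := by
            rcases Nat.eq_zero_or_pos j with h4 | h4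
            · rw [h4] at hTj; exact absurd hTj hc2
            · exact h4
          calc d 0 ≤ κ ^ (j - 1) * d j := ih1
            _ ≤ κ ^ (j - 1) * (κ * d (j + 1)) := mul_le_mul_of_nonneg_left h3 (pow_nonneg h0 _)
            _ = κ ^ (j - 1 + 1) * d (j + 1) := by ring
            _ = κ ^ j * d (j + 1) := by rw [Nat.sub_add_cancel hj1]
        · exact (ih2 (Or.inl hTj)).trans (mul_le_mul_of_nonneg_left (hm j hjJ) (pow_nonneg h0 _))
  exact (key J le_rfl).1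

theorem asym_bound (c k C0 δ : ℝ) (hc : 0 < c) (hk : 0 ≤ k) (hC : 0 ≤ C0) (hδ : 0 < δ) (s q : ℕ)
    (hq : 1024 * Real.exp (12 * k / c) < q) :
    ∀ᶠ n : ℕ in atTop, ∀ R : ℝ, c * Real.log n ≤ R → ∃ J : ℕ, (s : ℝ) + 6 * J + 4 ≤ R ∧
      ((1024 / (q : ℝ)) ^ q) ^ (J - 1) * ((C0 * (1 + n) ^ k) ^ 2) ^ q < δ := by
  obtain ⟨l, hl⟩ : ∃ l : ℝ, l = Real.log ((q : ℝ) / 1024) := ⟨_, rfl⟩
  have hexp1 : (1 : ℝ) ≤ Real.exp (12 * k / c) := Real.one_le_exp (by positivity)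
  have hq0 : (0 : ℝ) < q := by nlinarith
  have hq1 : 1 ≤ q := by
    rcases Nat.eq_zero_or_pos q with h | h
    · rw [h] at hq0; simp at hq0
    · exact h
  have hl1 : 12 * k / c < l := by
    rw [hl, Real.lt_log_iff_exp_lt (by positivity), lt_div_iff₀ (by norm_num)]
    linarith
  have hl0 : 0 ≤ l := le_trans (by positivity) hl1.le
  have hexpl : Real.exp (-l) = 1024 / (q : ℝ) := by
    rw [Real.exp_neg, hl, Real.exp_log (by positivity), inv_div]
  obtain ⟨e, he⟩ : ∃ e : ℝ, e = l * c / 6 - 2 * k := ⟨_, rfl⟩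
  have he0 : 0 < e := by
    rw [div_lt_iff₀ hc] at hl1
    rw [he]; linarith
  obtain ⟨K, hK⟩ : ∃ K : ℝ, K = C0 ^ 2 * Real.exp (2 * k * Real.log 2 + l * (s + 16) / 6) := ⟨_, rfl⟩
  have hlog : Tendsto (fun n : ℕ => Real.log n) atTop atTop :=
    Real.tendsto_log_atTop.comp tendsto_natCast_atTop_atTop
  have hlim : Tendsto (fun n : ℕ => K * Real.exp (-(e * Real.log n))) atTop (nhds 0) := by
    have h1 : Tendsto (fun n : ℕ => e * Real.log n) atTop atTop := hlog.const_mul_atTop he0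
    have h2 := (Real.tendsto_exp_neg_atTop_nhds_zero.comp h1).const_mul K
    rw [mul_zero] at h2
    exact h2
  have hev1 : ∀ᶠ n : ℕ in atTop, K * Real.exp (-(e * Real.log n)) < min δ 1 :=
    hlim.eventually_lt_const (lt_min hδ one_pos)
  have hev2 : ∀ᶠ n : ℕ in atTop, ((s : ℝ) + 16) / c ≤ Real.log n := hlog.eventually_ge_atTop _
  filter_upwards [hev1, hev2, eventually_ge_atTop 1] with n hn1 hn2 hn3 R hR
  have hnpos : (0 : ℝ) < n := by exact_mod_cast hn3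
  have hn4 : (s : ℝ) + 16 ≤ c * Real.log n := by
    rw [div_le_iff₀ hc] at hn2; linarith
  obtain ⟨J, hJ⟩ : ∃ J : ℕ, J = ⌊(c * Real.log n - s - 4) / 6⌋₊ := ⟨_, rfl⟩
  have hJ1 : (J : ℝ) ≤ (c * Real.log n - s - 4) / 6 := by
    rw [hJ]; exact Nat.floor_le (by linarith)
  have hJ2 : (c * Real.log n - s - 4) / 6 < (J : ℝ) + 1 := by
    rw [hJ]; exact Nat.lt_floor_add_one _
  have hJ3 : 1 ≤ J := by
    have h2 : (0 : ℝ) < J := by linarith
    exact_mod_cast h2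
  have hJ4 : ((J - 1 : ℕ) : ℝ) = (J : ℝ) - 1 := by
    rw [Nat.cast_sub hJ3, Nat.cast_one]
  refine ⟨J, by linarith, ?_⟩
  obtain ⟨B, hB⟩ : ∃ B : ℝ, B = (1024 / (q : ℝ)) ^ (J - 1) * (C0 * (1 + (n : ℝ)) ^ k) ^ 2 := ⟨_, rfl⟩
  have hB0 : 0 ≤ B := by rw [hB]; positivity
  have hB1 : B ≤ K * Real.exp (-(e * Real.log n)) := by
    have h1 : (1024 / (q : ℝ)) ^ (J - 1) ≤ Real.exp (l * (s + 16) / 6 - l * c * Real.log n / 6) := by
      rw [← hexpl, ← Real.exp_nat_mul, hJ4]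
      apply Real.exp_le_exp.2
      have h2 : (c * Real.log n - s - 16) / 6 ≤ (J : ℝ) - 1 := by linarith
      have h3 := mul_le_mul_of_nonneg_left h2 hl0
      linarith
    have h4 : (1 + (n : ℝ)) ^ k ≤ Real.exp (k * Real.log 2 + k * Real.log n) := by
      have h5 : (1 + (n : ℝ)) ^ k ≤ (2 * (n : ℝ)) ^ k := by
        refine Real.rpow_le_rpow (by positivity) ?_ hk
        have h6 : (1 : ℝ) ≤ n := by exact_mod_cast hn3
        linarith
      refine h5.trans (le_of_eq ?_)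
      rw [Real.rpow_def_of_pos (by positivity), Real.log_mul (by norm_num) hnpos.ne']
      congr 1; ring
    have h7 : (C0 * (1 + (n : ℝ)) ^ k) ^ 2 ≤ C0 ^ 2 * Real.exp (2 * k * Real.log 2 + 2 * k * Real.log n) := by
      have h8 : C0 * (1 + (n : ℝ)) ^ k ≤ C0 * Real.exp (k * Real.log 2 + k * Real.log n) :=
        mul_le_mul_of_nonneg_left h4 hC
      have h9 := pow_le_pow_left₀ (by positivity) h8 2
      refine h9.trans (le_of_eq ?_)
      rw [mul_pow, ← Real.exp_nat_mul]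
      congr 2; push_cast; ring
    rw [hB]
    refine (mul_le_mul h1 h7 (by positivity) (Real.exp_pos _).le).trans (le_of_eq ?_)
    rw [hK, he]
    have h10 : ∀ a b c d : ℝ, a + b = c + d → Real.exp a * (C0 ^ 2 * Real.exp b) = C0 ^ 2 * Real.exp c * Real.exp d := by
      intro a b c d h
      rw [mul_left_comm, ← Real.exp_add, h, Real.exp_add]; ring
    apply h10
    ring
  have hB2 : B < min δ 1 := lt_of_le_of_lt hB1 hn1
  have hB3 : B < δ := hB2.trans_le (min_le_left _ _)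
  have hB4 : B ≤ 1 := (hB2.trans_le (min_le_right _ _)).le
  have hB5 : ((1024 / (q : ℝ)) ^ q) ^ (J - 1) * ((C0 * (1 + (n : ℝ)) ^ k) ^ 2) ^ q = B ^ q := by
    rw [hB, mul_pow ((1024 / (q : ℝ)) ^ (J - 1)), ← pow_mul, ← pow_mul (1024 / (q : ℝ)) (J - 1), mul_comm q (J - 1)]
  rw [hB5]
  exact lt_of_le_of_lt (pow_le_of_le_one hB0 hB4 (by omega)) hB3

end UIPQ.D
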