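import Mathlib

/-!
# D/ChainL: oscillation along a chain (pure)

PROOF. Let `G` be the simple graph on `α` with `a ~ b` iff `a ≠ b`, `a, b ∈ Δ` and (`rel a b` or `rel b a`)
(`SimpleGraph.fromRel` or by hand). From the hypothesis `x` and `y` are reachable in `G` (induction on `ReflTransGen`; skip steps with `a = b`).
Take a path `p` from `x` to `y` (`SimpleGraph.Walk.toPath`, support `Nodup`, all its points in `Δ` if `x ∈ Δ`). By induction on a walk
`p : G.Walk a b`: `|u a - u b| + ρ a ≤ 2 * (sum of ρ over p.support)`: nil: `ρ a ≤ 2 ρ a`; cons `a ~ a'`: `|u a - u b| ≤ ρ a + ρ a' + |u a' - u b|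
≤ ρ a + 2 * (tail sum)`, so `|u a - u b| + ρ a ≤ 2 ρ a + 2 (tail sum)`. Finally the sum over the nodup list is the sum over a finset contained in
`Δ`, at most `∑ᶠ z ∈ Δ, ρ z` since `ρ ≥ 0`.
-/

namespace UIPQ.D

theorem chain_le {α : Type} {Δ : Set α} (hΔ : Δ.Finite) (rel : α → α → Prop) (u ρ : α → ℝ)
    (hρ : ∀ x, 0 ≤ ρ x) (hrel : ∀ x y, rel x y → x ∈ Δ → y ∈ Δ → |u x - u y| ≤ ρ x + ρ y)
    {x y : α} (hx : x ∈ Δ)
    (hxy : Relation.ReflTransGen (fun a b => a ∈ Δ ∧ b ∈ Δ ∧ rel a b) x y) :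
    |u x - u y| ≤ 2 * ∑ᶠ z ∈ Δ, ρ z := by
  classical
  let G : SimpleGraph α := SimpleGraph.fromRel (fun a b => a ∈ Δ ∧ b ∈ Δ ∧ rel a b)
  have hadj : ∀ a b, G.Adj a b → a ∈ Δ ∧ b ∈ Δ ∧ |u a - u b| ≤ ρ a + ρ b := by
    intro a b hab
    rcases hab.2 with ⟨h1, h2, h3⟩ | ⟨h1, h2, h3⟩
    · exact ⟨h1, h2, hrel a b h3 h1 h2⟩
    · refine ⟨h2, h1, ?_⟩
      have := hrel b a h3 h1 h2
      rw [abs_sub_comm]
      linarith
  have hreach : G.Reachable x y := by
    clear hadj
    induction hxy with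
    | refl => exact SimpleGraph.Reachable.refl _
    | @tail b c _ h ih =>
      by_cases hbc : b = c
      · subst hbc; exact ih
      · exact ih.trans (SimpleGraph.Adj.reachable ⟨hbc, Or.inl h⟩)
  have claim1 : ∀ {a b : α} (p : G.Walk a b), |u a - u b| + ρ a ≤ 2 * (p.support.map ρ).sum := by
    intro a b p
    induction p with
    | @nil a =>
      have := hρ a
      simp only [sub_self, abs_zero, SimpleGraph.Walk.support_nil, List.map_cons, List.map_nil,
        List.sum_cons, List.sum_nil]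
      linarith
    | @cons a c b h p ih =>
      have h1 := (hadj a c h).2.2
      have h2 : |u a - u b| ≤ |u a - u c| + |u c - u b| := abs_sub_le _ _ _
      simp only [SimpleGraph.Walk.support_cons, List.map_cons, List.sum_cons]
      linarith
  have claim2 : ∀ {a b : α} (p : G.Walk a b), a ∈ Δ → ∀ z ∈ p.support, z ∈ Δ := by
    intro a b p
    induction p with
    | nil =>
      intro ha z hz
      simp only [SimpleGraph.Walk.support_nil, List.mem_singleton] at hz
      rw [hz]; exact ha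
    | @cons a c b h p ih =>
      intro ha z hz
      simp only [SimpleGraph.Walk.support_cons, List.mem_cons] at hz
      rcases hz with rfl | hz
      · exact ha
      · exact ih (hadj _ _ h).2.1 z hz
  obtain ⟨p⟩ := hreach
  obtain ⟨q, hq⟩ := p.toPath
  have h1 := claim1 q
  have h2 : (q.support.map ρ).sum ≤ ∑ᶠ z ∈ Δ, ρ z := by
    rw [← List.sum_toFinset ρ hq.support_nodup, finsum_mem_eq_finite_toFinset_sum _ hΔ]
    refine Finset.sum_le_sum_of_subset_of_nonneg ?_ fun i _ _ => hρ i
    intro z hz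
    rw [Set.Finite.mem_toFinset]
    exact claim2 q hx z (List.mem_toFinset.1 hz)
  have h3 := hρ x
  linarith

end UIPQ.D
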