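import Pool.Agent.Lib.UIPQ.D.PotC
import Pool.Agent.Lib.UIPQ.D.EDForm

/-!
# D/Coarea: a good level in `[a, a+1)`

PROOF. Let `A` be the finite set of darts `x` with `min (h x) (h (k x)) < a + 1` and `a < max (h x) (h (k x))`... simply: `A` = the darts `x` with
`x ∈ Cr h t` for some `t ∈ [a, a+1)`; it is finite (contained in `{h < R}` or `k` of it), `A ⊇ Cr h t` for these `t`.
For `t ∈ [a,a+1)`: `L h t u = 2 ∑_{x ∈ A} 1[x ∈ Cr h t] ρ x`. The set of `t ∈ [a,a+1)` with `x ∈ Cr h t` is the interval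
`[min, max) ∩ [a, a+1)` (with `min = min (h x) (h (k x))`), of length `|clip a (a+1) (h (k x)) - clip a (a+1) (h x)| = |d g x|`, `g = clip a (a+1) ∘ h`.
So `∫_{[a,a+1)} L h t u dt = 2 ∑_{x ∈ A} ρ x * |d g x| ≤ 2 (∑_A ρ^2)^(1/2) (∑_A (d g)^2)^(1/2)` and `∑ (d g)^2 ≤ 2` by `P.clipE`.
`ρ x ^ 2 ≤ 4 ∑_{i<4} (d u (f^i x))^2`. For each `i` the map `x ↦ f^i x` is injective and maps `A` into the darts `y` with `y, k y ∈ dn h (a+3)`:
the four darts `x, f x, f f x, f f f x` start at the four corners `v_0, v_1, v_2, v_3` of the face, `h (k (f^i x)) = h (f^(i+1) x)` (`rinv_k`,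
`h4`), consecutive corners have `|difference of h| ≤ 1` (`lip`); `v_0` or `v_1` has `h < a + 1`, so all have `h < a + 3`. By `sum_sq_le_ED` (four times):
`∑_A ρ^2 ≤ 4 * 4 * 2 * ED = 32 ED`, so the integral is `≤ 2 sqrt(32 ED) sqrt 2 = 16 sqrt ED`, `ED = ED (dn h (a+3)) u u`.
Hence some `t` in `[a,a+1)` has `L h t u ≤ 16 sqrt ED` (otherwise the integral over an interval of length one would be larger:
e.g. `MeasureTheory.exists_le_setAverage`, or by contradiction: finitely many values).
-/

namespace UIPQ.D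

variable {X : Type} {m : CMap X} {x₀ : X} {R : ℝ} {h : X → ℝ}


private theorem clip_len (a p q : ℝ) :
    max (min (max p q) (a + 1) - max (min p q) a) 0 ≤
      |clip a (a + 1) q - clip a (a + 1) p| := by
  unfold clip
  rcases le_total p q with hpq | hpq
  · rw [max_eq_right hpq, min_eq_left hpq]
    apply max_le _ (abs_nonneg _)
    rcases le_total q (a + 1) with h1 | h1
    · rw [min_eq_left h1, min_eq_right h1, min_eq_right (hpq.trans h1)]
      rcases le_total a q with h2 | h2
      · rw [max_eq_right h2, max_comm p a]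
        exact le_abs_self _
      · refine le_trans ?_ (abs_nonneg _)
        have := le_max_right p a
        linarith
    · rw [min_eq_right h1, min_eq_left h1, max_eq_right (by linarith : a ≤ a + 1)]
      rcases le_total p (a + 1) with h2 | h2
      · rw [min_eq_right h2, max_comm p a]
        exact le_abs_self _
      · refine le_trans ?_ (abs_nonneg _)
        have := le_max_left p a
        linarith
  · rw [max_eq_left hpq, min_eq_right hpq, abs_sub_comm]
    apply max_le _ (abs_nonneg _)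
    rcases le_total p (a + 1) with h1 | h1
    · rw [min_eq_left h1, min_eq_right h1, min_eq_right (hpq.trans h1)]
      rcases le_total a p with h2 | h2
      · rw [max_eq_right h2, max_comm q a]
        exact le_abs_self _
      · refine le_trans ?_ (abs_nonneg _)
        have := le_max_right q a
        linarith
    · rw [min_eq_right h1, min_eq_left h1, max_eq_right (by linarith : a ≤ a + 1)]
      rcases le_total q (a + 1) with h2 | h2
      · rw [min_eq_right h2, max_comm q a]
        exact le_abs_self _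
      · refine le_trans ?_ (abs_nonneg _)
        have := le_max_left q a
        linarith

private theorem mem_Cr_iff (m : CMap X) (h : X → ℝ) (t : ℝ) (x : X) :
    x ∈ m.Cr h t ↔ t ∈ Set.Ico (min (h x) (h (m.k x))) (max (h x) (h (m.k x))) := by
  unfold CMap.Cr up
  simp only [Set.mem_ofPred_eq, Set.mem_Ico, min_le_iff, lt_max_iff]
  constructor
  · intro hn
    by_cases h1 : t < h x
    · by_cases h2 : t < h (m.k x)
      · exact absurd (iff_of_true h1 h2) hn
      · exact ⟨Or.inr (not_lt.mp h2), Or.inl h1⟩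
    · by_cases h2 : t < h (m.k x)
      · exact ⟨Or.inl (not_lt.mp h1), Or.inr h2⟩
      · exact absurd (iff_of_false h1 h2) hn
  · rintro ⟨h1, h2⟩ hiff
    rcases h1 with h1 | h1
    · rcases h2 with h2 | h2
      · exact absurd h2 (not_lt.mpr h1)
      · exact absurd (hiff.mpr h2) (not_lt.mpr h1)
    · rcases h2 with h2 | h2
      · exact absurd (hiff.mp h2) (not_lt.mpr h1)
      · exact absurd h2 (not_lt.mpr h1)

private theorem exists_level (A : Finset X) (ρ : X → ℝ) (hρ : ∀ x, 0 ≤ ρ x) (p q : X → ℝ)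
    (a : ℝ) : ∃ t ∈ Set.Ico a (a + 1),
      ∑ x ∈ A, (Set.Ico (min (p x) (q x)) (max (p x) (q x))).indicator (fun _ => ρ x) t ≤
      ∑ x ∈ A, ρ x * |clip a (a + 1) (q x) - clip a (a + 1) (p x)| := by
  have hvol : MeasureTheory.volume (Set.Ico a (a + 1)) = 1 := by
    rw [Real.volume_Ico, add_sub_cancel_left, ENNReal.ofReal_one]
  have hint : ∀ x ∈ A, MeasureTheory.Integrable
      (fun t => (Set.Ico (min (p x) (q x)) (max (p x) (q x))).indicator (fun _ => ρ x) t)
      (MeasureTheory.volume.restrict (Set.Ico a (a + 1))) := by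
    intro x _
    have hfin : MeasureTheory.IsFiniteMeasure
        (MeasureTheory.volume.restrict (Set.Ico a (a + 1))) := by
      constructor
      rw [MeasureTheory.Measure.restrict_apply_univ, hvol]
      exact ENNReal.one_lt_top
    exact (MeasureTheory.integrable_const (ρ x)).indicator measurableSet_Ico
  obtain ⟨t, ht, hle⟩ := MeasureTheory.exists_le_setAverage
    (μ := MeasureTheory.volume) (s := Set.Ico a (a + 1))
    (f := fun t => ∑ x ∈ A,
      (Set.Ico (min (p x) (q x)) (max (p x) (q x))).indicator (fun _ => ρ x) t)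
    (by rw [hvol]; exact one_ne_zero) (by rw [hvol]; exact ENNReal.one_ne_top)
    (MeasureTheory.integrable_finsetSum _ hint)
  refine ⟨t, ht, hle.trans ?_⟩
  rw [MeasureTheory.setAverage_eq, MeasureTheory.measureReal_def, hvol, ENNReal.toReal_one,
    inv_one, one_smul, MeasureTheory.integral_finsetSum _ hint]
  apply Finset.sum_le_sum
  intro x _
  rw [MeasureTheory.integral_indicator_const _ measurableSet_Ico, smul_eq_mul, mul_comm]
  apply mul_le_mul_of_nonneg_left _ (hρ x)
  rw [MeasureTheory.measureReal_def, MeasureTheory.Measure.restrict_apply measurableSet_Ico,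
    Set.Ico_inter_Ico, Real.volume_Ico, ENNReal.toReal_ofReal']
  exact clip_len a (p x) (q x)

theorem coarea (h4 : ∀ x, m.f (m.f (m.f (m.f x))) = x) (P : m.Pot x₀ R h) {a : ℝ} (ha : 0 ≤ a)
    (haR : a + 3 < R) {u : X → ℝ} (hu : m.RInv u) :
    ∃ t, a ≤ t ∧ t < a + 1 ∧ m.L h t u ≤ 16 * Real.sqrt (m.ED (dn h (a + 3)) u u) := by
  classical
  have hDfin : (dn h (a + 3)).Finite := Pot.dn_finite P haR
  have hA0 : {x | h x < a + 1}.Finite := by
    refine P.fin.subset ?_
    intro x hx
    have hx' : h x < a + 1 := hx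
    change h x < R
    linarith
  have hA1 : ({x | h x < a + 1} ∪ m.k ⁻¹' {x | h x < a + 1}).Finite :=
    hA0.union (hA0.preimage m.k.injective.injOn)
  obtain ⟨A, hA⟩ : ∃ A : Finset X, ∀ x, x ∈ A ↔ (h x < a + 1 ∨ h (m.k x) < a + 1) := by
    refine ⟨hA1.toFinset, fun x => ?_⟩
    rw [Set.Finite.mem_toFinset]
    rfl
  have hρ : ∀ x, 0 ≤ m.rho u x := by
    intro x
    unfold CMap.rho
    positivity
  obtain ⟨t, ht, hle⟩ := exists_level A (m.rho u) hρ h (fun x => h (m.k x)) a
  refine ⟨t, ht.1, ht.2, ?_⟩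
  -- the value of `L`
  have hL : m.L h t u = 2 * ∑ x ∈ A,
      (Set.Ico (min (h x) (h (m.k x))) (max (h x) (h (m.k x)))).indicator
        (fun _ => m.rho u x) t := by
    unfold CMap.L
    congr 1
    rw [finsum_mem_def, finsum_eq_sum_of_support_subset (s := A)]
    · apply Finset.sum_congr rfl
      intro x _
      by_cases hx : x ∈ m.Cr h t
      · rw [Set.indicator_of_mem hx, Set.indicator_of_mem ((mem_Cr_iff m h t x).mp hx)]
      · rw [Set.indicator_of_notMem hx,
          Set.indicator_of_notMem (fun h' => hx ((mem_Cr_iff m h t x).mpr h'))]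
    · intro x hx
      rw [Function.mem_support] at hx
      have hxC : x ∈ m.Cr h t := by
        by_contra hn
        exact hx (Set.indicator_of_notMem hn _)
      have h1 := ((mem_Cr_iff m h t x).mp hxC).1
      rw [Finset.mem_coe, hA]
      rcases min_le_iff.mp h1 with h2 | h2
      · left; linarith [ht.2]
      · right; linarith [ht.2]
  -- Cauchy-Schwarz
  have hCS : ∑ x ∈ A, m.rho u x * |clip a (a + 1) (h (m.k x)) - clip a (a + 1) (h x)| ≤
      Real.sqrt (∑ x ∈ A, (m.rho u x) ^ 2) *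
        Real.sqrt (∑ x ∈ A, |clip a (a + 1) (h (m.k x)) - clip a (a + 1) (h x)| ^ 2) :=
    Real.sum_mul_le_sqrt_mul_sqrt A _ _
  have hG : ∑ x ∈ A, |clip a (a + 1) (h (m.k x)) - clip a (a + 1) (h x)| ^ 2 ≤ 2 := by
    have h1 := P.clipE a (a + 1) ha (by linarith) (by linarith)
    rw [finsum_eq_sum_of_support_subset (s := A)] at h1
    · have h2 : ∑ x ∈ A, |clip a (a + 1) (h (m.k x)) - clip a (a + 1) (h x)| ^ 2 =
          ∑ x ∈ A, (m.d (fun y => clip a (a + 1) (h y)) x) ^ 2 := by
        apply Finset.sum_congr rfl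
        intro x _
        rw [sq_abs]
        rfl
      rw [h2]
      linarith
    · intro x hx
      rw [Function.mem_support] at hx
      rw [Finset.mem_coe, hA]
      by_contra hn
      rw [not_or, not_lt, not_lt] at hn
      apply hx
      have e1 : clip a (a + 1) (h x) = a + 1 := by
        unfold clip
        rw [min_eq_left hn.1, max_eq_right (by linarith)]
      have e2 : clip a (a + 1) (h (m.k x)) = a + 1 := by
        unfold clip
        rw [min_eq_left hn.2, max_eq_right (by linarith)]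
      change (clip a (a + 1) (h (m.k x)) - clip a (a + 1) (h x)) ^ 2 = 0
      rw [e1, e2, sub_self]
      norm_num
  have hED := ED_nonneg m (dn h (a + 3)) u
  -- the four sides
  have hlip : ∀ y, h (m.f y) ≤ h y + 1 ∧ h y ≤ h (m.f y) + 1 := by
    intro y
    have h1 := P.lip y
    unfold CMap.d at h1
    rw [rinv_k P.rinv] at h1
    rw [abs_le] at h1
    constructor <;> linarith [h1.1, h1.2]
  have hcorner : ∀ x ∈ A, h x ≤ a + 3 ∧ h (m.f x) ≤ a + 3 ∧ h (m.f (m.f x)) ≤ a + 3 ∧
      h (m.f (m.f (m.f x))) ≤ a + 3 := by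
    intro x hx
    have h0 := hlip x
    have h1 := hlip (m.f x)
    have h2 := hlip (m.f (m.f x))
    have h3 := hlip (m.f (m.f (m.f x)))
    rw [h4 x] at h3
    rw [hA, rinv_k P.rinv] at hx
    rcases hx with hx | hx
    · refine ⟨by linarith, by linarith [h0.1], by linarith [h0.1, h1.1], by linarith [h3.2]⟩
    · refine ⟨by linarith [h0.2], by linarith, by linarith [h1.1], by linarith [h1.1, h2.1]⟩
  have hin : ∀ x ∈ A, (x ∈ dn h (a + 3) ∧ m.k x ∈ dn h (a + 3)) ∧
      (m.f x ∈ dn h (a + 3) ∧ m.k (m.f x) ∈ dn h (a + 3)) ∧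
      (m.f (m.f x) ∈ dn h (a + 3) ∧ m.k (m.f (m.f x)) ∈ dn h (a + 3)) ∧
      (m.f (m.f (m.f x)) ∈ dn h (a + 3) ∧ m.k (m.f (m.f (m.f x))) ∈ dn h (a + 3)) := by
    intro x hx
    obtain ⟨c0, c1, c2, c3⟩ := hcorner x hx
    unfold dn
    simp only [Set.mem_ofPred_eq]
    rw [rinv_k P.rinv x, rinv_k P.rinv (m.f x), rinv_k P.rinv (m.f (m.f x)),
      rinv_k P.rinv (m.f (m.f (m.f x))), h4 x]
    exact ⟨⟨c0, c1⟩, ⟨c1, c2⟩, ⟨c2, c3⟩, ⟨c3, c0⟩⟩
  have hfi : Function.Injective m.f := m.f.injective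
  have s0 := sum_sq_le_ED (u := u) (m := m) hDfin A (fun x => x) (fun _ _ _ _ e => e)
    (fun x hx => (hin x hx).1)
  have s1 := sum_sq_le_ED (u := u) (m := m) hDfin A (fun x => m.f x) (fun _ _ _ _ e => hfi e)
    (fun x hx => (hin x hx).2.1)
  have s2 := sum_sq_le_ED (u := u) (m := m) hDfin A (fun x => m.f (m.f x))
    (fun _ _ _ _ e => hfi (hfi e)) (fun x hx => (hin x hx).2.2.1)
  have s3 := sum_sq_le_ED (u := u) (m := m) hDfin A (fun x => m.f (m.f (m.f x)))
    (fun _ _ _ _ e => hfi (hfi (hfi e))) (fun x hx => (hin x hx).2.2.2)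
  have hR : ∑ x ∈ A, (m.rho u x) ^ 2 ≤ 32 * m.ED (dn h (a + 3)) u u := by
    have h1 : ∑ x ∈ A, (m.rho u x) ^ 2 ≤ ∑ x ∈ A, 4 * ((m.d u x) ^ 2 + (m.d u (m.f x)) ^ 2 +
        (m.d u (m.f (m.f x))) ^ 2 + (m.d u (m.f (m.f (m.f x)))) ^ 2) := by
      apply Finset.sum_le_sum
      intro x _
      unfold CMap.rho
      rw [← sq_abs (m.d u x), ← sq_abs (m.d u (m.f x)), ← sq_abs (m.d u (m.f (m.f x))),
        ← sq_abs (m.d u (m.f (m.f (m.f x))))]
      generalize |m.d u x| = α
      generalize |m.d u (m.f x)| = β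
      generalize |m.d u (m.f (m.f x))| = γ
      generalize |m.d u (m.f (m.f (m.f x)))| = δ
      nlinarith [sq_nonneg (α - β), sq_nonneg (α - γ), sq_nonneg (α - δ), sq_nonneg (β - γ),
        sq_nonneg (β - δ), sq_nonneg (γ - δ)]
    rw [← Finset.mul_sum, Finset.sum_add_distrib, Finset.sum_add_distrib,
      Finset.sum_add_distrib] at h1
    linarith
  rw [hL]
  calc 2 * ∑ x ∈ A, (Set.Ico (min (h x) (h (m.k x))) (max (h x) (h (m.k x)))).indicator
        (fun _ => m.rho u x) t
      ≤ 2 * (Real.sqrt (∑ x ∈ A, (m.rho u x) ^ 2) *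
        Real.sqrt (∑ x ∈ A, |clip a (a + 1) (h (m.k x)) - clip a (a + 1) (h x)| ^ 2)) := by
        linarith [hle.trans hCS]
    _ ≤ 2 * (Real.sqrt (32 * m.ED (dn h (a + 3)) u u) * Real.sqrt 2) := by
        have h1 := Real.sqrt_le_sqrt hR
        have h2 := Real.sqrt_le_sqrt hG
        have h3 := mul_le_mul h1 h2 (Real.sqrt_nonneg _) (Real.sqrt_nonneg _)
        linarith
    _ = 16 * Real.sqrt (m.ED (dn h (a + 3)) u u) := by
        rw [← Real.sqrt_mul (by positivity), show 32 * m.ED (dn h (a + 3)) u u * 2 =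
          8 ^ 2 * m.ED (dn h (a + 3)) u u by ring, Real.sqrt_mul (by positivity),
          Real.sqrt_sq (by norm_num)]
        ring

end UIPQ.D
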