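import Pool.Agent.Lib.UIPQ.D.Basic

/-!
# D/CutConn: the boundary of a bond is connected through the faces

PROOF. `Rel a b` := the relation of the statement (inside `Bd K`). `Bd K` is closed under `k` (`k (k x) = x`). Let `F1 = {z | ReflTransGen Rel x z}`,
`F1 ⊆ Bd K` (as `x ∈ Bd K`). `F1` is closed under: `z ∈ F1 → k z ∈ F1` (and conversely, `k` is an involution), and: if `z ∈ F1` and `f z` (or `f f z`,
or `f f f z`) is in `Bd K` then it is in `F1`; since `f f f f z = z` (`h4`), for `w = z, f z, f f z, f f f z`: if one of the four is in `F1` then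
`F1` and `Bd K` contain the same ones of the four. Let `G = 1_{F1} : X → ZMod 2`: finite support, `G (k z) = G z`. Face sums: if none of the four
darts is in `F1` the sum is `0`. Otherwise it is the sum of `1_{Bd K}` over the four, and `1_{Bd K}(z) = κ z + κ (k z)` with `κ = 1_K`
(in `ZMod 2`), `κ (k z) = κ (r (k z)) = κ (f z)` (`K` is a set of vertices): the sum of `κ z + κ (f z)` over the four darts is
`2 (...) + κ (f f f f z) + ...= 0`. So `PL` gives `c` with `c (r z) = c z`, `G z = c z + c (k z)`. If `z ∉ F1` then `c (k z) = c z`. In particular for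
`z, k z ∈ K` or `z, k z ∉ K` (then `z ∉ Bd K`). By `const_of_joined` `c` is constant on `K` and constant on `Kᶜ`. So `c z + c (k z)` is the same for
all `z ∈ Bd K` (one end in `K`, the other in `Kᶜ`); at `x ∈ F1` it is `1`; so at `y` it is `1`: `G y = 1`, `y ∈ F1`.
-/

namespace UIPQ.D

variable {X : Type} {m : CMap X}

theorem cut_conn (h4 : ∀ x, m.f (m.f (m.f (m.f x))) = x) (hPL : m.PL) {K : Set X} (hK : m.VSet K)
    (hKc : ∀ x ∈ K, ∀ y ∈ K, m.Joined K x y) (hKc' : ∀ x ∈ Kᶜ, ∀ y ∈ Kᶜ, m.Joined Kᶜ x y)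
    (hfin : (m.Bd K).Finite) {x y : X} (hx : x ∈ m.Bd K) (hy : y ∈ m.Bd K) :
    Relation.ReflTransGen (fun a b => a ∈ m.Bd K ∧ b ∈ m.Bd K ∧
      (b = m.k a ∨ b = m.f a ∨ b = m.f (m.f a) ∨ b = m.f (m.f (m.f a)))) x y := by
  classical
  set Rel : X → X → Prop := fun a b => a ∈ m.Bd K ∧ b ∈ m.Bd K ∧
      (b = m.k a ∨ b = m.f a ∨ b = m.f (m.f a) ∨ b = m.f (m.f (m.f a))) with hRel
  set F1 : Set X := {z | Relation.ReflTransGen Rel x z} with hF1
  have hsub : ∀ z, z ∈ F1 → z ∈ m.Bd K := by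
    intro z hz
    rcases Relation.ReflTransGen.cases_tail hz with h | ⟨w, _, h⟩
    · rw [h]
      exact hx
    · exact h.2.1
  have hstep : ∀ z w, z ∈ F1 → w ∈ m.Bd K →
      (w = m.k z ∨ w = m.f z ∨ w = m.f (m.f z) ∨ w = m.f (m.f (m.f z))) → w ∈ F1 := by
    intro z w hz hw h
    exact Relation.ReflTransGen.tail hz ⟨hsub z hz, hw, h⟩
  have hBk : ∀ z, z ∈ m.Bd K → m.k z ∈ m.Bd K := by
    intro z hz
    simp only [CMap.Bd, Set.mem_setOf_eq, m.k_k] at hz ⊢
    tauto
  have hFk : ∀ z, m.k z ∈ F1 ↔ z ∈ F1 := by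
    intro z
    constructor
    · intro h
      have := hstep (m.k z) (m.k (m.k z)) h (hBk _ (hsub _ h)) (Or.inl rfl)
      rwa [m.k_k] at this
    · intro h
      exact hstep z (m.k z) h (hBk _ (hsub _ h)) (Or.inl rfl)
  set κ : X → ZMod 2 := fun z => if z ∈ K then 1 else 0 with hκ
  set G : X → ZMod 2 := fun z => if z ∈ F1 then 1 else 0 with hG
  have h2 : ∀ a : ZMod 2, a + a = 0 := by decide
  have hκk : ∀ z, κ (m.k z) = κ (m.f z) := by
    intro z
    simp only [hκ, CMap.f_apply]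
    rw [if_congr (hK (m.k z)).symm rfl rfl]
  have hβ : ∀ z, (if z ∈ m.Bd K then (1 : ZMod 2) else 0) = κ z + κ (m.k z) := by
    intro z
    simp only [hκ, CMap.Bd, Set.mem_setOf_eq]
    by_cases h1 : z ∈ K <;> by_cases h3 : m.k z ∈ K <;> simp [h1, h3, h2]
  have hcl : ∀ w' w, w' ∈ F1 → (w = w' ∨ w = m.f w' ∨ w = m.f (m.f w') ∨ w = m.f (m.f (m.f w'))) →
      G w = κ w + κ (m.f w) := by
    intro w' w hw' h
    rw [← hκk, ← hβ]
    simp only [hG]
    refine if_congr ⟨hsub w, fun hw => ?_⟩ rfl rfl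
    rcases h with h | h
    · rw [h]
      exact hw'
    · exact hstep w' w hw' hw (Or.inr h)
  have hcl4 : ∀ z w', w' ∈ F1 → (w' = z ∨ w' = m.f z ∨ w' = m.f (m.f z) ∨ w' = m.f (m.f (m.f z))) →
      G z + G (m.f z) + G (m.f (m.f z)) + G (m.f (m.f (m.f z))) = 0 := by
    intro z w' hw' h
    have e0 : G z = κ z + κ (m.f z) := by
      refine hcl w' z hw' ?_
      rcases h with h | h | h | h <;> rw [h]
      · exact Or.inl rfl
      · exact Or.inr (Or.inr (Or.inr (h4 z).symm))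
      · exact Or.inr (Or.inr (Or.inl (h4 z).symm))
      · exact Or.inr (Or.inl (h4 z).symm)
    have e1 : G (m.f z) = κ (m.f z) + κ (m.f (m.f z)) := by
      refine hcl w' _ hw' ?_
      rcases h with h | h | h | h <;> rw [h]
      · exact Or.inr (Or.inl rfl)
      · exact Or.inl rfl
      · exact Or.inr (Or.inr (Or.inr (by rw [h4])))
      · exact Or.inr (Or.inr (Or.inl (by rw [h4])))
    have e2 : G (m.f (m.f z)) = κ (m.f (m.f z)) + κ (m.f (m.f (m.f z))) := by
      refine hcl w' _ hw' ?_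
      rcases h with h | h | h | h <;> rw [h]
      · exact Or.inr (Or.inr (Or.inl rfl))
      · exact Or.inr (Or.inl rfl)
      · exact Or.inl rfl
      · exact Or.inr (Or.inr (Or.inr (by rw [h4])))
    have e3 : G (m.f (m.f (m.f z))) = κ (m.f (m.f (m.f z))) + κ (m.f (m.f (m.f (m.f z)))) := by
      refine hcl w' _ hw' ?_
      rcases h with h | h | h | h <;> rw [h]
      · exact Or.inr (Or.inr (Or.inr rfl))
      · exact Or.inr (Or.inr (Or.inl rfl))
      · exact Or.inr (Or.inl rfl)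
      · exact Or.inl rfl
    rw [e0, e1, e2, e3, h4]
    have : ∀ a b c d : ZMod 2, a + b + (b + c) + (c + d) + (d + a) = 0 := by decide
    exact this _ _ _ _
  have hface : ∀ z, G z + G (m.f z) + G (m.f (m.f z)) + G (m.f (m.f (m.f z))) = 0 := by
    intro z
    by_cases a0 : z ∈ F1
    · exact hcl4 z z a0 (Or.inl rfl)
    by_cases a1 : m.f z ∈ F1
    · exact hcl4 z _ a1 (Or.inr (Or.inl rfl))
    by_cases a2 : m.f (m.f z) ∈ F1
    · exact hcl4 z _ a2 (Or.inr (Or.inr (Or.inl rfl)))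
    by_cases a3 : m.f (m.f (m.f z)) ∈ F1
    · exact hcl4 z _ a3 (Or.inr (Or.inr (Or.inr rfl)))
    simp only [hG, if_neg a0, if_neg a1, if_neg a2, if_neg a3, add_zero]
  have hGfin : (Function.support G).Finite := by
    refine hfin.subset fun z hz => hsub z ?_
    by_contra hn
    exact hz (by simp only [hG, if_neg hn])
  have hGk : ∀ z, G (m.k z) = G z := by
    intro z
    simp only [hG]
    exact if_congr (hFk z) rfl rfl
  obtain ⟨c, hcr, hc⟩ := hPL G hGfin hGk hface
  have hout : ∀ z, z ∉ m.Bd K → c (m.k z) = c z := by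
    intro z hz
    have h0 : G z = 0 := by
      simp only [hG]
      exact if_neg fun h => hz (hsub z h)
    have h1 := hc z
    rw [h0] at h1
    have : ∀ a b : ZMod 2, 0 = a + b → b = a := by decide
    exact this _ _ h1
  have cK : ∀ a ∈ K, ∀ b ∈ K, c a = c b := by
    intro a ha b hb
    refine const_of_joined c hcr ?_ (hKc a ha b hb)
    intro z hz hkz
    exact hout z fun h => h ⟨fun _ => hkz, fun _ => hz⟩
  have cKc : ∀ a ∈ Kᶜ, ∀ b ∈ Kᶜ, c a = c b := by
    intro a ha b hb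
    refine const_of_joined c hcr ?_ (hKc' a ha b hb)
    intro z hz hkz
    exact hout z fun h => h ⟨fun h' => (hz h').elim, fun h' => (hkz h').elim⟩
  have hcase : ∀ z, z ∈ m.Bd K → (z ∈ K ∧ m.k z ∈ Kᶜ) ∨ (z ∈ Kᶜ ∧ m.k z ∈ K) := by
    intro z hz
    simp only [CMap.Bd, Set.mem_setOf_eq] at hz
    simp only [Set.mem_compl_iff]
    tauto
  have hGx : G x = 1 := by
    simp only [hG]
    exact if_pos Relation.ReflTransGen.refl
  have hGy : G y = G x := by
    rw [hc x, hc y]
    rcases hcase x hx with ⟨x1, x2⟩ | ⟨x1, x2⟩ <;> rcases hcase y hy with ⟨y1, y2⟩ | ⟨y1, y2⟩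
    · rw [cK y y1 x x1, cKc _ y2 _ x2]
    · rw [cKc y y1 _ x2, cK _ y2 _ x1, add_comm]
    · rw [cK y y1 _ x2, cKc _ y2 _ x1, add_comm]
    · rw [cKc y y1 x x1, cK _ y2 _ x2]
  by_contra hn
  have : G y = 0 := by
    simp only [hG]
    exact if_neg hn
  rw [this, hGx] at hGy
  exact absurd hGy (by decide)

end UIPQ.D
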