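import Pool.Agent.Lib.UIPQ.IDefs

/-!
# Part D, definitions: Dirichlet forms on an infinite map, potentials, rings

All functions on the vertices are `r`-invariant functions on the darts (`m.RInv`), all sets of vertices
are `r`-invariant sets of darts (`m.VSet`).
-/

namespace UIPQ

variable {X : Type}

/-- Clipping to the interval `[a, b]`. -/
def clip (a b t : ℝ) : ℝ := max a (min b t)

/-- The set above the level `t`. -/
def up (h : X → ℝ) (t : ℝ) : Set X := {x | t < h x}

/-- The set below the level `t`. -/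
def dn (h : X → ℝ) (t : ℝ) : Set X := {x | h x ≤ t}

/-- The difference of `u` along the dart `x`. -/
def CMap.d (m : CMap X) (u : X → ℝ) (x : X) : ℝ := u (m.k x) - u x

/-- `u` is harmonic at the vertices of `S` (weak form). -/
def CMap.HarmOn (m : CMap X) (S : Set X) (u : X → ℝ) : Prop :=
  ∀ g : X → ℝ, m.RInv g → (Function.support g).Finite → Function.support g ⊆ S →
    ∑ᶠ x, g x * m.d u x = 0

/-- `w` has finitely many nonzero differences. -/
def CMap.DFin (m : CMap X) (w : X → ℝ) : Prop := (Function.support (m.d w)).Finite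

/-- The Dirichlet form `B(u, w)` (half the sum over all darts), used when `m.DFin w`. -/
noncomputable def CMap.B (m : CMap X) (u w : X → ℝ) : ℝ := (∑ᶠ x, m.d u x * m.d w x) / 2

/-- The Dirichlet form of the edges inside `D`, used for finite `D`. -/
noncomputable def CMap.ED (m : CMap X) (D : Set X) (u w : X → ℝ) : ℝ :=
  (∑ᶠ x ∈ {x | x ∈ D ∧ m.k x ∈ D}, m.d u x * m.d w x) / 2

/-- The darts (in both orientations) of the edges between `K` and its complement. -/
def CMap.Bd (m : CMap X) (K : Set X) : Set X := {x | ¬ (x ∈ K ↔ m.k x ∈ K)}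

/-- `u` is harmonic and has no flux to infinity: it is orthogonal to all `w` with finitely many
nonzero differences. -/
def CMap.NoFlux (m : CMap X) (u : X → ℝ) : Prop := ∀ w : X → ℝ, m.RInv w → m.DFin w → m.B u w = 0

/-- There are at least two components above the level `t`. -/
def CMap.Two (m : CMap X) (h : X → ℝ) (t : ℝ) : Prop :=
  ∃ x y, x ∈ up h t ∧ y ∈ up h t ∧ ¬ m.Joined (up h t) x y

/-- The darts of the edges crossing the level `t`. -/
def CMap.Cr (m : CMap X) (h : X → ℝ) (t : ℝ) : Set X := {x | ¬ (x ∈ up h t ↔ m.k x ∈ up h t)}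

/-- The sum of the absolute differences along the face of the dart `x` (faces have four sides). -/
def CMap.rho (m : CMap X) (u : X → ℝ) (x : X) : ℝ :=
  |m.d u x| + |m.d u (m.f x)| + |m.d u (m.f (m.f x))| + |m.d u (m.f (m.f (m.f x)))|

/-- The bound for the oscillation of `u` on a ring at the level `t`. -/
noncomputable def CMap.L (m : CMap X) (h : X → ℝ) (t : ℝ) (u : X → ℝ) : ℝ :=
  2 * ∑ᶠ x ∈ m.Cr h t, m.rho u x

/-- The properties of the potential `h`, `0` at the vertex of `x₀` and `R` far away, normalised by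
total flux one. -/
structure CMap.Pot (m : CMap X) (x₀ : X) (R : ℝ) (h : X → ℝ) : Prop where
  pos : 0 < R
  rinv : m.RInv h
  zero : h x₀ = 0
  nonneg : ∀ x, 0 ≤ h x
  le : ∀ x, h x ≤ R
  fin : {x | h x < R}.Finite
  lip : ∀ x, |m.d h x| ≤ 1
  clipE : ∀ a b, 0 ≤ a → a ≤ b → b ≤ R → ∑ᶠ x, (m.d (fun y => clip a b (h y)) x) ^ 2 ≤ 2 * (b - a)
  conn : ∀ t, 0 ≤ t → t < R → ∀ x ∈ dn h t, m.Joined (dn h t) x₀ x
  inf : ∀ t, 0 ≤ t → t < R → ∀ x ∈ up h t, {w | m.Joined (up h t) x w}.Infinite

end UIPQ
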