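import Mathlib

/-!
# D/DetTr: determinants and traces (pure linear algebra)

PROOFS. `det_le_trace_pow`: `A` positive semidefinite of size `q > 0`: `det A` is the product of the eigenvalues (`≥ 0`), the trace is their sum
(`Matrix.IsHermitian.det_eq_prod_eigenvalues`, `trace_eq_sum_eigenvalues`), AM-GM (`Real.inner_le_nnorm_mul_nnorm` is not needed: use
`Real.geom_mean_le_arith_mean` with weights `1/q`, or `inner_le`...).
`det_le_of_trace`: `B` positive definite: there is an invertible `P` with `Pᵀ B P = 1` (`P = U D^(-1/2)` from the spectral theorem; or the inverse of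
a Cholesky/square root factor: `B = Sᵀ S` with `S` invertible, `P = S⁻¹`). `Pᵀ A P` is positive semidefinite with trace `≤ C`, so
`det (Pᵀ A P) ≤ (C/q)^q`; `det (Pᵀ A P) = (det P)^2 det A` and `1 = (det P)^2 det B`.
`det_mono`: `A ≤ B`: with the same `P`: `Pᵀ A P ≤ 1`, so its trace is at most `q`: `det_le_of_trace` with `C = q`.
-/

namespace UIPQ.D

open Matrix

theorem det_le_trace_pow {q : ℕ} (hq : 0 < q) (A : Matrix (Fin q) (Fin q) ℝ)
    (hA : A.PosSemidef) : A.det ≤ (A.trace / q) ^ q := by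
  have h1 : A.det = ∏ i, hA.1.eigenvalues i := by
    have := hA.1.det_eq_prod_eigenvalues
    simpa using this
  have h2 : A.trace = ∑ i, hA.1.eigenvalues i := by
    have := hA.1.trace_eq_sum_eigenvalues
    simpa using this
  have hnn : ∀ i, 0 ≤ hA.1.eigenvalues i := fun i => hA.eigenvalues_nonneg i
  have hq' : (0 : ℝ) < q := by exact_mod_cast hq
  have h3 := Real.geom_mean_le_arith_mean_weighted (Finset.univ : Finset (Fin q))
    (fun _ => 1 / (q : ℝ)) (fun i => hA.1.eigenvalues i) (fun i _ => by positivity)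
    (by simp [Finset.sum_const]; field_simp) (fun i _ => hnn i)
  have h4 : ∑ i, 1 / (q : ℝ) * hA.1.eigenvalues i = A.trace / q := by
    rw [← Finset.mul_sum, h2]; ring
  rw [h4] at h3
  have h5 : (∏ i, hA.1.eigenvalues i ^ (1 / (q : ℝ))) ^ q = A.det := by
    rw [← Finset.prod_pow, h1]
    refine Finset.prod_congr rfl fun i _ => ?_
    rw [one_div]
    exact Real.rpow_inv_natCast_pow (hnn i) hq.ne'
  rw [← h5]
  exact pow_le_pow_left₀ (Finset.prod_nonneg fun i _ => Real.rpow_nonneg (hnn i) _) h3 q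

open scoped MatrixOrder in
private theorem DetTr_factor {q : ℕ} (B : Matrix (Fin q) (Fin q) ℝ) (hB : B.PosDef) :
    ∃ P : Matrix (Fin q) (Fin q) ℝ, Pᵀ * B * P = 1 := by
  obtain ⟨S, hS⟩ := CStarAlgebra.nonneg_iff_eq_star_mul_self.mp hB.posSemidef.nonneg
  have hS' : B = Sᵀ * S := by
    rw [hS, Matrix.star_eq_conjTranspose, Matrix.conjTranspose_eq_transpose_of_trivial]
  have hdet : S.det ≠ 0 := by
    intro h0
    have h1 := hB.det_pos
    rw [hS', det_mul, det_transpose, h0] at h1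
    simp at h1
  have hu : IsUnit S.det := isUnit_iff_ne_zero.mpr hdet
  refine ⟨S⁻¹, ?_⟩
  rw [hS']
  have e1 : S * S⁻¹ = 1 := Matrix.mul_nonsing_inv S hu
  have e2 : (S⁻¹)ᵀ * Sᵀ = 1 := by
    rw [← transpose_mul, e1, transpose_one]
  calc (S⁻¹)ᵀ * (Sᵀ * S) * S⁻¹ = ((S⁻¹)ᵀ * Sᵀ) * (S * S⁻¹) := by
        simp only [Matrix.mul_assoc]
    _ = 1 := by rw [e1, e2, Matrix.mul_one]

private theorem DetTr_psd {q : ℕ} (A P : Matrix (Fin q) (Fin q) ℝ) (hA : A.PosSemidef) :
    (Pᵀ * A * P).PosSemidef := by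
  have := hA.conjTranspose_mul_mul_same P
  rwa [Matrix.conjTranspose_eq_transpose_of_trivial] at this

theorem det_le_of_trace {q : ℕ} (hq : 0 < q) (A B : Matrix (Fin q) (Fin q) ℝ)
    (hA : A.PosSemidef) (hB : B.PosDef) (C : ℝ)
    (h : ∀ P : Matrix (Fin q) (Fin q) ℝ, Pᵀ * B * P = 1 → (Pᵀ * A * P).trace ≤ C) :
    A.det ≤ (C / q) ^ q * B.det := by
  obtain ⟨P, hP⟩ := DetTr_factor B hB
  have hpsd := DetTr_psd A P hA
  have h1 := det_le_trace_pow hq _ hpsd
  have htr := h P hP
  have hq' : (0 : ℝ) < q := by exact_mod_cast hq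
  have h2 : ((Pᵀ * A * P).trace / q) ^ q ≤ (C / q) ^ q := by
    apply pow_le_pow_left₀
    · exact div_nonneg hpsd.trace_nonneg hq'.le
    · exact div_le_div_of_nonneg_right htr hq'.le
  have h3 : (Pᵀ * A * P).det ≤ (C / q) ^ q := h1.trans h2
  have e1 : (Pᵀ * A * P).det = P.det ^ 2 * A.det := by
    rw [det_mul, det_mul, det_transpose]; ring
  have e2 : P.det ^ 2 * B.det = 1 := by
    have := congrArg Matrix.det hP
    rw [det_mul, det_mul, det_transpose, det_one] at this
    rw [← this]; ring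
  have hBpos := hB.det_pos
  calc A.det = (P.det ^ 2 * A.det) * B.det := by
        rw [mul_right_comm, e2, one_mul]
    _ ≤ (C / q) ^ q * B.det := by
        apply mul_le_mul_of_nonneg_right _ hBpos.le
        rw [← e1]; exact h3

theorem det_mono {q : ℕ} (hq : 0 < q) (A B : Matrix (Fin q) (Fin q) ℝ) (hA : A.PosSemidef)
    (hB : B.PosDef) (h : ∀ c : Fin q → ℝ, c ⬝ᵥ (A *ᵥ c) ≤ c ⬝ᵥ (B *ᵥ c)) : A.det ≤ B.det := by
  have hq' : (0 : ℝ) < q := by exact_mod_cast hq
  have key := det_le_of_trace hq A B hA hB (q : ℝ) (fun P hP => by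
    have hd : ∀ M : Matrix (Fin q) (Fin q) ℝ, ∀ i, (Pᵀ * M * P) i i
        = (fun j => P j i) ⬝ᵥ (M *ᵥ (fun j => P j i)) := by
      intro M i
      rw [Matrix.mul_assoc, Matrix.mul_apply]
      simp only [dotProduct, mulVec, transpose_apply, Matrix.mul_apply]
    calc (Pᵀ * A * P).trace = ∑ i, (Pᵀ * A * P) i i := rfl
      _ ≤ ∑ i, (Pᵀ * B * P) i i := by
          refine Finset.sum_le_sum fun i _ => ?_
          rw [hd, hd]
          exact h _
      _ = (q : ℝ) := by
          rw [hP]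
          simp)
  rw [div_self hq'.ne', one_pow, one_mul] at key
  exact key

end UIPQ.D
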