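import Pool.Agent.Lib.UIPQ.D.BForm

/-!
# D/Dirich: the Dirichlet problem on a finite set

PROOF. `T = {x ∈ S | ¬ SameCycle x₀ x}` is a finite set of vertices. `W` = submodule of `X → ℝ` of the functions which are
`RInv` and vanish off `T`: finite dimensional (it embeds into `T → ℝ` by restriction). The linear map
`A : W → Module.Dual ℝ W`, `A g = (f ↦ ∑ᶠ x, f x * d g x)` (linear in `g` and in `f`: all the sums run over the finite set `T`)
is injective: if `A g = 0`, then with `f = g` and `B_eq`: `B g g = - ∑ g x * d g x = 0`, so `d g = 0` everywhere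
(`d_eq_zero_of_B`), so `g` is constant (`const_of_conn`), and `g = 0` at a point outside `S`: `g = 0`. Both sides have the same
finite dimension (`Subspace.dual_finrank_eq`), so `A` is surjective (`LinearMap.injective_iff_surjective_of_finrank_eq_finrank`).
Let `ψ` be the indicator of the orbit of `x₀` (`RInv`, support inside `S`, finite). There is `g ∈ W` with
`A g = - (f ↦ ∑ᶠ x, f x * d ψ x)`. `φ = ψ + g`: `RInv`, `φ x₀ = 1` (`x₀ ∉ T`), `φ = 0` off `S` (an `x ∉ S` is not in the
orbit of `x₀` since `S` is a set of vertices), and for a test function `f ∈ W`: `∑ f x * d φ x = 0`, i.e. `HarmOn T φ`.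
-/

namespace UIPQ.D

variable {X : Type} {m : CMap X}

/-- the `r`-invariant functions which vanish off `T` -/
private def dirW (m : CMap X) (T : Set X) : Submodule ℝ (X → ℝ) where
  carrier := {g | (∀ x, g (m.r x) = g x) ∧ ∀ x, x ∉ T → g x = 0}
  add_mem' := fun {a b} ha hb =>
    ⟨fun x => by simp only [Pi.add_apply, ha.1 x, hb.1 x],
      fun x hx => by simp only [Pi.add_apply, ha.2 x hx, hb.2 x hx, add_zero]⟩
  zero_mem' := ⟨fun _ => rfl, fun _ _ => rfl⟩
  smul_mem' := fun c {a} ha =>
    ⟨fun x => by simp only [Pi.smul_apply, ha.1 x],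
      fun x hx => by simp only [Pi.smul_apply, ha.2 x hx, smul_zero]⟩

private theorem dirW_fin (m : CMap X) {T : Set X} (hT : T.Finite) :
    FiniteDimensional ℝ (dirW m T) := by
  classical
  have : Finite T := hT
  let R : dirW m T →ₗ[ℝ] (T → ℝ) :=
    { toFun := fun g x => (g : X → ℝ) x
      map_add' := fun _ _ => rfl
      map_smul' := fun _ _ => rfl }
  have hR : Function.Injective R := by
    intro g g' h
    apply Subtype.ext
    funext x
    by_cases hx : x ∈ T
    · exact congrFun h ⟨x, hx⟩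
    · rw [g.2.2 x hx, g'.2.2 x hx]
  exact FiniteDimensional.of_injective R hR

private noncomputable def dirA (m : CMap X) (T : Set X) (T' : Finset X) :
    dirW m T →ₗ[ℝ] Module.Dual ℝ (dirW m T) :=
  LinearMap.mk₂ ℝ (fun g f => ∑ x ∈ T', (f : X → ℝ) x * m.d (g : X → ℝ) x)
    (fun g g' f => by
      rw [← Finset.sum_add_distrib]
      refine Finset.sum_congr rfl fun x _ => ?_
      simp only [CMap.d, Submodule.coe_add, Pi.add_apply]
      ring)
    (fun c g f => by
      rw [smul_eq_mul, Finset.mul_sum]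
      refine Finset.sum_congr rfl fun x _ => ?_
      simp only [CMap.d, Submodule.coe_smul, Pi.smul_apply, smul_eq_mul]
      ring)
    (fun g f f' => by
      rw [← Finset.sum_add_distrib]
      refine Finset.sum_congr rfl fun x _ => ?_
      simp only [Submodule.coe_add, Pi.add_apply]
      ring)
    (fun c g f => by
      rw [smul_eq_mul, Finset.mul_sum]
      refine Finset.sum_congr rfl fun x _ => ?_
      simp only [Submodule.coe_smul, Pi.smul_apply, smul_eq_mul]
      ring)

private noncomputable def dirL (m : CMap X) (T : Set X) (T' : Finset X) (ψ : X → ℝ) :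
    Module.Dual ℝ (dirW m T) where
  toFun := fun f => - ∑ x ∈ T', (f : X → ℝ) x * m.d ψ x
  map_add' := fun f f' => by
    rw [← neg_add, ← Finset.sum_add_distrib]
    congr 1
    refine Finset.sum_congr rfl fun x _ => ?_
    simp only [Submodule.coe_add, Pi.add_apply]
    ring
  map_smul' := fun c f => by
    rw [smul_eq_mul, mul_neg, Finset.mul_sum]
    congr 1
    refine Finset.sum_congr rfl fun x _ => ?_
    simp only [Submodule.coe_smul, Pi.smul_apply, smul_eq_mul, RingHom.id_apply]
    ring

theorem dirichlet (hc : m.Connected) {S : Set X} (hS : S.Finite) (hV : m.VSet S)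
    (hne : ∃ y, y ∉ S) {x₀ : X} (hx₀ : x₀ ∈ S) :
    ∃ φ : X → ℝ, m.RInv φ ∧ φ x₀ = 1 ∧ (∀ x, x ∉ S → φ x = 0) ∧
      m.HarmOn {x | x ∈ S ∧ ¬ m.r.SameCycle x₀ x} φ := by
  classical
  set T : Set X := {x | x ∈ S ∧ ¬ m.r.SameCycle x₀ x} with hT
  have hTf : T.Finite := hS.subset fun x hx => hx.1
  set T' : Finset X := hTf.toFinset with hT'
  have hmem : ∀ x, x ∈ T' ↔ x ∈ T := fun x => hTf.mem_toFinset
  have hfd : FiniteDimensional ℝ (dirW m T) := dirW_fin m hTf
  have hsum : ∀ (f u : X → ℝ), (∀ x, x ∉ T → f x = 0) →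
      ∑ᶠ x, f x * m.d u x = ∑ x ∈ T', f x * m.d u x := by
    intro f u hf
    refine finsum_eq_sum_of_support_subset _ fun x hx => ?_
    rw [Finset.mem_coe, hmem]
    by_contra hxT
    exact hx (by show f x * m.d u x = 0; rw [hf x hxT, zero_mul])
  have hinj : Function.Injective (dirA m T T') := by
    rw [injective_iff_map_eq_zero]
    intro g hg
    have h1 : ∑ x ∈ T', (g : X → ℝ) x * m.d (g : X → ℝ) x = 0 := by
      have := LinearMap.congr_fun hg g
      exact this
    have hsupp : (Function.support (g : X → ℝ)).Finite := by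
      refine hTf.subset fun x hx => ?_
      by_contra hxT
      exact hx (g.2.2 x hxT)
    have h2 : m.B (g : X → ℝ) (g : X → ℝ) = 0 := by
      rw [B_eq hsupp, hsum _ _ g.2.2, h1, neg_zero]
    have h3 : ∀ x, m.d (g : X → ℝ) x = 0 := d_eq_zero_of_B (dfin_of_finite hsupp) h2.le
    obtain ⟨y, hy⟩ := hne
    apply Subtype.ext
    funext x
    have h4 := const_of_conn hc (g : X → ℝ) g.2.1 (fun x => sub_eq_zero.1 (h3 x)) x y
    rw [h4, g.2.2 y fun h => hy h.1]
    rfl
  have hsurj : Function.Surjective (dirA m T T') :=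
    (LinearMap.injective_iff_surjective_of_finrank_eq_finrank
      (Subspace.dual_finrank_eq (K := ℝ) (V := dirW m T)).symm).1 hinj
  let ψ : X → ℝ := fun x => if m.r.SameCycle x₀ x then 1 else 0
  obtain ⟨g, hg⟩ := hsurj (dirL m T T' ψ)
  refine ⟨fun x => ψ x + (g : X → ℝ) x, ?_, ?_, ?_, ?_⟩
  · intro x
    have h1 : ψ (m.r x) = ψ x := by
      show (if _ then _ else _) = (if _ then _ else _)
      simp only [Equiv.Perm.sameCycle_apply_right]
    show ψ (m.r x) + _ = _
    rw [h1, g.2.1 x]
  · have h1 : x₀ ∉ T := fun h => h.2 (Equiv.Perm.SameCycle.refl _ _)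
    show ψ x₀ + _ = _
    rw [g.2.2 _ h1, add_zero]
    exact if_pos (Equiv.Perm.SameCycle.refl _ _)
  · intro x hx
    show ψ x + _ = _
    rw [g.2.2 x fun h => hx h.1, add_zero]
    exact if_neg fun h => hx (vset_sameCycle hV hx₀ h)
  · intro f hfr hff hfs
    have hf0 : ∀ x, x ∉ T → f x = 0 := fun x hx => by
      by_contra h
      exact hx (hfs h)
    rw [hsum f _ hf0]
    let f' : dirW m T := ⟨f, hfr, hf0⟩
    have h1 : ∑ x ∈ T', f x * m.d (g : X → ℝ) x = - ∑ x ∈ T', f x * m.d ψ x :=
      LinearMap.congr_fun hg f'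
    have h2 : ∑ x ∈ T', f x * m.d (fun x => ψ x + (g : X → ℝ) x) x =
        ∑ x ∈ T', f x * m.d ψ x + ∑ x ∈ T', f x * m.d (g : X → ℝ) x := by
      rw [← Finset.sum_add_distrib]
      refine Finset.sum_congr rfl fun x _ => ?_
      simp only [CMap.d]
      ring
    rw [h2, h1, add_neg_cancel]

end UIPQ.D
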