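import Pool.Agent.Lib.UIPQ.D.Bal
import Pool.Agent.Lib.UIPQ.D.BForm

/-!
# D/Flux: at most one flux functional

PROOF. Call `K` an end set if `K` is a set of vertices, `Bd K` is finite, `K` and `Kᶜ` are infinite. Case A: there is an end set `K₀`:
`ψ₀ = 1_{K₀}` (`DFin`: `d ψ₀ x ≠ 0` only for `x ∈ Bd K₀`). Case B: there is none: `ψ₀ = 0`.
Let `u` be `RInv`, harmonic, `B u ψ₀ = 0` and `w` `RInv`, `DFin w`. Let `D` be a nonempty finite set of vertices containing the (finitely many)
darts `x` with `d w x ≠ 0` or `d ψ₀ x ≠ 0` (`exists_vset`; `X` is nonempty), so that `w` and `ψ₀` are constant on each component of `Dᶜ` (`const_of_joined`: for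
`x, k x ∈ Dᶜ` `d w x = 0`). `Hu = hull m D` is finite; a point `y ∉ Hu` has an infinite component `{w | Joined Dᶜ y w}`.
By `TwoEnds` there are at most two such components.
(1) If there is a number `c` such that `w = c` off `Hu`: `w - c` has finite support, `B u w = B u (w - c) = 0` (`B_sub_right`, `B_const_right`, `B_test`).
(2) Otherwise there are `p, q ∉ Hu` with `w p ≠ w q` (`Hu` is finite, `X` infinite, so take any `p ∉ Hu`, `c = w p`, and `q` a point where it fails);
they are not joined in `Dᶜ`; every other `y ∉ Hu` is joined in `Dᶜ` to `p` or to `q` (`TwoEnds` and `symm'`). Then `K = {y | Joined Dᶜ p y}` is an end set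
(VSet, infinite; its complement contains the infinite set `{y | Joined Dᶜ q y}`; `Bd K` is finite since one of the two ends is in the finite set `D`). So we
are in case A. The restriction of `ψ₀` to `Huᶜ` takes the value `ψ₀ p` on the component of `p` and `ψ₀ q` on that of `q`; as `K₀` and its complement are
infinite and `Hu` is finite, both values `0` and `1` are taken off `Hu`, so `ψ₀ p ≠ ψ₀ q`. Let `β = (w p - w q)/(ψ₀ p - ψ₀ q)`, `α = w q - β ψ₀ q`. Then
`w - α - β ψ₀` vanishes off `Hu`: it has finite support, `B u w = B u (w - α - β ψ₀) + β B u ψ₀ = 0`.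
-/

namespace UIPQ.D

variable {X : Type} {m : CMap X}

private def EndSet (m : CMap X) (K : Set X) : Prop :=
  m.VSet K ∧ (m.Bd K).Finite ∧ K.Infinite ∧ Kᶜ.Infinite

private theorem flux_key [Infinite X] (hc : m.Connected) (hm : m.LocFinite) (hE : m.TwoEnds)
    (ψ₀ : X → ℝ) (hψr : m.RInv ψ₀) (hψd : m.DFin ψ₀)
    (hyp : (∃ K, EndSet m K) → {x | ψ₀ x = 0}.Infinite ∧ {x | ψ₀ x = 1}.Infinite)
    (u : X → ℝ) (hu : m.HarmOn Set.univ u) (hB : m.B u ψ₀ = 0) : m.NoFlux u := by
  intro w hwr hwd
  obtain ⟨x₁⟩ : Nonempty X := inferInstance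
  have hAfin : (insert x₁ (Function.support (m.d w) ∪ Function.support (m.d ψ₀))).Finite :=
    (hwd.union hψd).insert x₁
  obtain ⟨D, hD, hV, hAD⟩ := exists_vset hm hAfin
  have hne : D.Nonempty := ⟨x₁, hAD (Set.mem_insert _ _)⟩
  have hdw : ∀ x, x ∉ D → w (m.k x) = w x := by
    intro x hx
    by_contra hcon
    apply hx
    apply hAD
    apply Set.mem_insert_of_mem
    left
    rw [Function.mem_support]
    intro h0
    apply hcon
    unfold CMap.d at h0
    linarith
  have hdψ : ∀ x, x ∉ D → ψ₀ (m.k x) = ψ₀ x := by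
    intro x hx
    by_contra hcon
    apply hx
    apply hAD
    apply Set.mem_insert_of_mem
    right
    rw [Function.mem_support]
    intro h0
    apply hcon
    unfold CMap.d at h0
    linarith
  have hcw : ∀ {x y : X}, m.Joined Dᶜ x y → w x = w y := fun {x y} hxy =>
    const_of_joined w hwr (fun x hx _ => hdw x hx) hxy
  have hcψ : ∀ {x y : X}, m.Joined Dᶜ x y → ψ₀ x = ψ₀ y := fun {x y} hxy =>
    const_of_joined ψ₀ hψr (fun x hx _ => hdψ x hx) hxy
  have hHu : (hull m D).Finite := hull_finite hc hD hV hne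
  have hout : ∀ x, x ∉ hull m D → x ∉ D ∧ {w | m.Joined Dᶜ x w}.Infinite := by
    intro x hx
    unfold hull at hx
    rw [Set.mem_union, not_or] at hx
    refine ⟨hx.1, ?_⟩
    intro hf
    exact hx.2 ⟨hx.1, hf⟩
  by_cases h1 : ∃ c, ∀ x, x ∉ hull m D → w x = c
  · obtain ⟨c, hcc⟩ := h1
    have e1 : m.B u (fun x => w x - c) = m.B u w - m.B u (fun _ => c) :=
      B_sub_right hwd (dfin_const c)
    rw [B_const_right, sub_zero] at e1
    rw [← e1]
    have hs : Function.support (fun x => w x - c) ⊆ hull m D := by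
      intro x hx
      by_contra hxn
      rw [Function.mem_support] at hx
      apply hx
      rw [hcc x hxn, sub_self]
    apply B_test hu
    · intro x
      change w (m.r x) - c = w x - c
      rw [hwr x]
    · exact hHu.subset hs
    · exact Set.subset_univ _
  · push Not at h1
    obtain ⟨p, hp⟩ := hHu.infinite_compl.nonempty
    obtain ⟨q, hq, hpq⟩ := h1 (w p)
    have hp' := hout p hp
    have hq' := hout q hq
    have hnj : ¬ m.Joined Dᶜ p q := fun h => hpq (hcw h).symm
    have hall : ∀ y, y ∉ hull m D → m.Joined Dᶜ p y ∨ m.Joined Dᶜ q y := by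
      intro y hy
      have hy' := hout y hy
      rcases hE D hD hV p q y hp'.1 hq'.1 hy'.1 hp'.2 hq'.2 hy'.2 with h | h | h
      · exact absurd h hnj
      · exact Or.inl h
      · exact Or.inr h
    have hend : EndSet m {y | m.Joined Dᶜ p y} := by
      refine ⟨comp_vset (vset_compl hV) hp'.1, ?_, hp'.2, ?_⟩
      · have hfin : (D ∪ m.k ⁻¹' D).Finite := hD.union (hD.preimage m.k.injective.injOn)
        refine hfin.subset ?_
        intro x hx
        by_contra hxn
        rw [Set.mem_union, not_or] at hxn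
        apply hx
        constructor
        · intro hxK
          exact comp_k hp'.1 hxK hxn.2
        · intro hxK
          have := comp_k (S := Dᶜ) (y := m.k x) hp'.1 hxK (by rw [m.k_k]; exact hxn.1)
          rw [m.k_k] at this
          exact this
      · refine hq'.2.mono ?_
        intro y hy hy2
        exact hnj (Joined.trans' hy2 (Joined.symm' hy))
    obtain ⟨hz, ho⟩ := hyp ⟨_, hend⟩
    obtain ⟨a, ha0, haH⟩ := (hz.sdiff hHu).nonempty
    obtain ⟨b, hb1, hbH⟩ := (ho.sdiff hHu).nonempty
    have hne' : ψ₀ p ≠ ψ₀ q := by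
      intro he
      have e1 : ψ₀ a = ψ₀ p := by
        rcases hall a haH with h | h
        · exact (hcψ h).symm
        · rw [he]; exact (hcψ h).symm
      have e2 : ψ₀ b = ψ₀ p := by
        rcases hall b hbH with h | h
        · exact (hcψ h).symm
        · rw [he]; exact (hcψ h).symm
      have e3 : ψ₀ a = 0 := ha0
      have e4 : ψ₀ b = 1 := hb1
      rw [e3] at e1
      rw [e4, ← e1] at e2
      exact one_ne_zero e2
    have hne2 : ψ₀ p - ψ₀ q ≠ 0 := sub_ne_zero.mpr hne'
    obtain ⟨β, hβ⟩ : ∃ β, β * (ψ₀ p - ψ₀ q) = w p - w q :=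
      ⟨(w p - w q) / (ψ₀ p - ψ₀ q), div_mul_cancel₀ _ hne2⟩
    have hs : Function.support (fun x => w x - ((w q - β * ψ₀ q) + β * ψ₀ x)) ⊆ hull m D := by
      intro x hx
      by_contra hxn
      rw [Function.mem_support] at hx
      apply hx
      rcases hall x hxn with h | h
      · rw [← hcw h, ← hcψ h]
        linarith
      · rw [← hcw h, ← hcψ h]
        ring
    have e0 : m.B u (fun x => w x - ((w q - β * ψ₀ q) + β * ψ₀ x)) = 0 := by
      apply B_test hu
      · intro x
        change w (m.r x) - ((w q - β * ψ₀ q) + β * ψ₀ (m.r x)) =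
          w x - ((w q - β * ψ₀ q) + β * ψ₀ x)
        rw [hwr x, hψr x]
      · exact hHu.subset hs
      · exact Set.subset_univ _
    have e1 : m.B u (fun x => w x - ((w q - β * ψ₀ q) + β * ψ₀ x)) =
        m.B u w - m.B u (fun x => (w q - β * ψ₀ q) + β * ψ₀ x) :=
      B_sub_right hwd (DFin.add' (dfin_const _) (DFin.smul' β hψd))
    have e2 : m.B u (fun x => (w q - β * ψ₀ q) + β * ψ₀ x) =
        m.B u (fun _ => w q - β * ψ₀ q) + m.B u (fun x => β * ψ₀ x) :=
      B_add_right (w1 := fun _ => w q - β * ψ₀ q) (w2 := fun x => β * ψ₀ x)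
        (dfin_const _) (DFin.smul' β hψd)
    rw [B_const_right, B_smul_right β hψd, hB, mul_zero, add_zero] at e2
    rw [e2, sub_zero, e0] at e1
    exact e1.symm

theorem exists_flux [Infinite X] (hc : m.Connected) (hm : m.LocFinite) (hE : m.TwoEnds) :
    ∃ ψ₀ : X → ℝ, m.RInv ψ₀ ∧ m.DFin ψ₀ ∧
      ∀ u, m.RInv u → m.HarmOn Set.univ u → m.B u ψ₀ = 0 → m.NoFlux u := by
  classical
  by_cases hK : ∃ K, EndSet m K
  · obtain ⟨K, hKV, hKB, hKi, hKc⟩ := hK
    have hr : m.RInv (fun x => if x ∈ K then (1 : ℝ) else 0) := by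
      intro x
      change (if m.r x ∈ K then (1 : ℝ) else 0) = if x ∈ K then (1 : ℝ) else 0
      by_cases hx : x ∈ K
      · rw [if_pos hx, if_pos ((hKV x).mpr hx)]
      · rw [if_neg hx, if_neg (fun h => hx ((hKV x).mp h))]
    have hd : m.DFin (fun x => if x ∈ K then (1 : ℝ) else 0) := by
      refine hKB.subset ?_
      intro x hx
      rw [Function.mem_support] at hx
      intro hiff
      apply hx
      change (if m.k x ∈ K then (1 : ℝ) else 0) - (if x ∈ K then (1 : ℝ) else 0) = 0
      by_cases hxK : x ∈ K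
      · rw [if_pos hxK, if_pos (hiff.mp hxK), sub_self]
      · rw [if_neg hxK, if_neg (fun h => hxK (hiff.mpr h)), sub_self]
    refine ⟨_, hr, hd, fun u _ huh hB => flux_key hc hm hE _ hr hd (fun _ => ?_) u huh hB⟩
    constructor
    · refine hKc.mono ?_
      intro x hx
      exact if_neg hx
    · refine hKi.mono ?_
      intro x hx
      exact if_pos hx
  · refine ⟨fun _ => 0, fun _ => rfl, dfin_const 0, fun u _ huh hB =>
      flux_key hc hm hE _ (fun _ => rfl) (dfin_const 0) (fun h => absurd h hK) u huh hB⟩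

end UIPQ.D
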