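import Pool.Agent.Lib.UIPQ.D.Bal
import Pool.Agent.Lib.UIPQ.D.EDForm

/-!
# D/PosBall: a ball on which the energy is positive definite

PROOF. For `s : ℕ` let `N s` be the submodule of the `c : Fin q → ℝ` such that `w_c = ∑ c_i u_i` satisfies `d w_c x = 0` for all `x` with `x, k x` in
`ballDarts x₀ s`. `N` is antitone in `s` (`ballDarts_mono`). If `c ∈ N s` for all `s`, then `d w_c = 0` everywhere (`exists_ballDarts`, `ballDarts_mono`), `w_c` is
constant (`const_of_conn`), it is `0` at `x₀`, so `w_c = 0` and `c = 0` by linear independence. So the intersection of the antitone sequence of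
subspaces of the finite dimensional space is `⊥`; the sequence is eventually constant (choose `s` with minimal `finrank`), so `N s = ⊥` for some `s`.
If `c ≠ 0` then `c ∉ N s`: `ED (ballDarts x₀ s) w_c w_c > 0` (`ED_nonneg`, `d_eq_zero_of_ED`).
-/

namespace UIPQ.D

variable {X : Type} {m : CMap X}

private theorem d_lin {q : ℕ} (c : Fin q → ℝ) (v : Fin q → X → ℝ) (x : X) :
    m.d (fun x => ∑ i, c i * v i x) x = ∑ i, c i * m.d (v i) x := by
  unfold CMap.d
  rw [← Finset.sum_sub_distrib]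
  exact Finset.sum_congr rfl fun i _ => by ring

private def NS (m : CMap X) (x₀ : X) {q : ℕ} (u : Fin q → X → ℝ) (s : ℕ) :
    Submodule ℝ (Fin q → ℝ) where
  carrier := {c | ∀ x ∈ m.ballDarts x₀ s, m.k x ∈ m.ballDarts x₀ s → ∑ i, c i * m.d (u i) x = 0}
  zero_mem' := fun x _ _ => by simp
  add_mem' := fun {a b} ha hb x hx hk => by
    have h1 := ha x hx hk
    have h2 := hb x hx hk
    simp only [Pi.add_apply, add_mul, Finset.sum_add_distrib]
    rw [h1, h2, add_zero]
  smul_mem' := fun t a ha x hx hk => by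
    have h1 := ha x hx hk
    simp only [Pi.smul_apply, smul_eq_mul, mul_assoc]
    rw [← Finset.mul_sum, h1, mul_zero]

private theorem NS_anti (m : CMap X) (x₀ : X) {q : ℕ} (u : Fin q → X → ℝ) {i j : ℕ} (h : i ≤ j) :
    NS m x₀ u j ≤ NS m x₀ u i :=
  fun _ hc x hx hk => hc x (ballDarts_mono m x₀ h hx) (ballDarts_mono m x₀ h hk)

theorem exists_pos (hc : m.Connected) (hm : m.LocFinite) (x₀ : X) {q : ℕ} (u : Fin q → X → ℝ)
    (hu : ∀ i, m.RInv (u i)) (h0 : ∀ i, u i x₀ = 0) (hli : LinearIndependent ℝ u) :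
    ∃ s : ℕ, ∀ c : Fin q → ℝ, c ≠ 0 →
      0 < m.ED (m.ballDarts x₀ s) (fun x => ∑ i, c i * u i x) (fun x => ∑ i, c i * u i x) := by
  obtain ⟨s, hs⟩ := IsArtinian.monotone_stabilizes
    (⟨fun n => OrderDual.toDual (NS m x₀ u n), fun i j hij => NS_anti m x₀ u hij⟩ :
      ℕ →o (Submodule ℝ (Fin q → ℝ))ᵒᵈ)
  have hs' : ∀ n, s ≤ n → NS m x₀ u s = NS m x₀ u n := fun n hn => OrderDual.toDual.injective (hs n hn)
  refine ⟨s, fun c hcne => ?_⟩
  by_contra hneg
  rw [not_lt] at hneg
  apply hcne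
  have hcs : c ∈ NS m x₀ u s := fun x hx hk => by
    rw [← d_lin]
    exact d_eq_zero_of_ED (ballDarts_finite hm x₀ s) hneg x hx hk
  have hall : ∀ x, ∑ i, c i * m.d (u i) x = 0 := by
    intro x
    obtain ⟨n1, h1⟩ := exists_ballDarts hc x₀ x
    obtain ⟨n2, h2⟩ := exists_ballDarts hc x₀ (m.k x)
    have hcn : c ∈ NS m x₀ u (max s (max n1 n2)) := by
      rw [← hs' _ (le_max_left _ _)]
      exact hcs
    exact hcn x (ballDarts_mono m x₀ ((le_max_left _ _).trans (le_max_right _ _)) h1)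
      (ballDarts_mono m x₀ ((le_max_right _ _).trans (le_max_right _ _)) h2)
  have hconst : ∀ x, (∑ i, c i * u i x) = ∑ i, c i * u i x₀ := by
    intro x
    refine const_of_conn hc (fun x => ∑ i, c i * u i x) (fun y => ?_) (fun y => ?_) x x₀
    · exact Finset.sum_congr rfl fun i _ => by rw [hu i y]
    · have h := hall y
      rw [← d_lin] at h
      unfold CMap.d at h
      linarith
  have hzero : ∀ x, (∑ i, c i * u i x) = 0 := by
    intro x
    rw [hconst x]
    exact Finset.sum_eq_zero fun i _ => by rw [h0 i, mul_zero]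
  funext i
  refine Fintype.linearIndependent_iff.1 hli c ?_ i
  funext x
  rw [Finset.sum_apply]
  simpa [smul_eq_mul] using hzero x

end UIPQ.D
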