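import Pool.Agent.Lib.UIPQ.D.Trace
import Pool.Agent.Lib.UIPQ.D.DetTr
import Pool.Agent.Lib.UIPQ.D.ChainDet
import Pool.Agent.Lib.UIPQ.D.PosBall

/-!
# D/Gram: the determinant inequality for one potential

`gram m D u` = matrix of `ED D (u i) (u j)`. For finite `D`: `c ⬝ᵥ (gram *ᵥ c) = ED D (∑ c_i u_i) (∑ c_i u_i)` (`ED_sum`), so `gram` is positive semidefinite;
positive definite if `D ⊇ ballDarts x₀ s` (`ED_mono`, hypothesis `hs`); monotone in `D`.
PROOF of `gram_ineq`. `M_i = gram (dn h (s + 6 i + 2))`, `i ≤ J` (`s + 6 i + 2 < R`, so the sets are finite, and contain `ballDarts x₀ s` by `ball_le`).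
(1) `det (gram (ballDarts x₀ s)) ≤ det M_0` (`det_mono`). (2) `det M_i ≤ det M_(i+1)` for `i < J` (`det_mono`, `ED_mono`).
(3) for `i < J`, `a = s + 6 i` (`a + 8 = s + 6 (i+1) + 2 < R`), if `Two h a ∨ ¬ Two h (a + 6)`: `det M_i ≤ (1024/q)^q det M_(i+1)`: `det_le_of_trace` with `C = 1024`: let
`Pᵀ M_(i+1) P = 1`, `v l = ∑_i P i l * u i`; `ED (dn h (a+8)) (∑ c_l v_l) = (P c)ᵀ M_(i+1) (P c) = ∑ c_l^2`; `trace (Pᵀ M_i P) = ∑_l ED (dn h (a+2)) (v l) (v l)`
`≤ 1024` by `trace_bound` (`v l` is `RInv` and `NoFlux`: `NoFlux.sum`).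
(4) `T i = Two h (s + 6 i)` is monotone (`two_mono`). `chain_det` with `κ = (1024/q)^q ≤ 1`: `det M_0 ≤ κ^(J-1) det M_J`.
(5) `det M_J ≤ (trace M_J / q)^q ≤ (M^2)^q` (`det_le_trace_pow`, `top_bound` with `a = s + 6 J + 2`, `a + 2 ≤ R`; the trace is a sum of `q` terms in `[0, M^2]`).
-/

namespace UIPQ.D

open Matrix

variable {X : Type} {m : CMap X} {x₀ : X} {R : ℝ} {h : X → ℝ}

/-- The Gram matrix of the energies inside `D`. -/
noncomputable def gram (m : CMap X) (D : Set X) {q : ℕ} (u : Fin q → X → ℝ) :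
    Matrix (Fin q) (Fin q) ℝ := fun i j => m.ED D (u i) (u j)

theorem gram_dot {D : Set X} (hD : D.Finite) {q : ℕ} (u : Fin q → X → ℝ) (c : Fin q → ℝ) :
    c ⬝ᵥ (gram m D u *ᵥ c) =
      m.ED D (fun x => ∑ i, c i * u i x) (fun x => ∑ i, c i * u i x) := by
  rw [ED_sum hD]
  simp only [dotProduct, mulVec, gram, Finset.mul_sum]
  exact Finset.sum_congr rfl fun i _ => Finset.sum_congr rfl fun j _ => by ring

theorem gram_herm (m : CMap X) (D : Set X) {q : ℕ} (u : Fin q → X → ℝ) :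
    (gram m D u).IsHermitian := by
  ext i j
  rw [conjTranspose_apply, star_trivial]
  exact ED_comm m D (u j) (u i)

theorem gram_psd {D : Set X} (hD : D.Finite) {q : ℕ} (u : Fin q → X → ℝ) :
    (gram m D u).PosSemidef :=
  PosSemidef.of_dotProduct_mulVec_nonneg (gram_herm m D u) fun c => by
    rw [star_trivial, gram_dot hD]
    exact ED_nonneg m D _

theorem gram_pd {D : Set X} (hD : D.Finite) {q : ℕ} (u : Fin q → X → ℝ)
    (hs : ∀ c : Fin q → ℝ, c ≠ 0 →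
      0 < m.ED D (fun x => ∑ i, c i * u i x) (fun x => ∑ i, c i * u i x)) :
    (gram m D u).PosDef :=
  PosDef.of_dotProduct_mulVec_pos (gram_herm m D u) fun c hc => by
    rw [star_trivial, gram_dot hD]
    exact hs c hc

theorem gram_det_pos (hm : m.LocFinite) {q : ℕ} (u : Fin q → X → ℝ) {s : ℕ}
    (hs : ∀ c : Fin q → ℝ, c ≠ 0 →
      0 < m.ED (m.ballDarts x₀ s) (fun x => ∑ i, c i * u i x) (fun x => ∑ i, c i * u i x)) :
    0 < (gram m (m.ballDarts x₀ s) u).det :=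
  (gram_pd (ballDarts_finite hm x₀ s) u hs).det_pos

/-- the function `∑_l c_l v_l` with `v l = ∑_i P i l * u i` -/
private theorem comb_eq {q : ℕ} (P : Matrix (Fin q) (Fin q) ℝ) (u : Fin q → X → ℝ) (c : Fin q → ℝ) :
    (fun x => ∑ l, c l * ∑ i, P i l * u i x) = fun x => ∑ i, (P *ᵥ c) i * u i x := by
  funext x
  simp only [mulVec, dotProduct, Finset.mul_sum, Finset.sum_mul]
  rw [Finset.sum_comm]
  exact Finset.sum_congr rfl fun i _ => Finset.sum_congr rfl fun j _ => by ring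

private theorem trace_eq {D : Set X} (hD : D.Finite) {q : ℕ} (P : Matrix (Fin q) (Fin q) ℝ)
    (u : Fin q → X → ℝ) :
    (Pᵀ * gram m D u * P).trace =
      ∑ l, m.ED D (fun x => ∑ i, P i l * u i x) (fun x => ∑ i, P i l * u i x) := by
  unfold trace
  refine Finset.sum_congr rfl fun l _ => ?_
  rw [ED_sum hD, diag_apply, mul_apply]
  simp only [mul_apply, Finset.sum_mul, transpose_apply, gram]
  rw [Finset.sum_comm]
  exact Finset.sum_congr rfl fun i _ => Finset.sum_congr rfl fun j _ => by ring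

private theorem step (hc : m.Connected)
    (h4 : ∀ x, m.f (m.f (m.f (m.f x))) = x) (hPL : m.PL) (hE : m.TwoEnds)
    (P : m.Pot x₀ R h) {q : ℕ} (hq : 0 < q) (u : Fin q → X → ℝ) (hu : ∀ i, m.RInv (u i))
    (hF : ∀ i, m.NoFlux (u i)) {a : ℝ} (ha : 0 ≤ a) (haR : a + 8 < R)
    (hpd : (gram m (dn h (a + 8)) u).PosDef)
    (hg : m.Two h a ∨ ¬ m.Two h (a + 6)) :
    (gram m (dn h (a + 2)) u).det ≤ (1024 / (q : ℝ)) ^ q * (gram m (dn h (a + 8)) u).det := by
  refine det_le_of_trace hq _ _ (gram_psd (Pot.dn_finite P (by linarith)) u) hpd 1024 ?_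
  intro Q hQ
  rw [trace_eq (Pot.dn_finite P (by linarith))]
  refine trace_bound hc h4 hPL hE P ha haR hg (fun l x => ∑ i, Q i l * u i x) ?_ ?_ ?_
  · intro l x
    exact Finset.sum_congr rfl fun i _ => by rw [hu i x]
  · intro l
    exact NoFlux.sum (fun i => Q i l) u hF
  · intro c
    rw [comb_eq, ← gram_dot (Pot.dn_finite P haR), mulVec_mulVec, ← vecMul_transpose,
      ← dotProduct_mulVec, mulVec_mulVec, ← Matrix.mul_assoc, hQ, one_mulVec]
    exact Finset.sum_congr rfl fun i _ => (sq (c i)).symm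

theorem gram_ineq (hc : m.Connected) (hm : m.LocFinite)
    (h4 : ∀ x, m.f (m.f (m.f (m.f x))) = x) (hPL : m.PL) (hE : m.TwoEnds)
    (P : m.Pot x₀ R h) {q : ℕ} (hq : 1024 ≤ q) (u : Fin q → X → ℝ) (hu : ∀ i, m.RInv (u i))
    (hF : ∀ i, m.NoFlux (u i)) {s : ℕ}
    (hs : ∀ c : Fin q → ℝ, c ≠ 0 →
      0 < m.ED (m.ballDarts x₀ s) (fun x => ∑ i, c i * u i x) (fun x => ∑ i, c i * u i x))
    {J : ℕ} (hJ : (s : ℝ) + 6 * J + 4 ≤ R) {M : ℝ} (hM : ∀ i x, h x < R → |u i x| ≤ M) :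
    (gram m (m.ballDarts x₀ s) u).det ≤ ((1024 / (q : ℝ)) ^ q) ^ (J - 1) * (M ^ 2) ^ q := by
  have hq0 : 0 < q := by omega
  have hqR : (0 : ℝ) < q := by exact_mod_cast hq0
  have hq1 : (1024 : ℝ) ≤ q := by exact_mod_cast hq
  have hs0 : (0 : ℝ) ≤ s := Nat.cast_nonneg s
  -- levels
  have hlev : ∀ i : ℕ, i ≤ J → (s : ℝ) + 6 * i + 2 < R := by
    intro i hi
    have h1 : (i : ℝ) ≤ J := by exact_mod_cast hi
    linarith
  have hlev0 : ∀ i : ℕ, (0 : ℝ) ≤ (s : ℝ) + 6 * i := fun i => by positivity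
  have hfin : ∀ i : ℕ, i ≤ J → (dn h ((s : ℝ) + 6 * i + 2)).Finite := fun i hi =>
    Pot.dn_finite P (hlev i hi)
  have hball : ∀ i : ℕ, m.ballDarts x₀ s ⊆ dn h ((s : ℝ) + 6 * i + 2) := by
    intro i x hx
    have h1 := Pot.ball_le P s hx
    have h2 : (0 : ℝ) ≤ i := Nat.cast_nonneg i
    show h x ≤ (s : ℝ) + 6 * i + 2
    linarith
  have hpd : ∀ i : ℕ, i ≤ J → (gram m (dn h ((s : ℝ) + 6 * i + 2)) u).PosDef := fun i hi =>
    gram_pd (hfin i hi) u fun c hc0 => (hs c hc0).trans_le (ED_mono (hfin i hi) (hball i))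
  have hsucc : ∀ i : ℕ, (s : ℝ) + 6 * ((i + 1 : ℕ) : ℝ) + 2 = (s : ℝ) + 6 * i + 8 := fun i => by
    push_cast; ring
  have hmono : ∀ i < J, (gram m (dn h ((s : ℝ) + 6 * i + 2)) u).det ≤
      (gram m (dn h ((s : ℝ) + 6 * ((i + 1 : ℕ) : ℝ) + 2)) u).det := by
    intro i hi
    refine det_mono hq0 _ _ (gram_psd (hfin i hi.le) u) (hpd (i + 1) hi) fun c => ?_
    rw [gram_dot (hfin i hi.le), gram_dot (hfin (i + 1) hi)]
    refine ED_mono (hfin (i + 1) hi) fun x (hx : h x ≤ _) => ?_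
    show h x ≤ _
    rw [hsucc]
    linarith
  have h0 : (gram m (m.ballDarts x₀ s) u).det ≤
      (gram m (dn h ((s : ℝ) + 6 * ((0 : ℕ) : ℝ) + 2)) u).det := by
    refine det_mono hq0 _ _ (gram_psd (ballDarts_finite hm x₀ s) u) (hpd 0 (Nat.zero_le _))
      fun c => ?_
    rw [gram_dot (ballDarts_finite hm x₀ s), gram_dot (hfin 0 (Nat.zero_le _))]
    exact ED_mono (hfin 0 (Nat.zero_le _)) (hball 0)
  have hκ0 : (0 : ℝ) ≤ (1024 / (q : ℝ)) ^ q := by positivity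
  have hκ1 : (1024 / (q : ℝ)) ^ q ≤ 1 :=
    pow_le_one₀ (by positivity) ((div_le_one hqR).2 hq1)
  have hchain := chain_det (fun i => (gram m (dn h ((s : ℝ) + 6 * (i : ℝ) + 2)) u).det) J
    ((1024 / (q : ℝ)) ^ q) hκ0 hκ1 (fun i => m.Two h ((s : ℝ) + 6 * (i : ℝ)))
    (fun i hi hT => Pot.two_mono P (hlev0 i) (by push_cast; linarith)
      (lt_of_le_of_lt (by linarith) (hlev (i + 1) hi)) hT)
    (fun i hi => (gram_psd (hfin i hi) u).det_nonneg) hmono
    (fun i hi hg => by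
      have h1 := hlev (i + 1) hi
      rw [hsucc] at h1
      have h2 := hpd (i + 1) hi
      rw [hsucc] at h2
      have h3 := step hc h4 hPL hE P hq0 u hu hF (hlev0 i) h1 h2 (by
        rcases hg with hg | hg
        · exact Or.inl hg
        · refine Or.inr ?_
          have h5 : (s : ℝ) + 6 * i + 6 = (s : ℝ) + 6 * ((i + 1 : ℕ) : ℝ) := by push_cast; ring
          rw [h5]
          exact hg)
      show _ ≤ _ * (gram m (dn h ((s : ℝ) + 6 * ((i + 1 : ℕ) : ℝ) + 2)) u).det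
      rw [hsucc]
      exact h3)
  have htop : (gram m (dn h ((s : ℝ) + 6 * (J : ℝ) + 2)) u).det ≤ (M ^ 2) ^ q := by
    refine (det_le_trace_pow hq0 _ (gram_psd (hfin J le_rfl) u)).trans ?_
    have htr0 : 0 ≤ (gram m (dn h ((s : ℝ) + 6 * (J : ℝ) + 2)) u).trace :=
      Finset.sum_nonneg fun i _ => ED_nonneg m _ _
    refine pow_le_pow_left₀ (div_nonneg htr0 hqR.le) ?_ q
    rw [div_le_iff₀ hqR]
    have h1 : (gram m (dn h ((s : ℝ) + 6 * (J : ℝ) + 2)) u).trace ≤ ∑ _i : Fin q, M ^ 2 :=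
      Finset.sum_le_sum fun i _ => top_bound P (by positivity) (by linarith) (hu i) (hF i) (hM i)
    rw [Finset.sum_const, Finset.card_univ, Fintype.card_fin, nsmul_eq_mul] at h1
    linarith
  calc (gram m (m.ballDarts x₀ s) u).det
      ≤ (gram m (dn h ((s : ℝ) + 6 * ((0 : ℕ) : ℝ) + 2)) u).det := h0
    _ ≤ ((1024 / (q : ℝ)) ^ q) ^ (J - 1) * (gram m (dn h ((s : ℝ) + 6 * (J : ℝ) + 2)) u).det := hchain
    _ ≤ _ := mul_le_mul_of_nonneg_left htop (pow_nonneg hκ0 _)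

end UIPQ.D
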