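import Pool.Agent.Lib.UIPQ.D.PotB
import Pool.Agent.Lib.UIPQ.D.Flux
import Pool.Agent.Lib.UIPQ.D.Gram
import Pool.Agent.Lib.UIPQ.D.Bridge

/-!
# D/Main: the deterministic theorem (part D of the proof)

PROOF. `H = polyHarmonic m x₀ hm k`. `ψ₀` from `exists_flux`. The linear map `Φ : H → ℝ × ℝ`, `h ↦ (h (vert x₀), B (h ∘ vert) ψ₀)` (linear by `B_add_left`,
`B_smul_left`, `DFin ψ₀`). It suffices that `ker Φ` is finite dimensional. `main_bound`: every linearly independent family `f : Fin q → H` in `ker Φ` has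
`q ≤ K := ⌈1024 exp (12 k'/c)⌉ + 1024`, `k' = max k 0`; if `ker Φ` were infinite dimensional there would be linearly independent families of every size.
`main_bound`: suppose `q > K`. `u i = f i ∘ vert`: `RInv`, harmonic, `NoFlux` (`exists_flux`), `u i x₀ = 0`, linearly independent (`vert` is surjective).
`C_i` growth constants, `C0 = max C_i` (`≥ 0`). `exists_pos` gives `s`, `δ = det (gram (ballDarts x₀ s) u) > 0` (`gram_det_pos`). By `asym_bound` eventually in `n`
..., by `hR` frequently `LowCond x₀ n (1/(c log n))`; take such an `n ≥ 2`; `exists_pot` gives `R ≥ c log n` and `h`; `J` from `asym_bound`; `gram_ineq` with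
`M = C0 (1+n)^k'` gives `δ ≤ ... < δ`: contradiction.
-/

namespace UIPQ

open Filter UIPQ.D

private theorem finite_of_bound {X V : Type} [AddCommGroup V] [Module ℝ V] (Φ : V →ₗ[ℝ] ℝ × ℝ)
    (Λ : V →ₗ[ℝ] (X → ℝ)) (hΛ : ∀ a, Λ a = 0 → a = 0) (K : ℕ)
    (hb : ∀ (q : ℕ) (w : Fin q → V), (∀ i, Φ (w i) = 0) → LinearIndependent ℝ (fun i => Λ (w i)) →
      q ≤ K) : FiniteDimensional ℝ V := by
  classical
  have hrank : Module.rank ℝ (LinearMap.ker Φ) ≤ K := by
    apply rank_le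
    intro t ht
    have hli0 : LinearIndependent ℝ (fun i : Fin t.card => (t.equivFin.symm i).1) :=
      ht.comp _ t.equivFin.symm.injective
    have hliw : LinearIndependent ℝ (fun i : Fin t.card => ((t.equivFin.symm i).1 : V)) :=
      hli0.map' (LinearMap.ker Φ).subtype (Submodule.ker_subtype _)
    have hli : LinearIndependent ℝ (fun i : Fin t.card => Λ ((t.equivFin.symm i).1 : V)) :=
      hliw.map' Λ (LinearMap.ker_eq_bot'.mpr hΛ)
    exact hb _ (fun i : Fin t.card => ((t.equivFin.symm i).1 : V))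
      (fun i => (t.equivFin.symm i).1.2) hli
  have hker : Module.Finite ℝ (LinearMap.ker Φ) := by
    rw [← Module.rank_lt_aleph0_iff]
    exact hrank.trans_lt (Cardinal.natCast_lt_aleph0)
  have hfg : (⊤ : Submodule ℝ V).FG := by
    refine Submodule.fg_of_fg_map_of_fg_inf_ker Φ ?_ ?_
    · exact IsNoetherian.noetherian _
    · rw [top_inf_eq]
      exact Module.Finite.iff_fg.mp hker
  exact ⟨hfg⟩

theorem main_bound {X : Type} [Infinite X] (m : CMap X) (x₀ : X) (hc : m.Connected)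
    (hm : m.LocFinite) (h4 : ∀ x, m.f (m.f (m.f (m.f x))) = x) (hPL : m.PL) (hE : m.TwoEnds)
    (c : ℝ) (hc0 : 0 < c) (hR : ∃ᶠ n : ℕ in atTop, m.LowCond x₀ n (1 / (c * Real.log n)))
    (k : ℝ) (hk : 0 ≤ k) {q : ℕ} (u : Fin q → X → ℝ) (hu : ∀ i, m.RInv (u i))
    (hF : ∀ i, m.NoFlux (u i)) (h0 : ∀ i, u i x₀ = 0) (hli : LinearIndependent ℝ u) (C0 : ℝ)
    (hC : ∀ (n : ℕ), ∀ x ∈ m.ballDarts x₀ n, ∀ i, |u i x| ≤ C0 * (1 + (n : ℝ)) ^ k) :
    q ≤ ⌈1024 * Real.exp (12 * k / c)⌉₊ + 1024 := by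
  by_contra hcon
  have hqK : ⌈1024 * Real.exp (12 * k / c)⌉₊ + 1024 < q := not_le.mp hcon
  have hq1 : 1024 ≤ q := by omega
  have hq2 : 1024 * Real.exp (12 * k / c) < (q : ℝ) := by
    refine lt_of_le_of_lt (Nat.le_ceil _) ?_
    exact_mod_cast (by omega : ⌈1024 * Real.exp (12 * k / c)⌉₊ < q)
  have hq0 : 0 < q := by omega
  have hC0 : 0 ≤ C0 := by
    have h1 := hC 0 x₀ (ballDarts_self m x₀ 0) ⟨0, hq0⟩
    simpa using (abs_nonneg _).trans h1
  obtain ⟨s, hs⟩ := exists_pos hc hm x₀ u hu h0 hli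
  have hδ := gram_det_pos (m := m) (x₀ := x₀) hm u hs
  have hev := asym_bound c k C0 _ hc0 hk hC0 hδ s q hq2
  obtain ⟨n, hlow, hn1, hn2⟩ := (hR.and_eventually (hev.and (eventually_ge_atTop 2))).exists
  have hlog : 0 < Real.log (n : ℝ) := by
    apply Real.log_pos
    exact_mod_cast (by omega : 1 < n)
  have he : 0 < 1 / (c * Real.log n) := by positivity
  obtain ⟨R, h, hRe, P, hb⟩ := exists_pot hc hm x₀ n _ he hlow
  rw [one_div_one_div] at hRe
  obtain ⟨J, hJ, hlt⟩ := hn1 R hRe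
  have hineq := gram_ineq hc hm h4 hPL hE P hq1 u hu hF hs hJ (M := C0 * (1 + (n : ℝ)) ^ k)
    (fun i x hx => hb (u i) _ (hu i) (NoFlux.harm (hF i)) (fun y hy => hC n y hy i) x hx)
  exact absurd (lt_of_le_of_lt hineq hlt) (lt_irrefl _)

theorem det_thm {X : Type} [Infinite X] (m : CMap X) (x₀ : X) (hc : m.Connected) (hm : m.LocFinite)
    (h4 : ∀ x, m.f (m.f (m.f (m.f x))) = x) (hPL : m.PL) (hE : m.TwoEnds) (c : ℝ) (hc0 : 0 < c)
    (hR : ∃ᶠ n : ℕ in atTop, m.LowCond x₀ n (1 / (c * Real.log n))) (k : ℝ) :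
    FiniteDimensional ℝ (polyHarmonic m x₀ hm k) := by
  classical
  obtain ⟨ψ₀, hψr, hψd, hψ⟩ := exists_flux hc hm hE
  obtain ⟨Φ, hΦ⟩ : ∃ Φ : polyHarmonic m x₀ hm k →ₗ[ℝ] ℝ × ℝ, ∀ g,
      Φ g = (g.1 (m.vert x₀), m.B (fun x => g.1 (m.vert x)) ψ₀) :=
    ⟨{ toFun := fun g => (g.1 (m.vert x₀), m.B (fun x => g.1 (m.vert x)) ψ₀)
       map_add' := by
        intro a b
        refine Prod.ext rfl ?_
        exact B_add_left (fun x => a.1 (m.vert x)) (fun x => b.1 (m.vert x)) hψd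
       map_smul' := by
        intro a b
        refine Prod.ext rfl ?_
        exact B_smul_left (u := fun x => b.1 (m.vert x)) a hψd }, fun g => rfl⟩
  obtain ⟨Λ, hΛ⟩ : ∃ Λ : polyHarmonic m x₀ hm k →ₗ[ℝ] (X → ℝ), ∀ g x, Λ g x = g.1 (m.vert x) :=
    ⟨{ toFun := fun g x => g.1 (m.vert x)
       map_add' := by
        intro a b
        rfl
       map_smul' := by
        intro a b
        rfl }, fun g x => rfl⟩
  have hinj : ∀ a, Λ a = 0 → a = 0 := by
    intro a ha
    apply Subtype.ext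
    funext v
    obtain ⟨x, hx⟩ : ∃ x, m.vert x = v := Quotient.exists_rep v
    have h1 := congrFun ha x
    rw [hΛ, hx] at h1
    exact h1
  refine finite_of_bound Φ Λ hinj (⌈1024 * Real.exp (12 * max k 0 / c)⌉₊ + 1024) ?_
  intro q w hw hli
  have hfun : ∀ i, Λ (w i) = fun x => (w i).1 (m.vert x) := fun i => funext fun x => hΛ (w i) x
  have hharm : ∀ i, m.HarmOn Set.univ (Λ (w i)) := by
    intro i
    rw [hfun]
    exact harm_of_harmonic hm (w i).2.1
  have hrinv : ∀ i, m.RInv (Λ (w i)) := by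
    intro i x
    rw [hΛ, hΛ, vert_r]
  have hF : ∀ i, m.NoFlux (Λ (w i)) := by
    intro i
    refine hψ _ (hrinv i) (hharm i) ?_
    have h1 := hw i
    rw [hΦ] at h1
    rw [hfun]
    exact congrArg Prod.snd h1
  have h0 : ∀ i, Λ (w i) x₀ = 0 := by
    intro i
    have h1 := hw i
    rw [hΦ] at h1
    rw [hΛ]
    exact congrArg Prod.fst h1
  choose C hC using fun i => (w i).2.2
  have hCnn : ∀ i, 0 ≤ C i := by
    intro i
    have h1 := (abs_nonneg _).trans (hC i (m.vert x₀))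
    have h2 : (0 : ℝ) < (1 + (m.dist (m.vert x₀) (m.vert x₀) : ℝ)) ^ k :=
      Real.rpow_pos_of_pos (by positivity) _
    exact nonneg_of_mul_nonneg_left h1 h2
  refine main_bound m x₀ hc hm h4 hPL hE c hc0 hR (max k 0) (le_max_right _ _)
    (fun i => Λ (w i)) hrinv hF h0 hli (∑ i, C i) ?_
  intro n x hx i
  have h1 := growth_bound x₀ (hC i) n x hx
  rw [hΛ]
  refine h1.trans ?_
  refine mul_le_mul_of_nonneg_right ?_ (Real.rpow_nonneg (by positivity) _)
  exact Finset.single_le_sum (fun j _ => hCnn j) (Finset.mem_univ i)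

end UIPQ
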