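import Pool.Agent.Lib.UIPQ.D.BForm

/-!
# D/MaxP: the maximum principle on a finite set of vertices

PROOF of `max_principle`. `S` is finite and nonempty; let `M` be the maximum of `u` on `S` (attained). Suppose that every
`y ∈ S` with `k y ∉ S` has `u (k y) < u x` (`≤ M`). `T = {z ∈ S | u z = M}` is finite, nonempty, a set of vertices (`VSet`).
Test the harmonicity with `g = 1_T` (`RInv`, finite support inside `S`): `∑_{z ∈ T} d u z = 0`, that is
`∑_{z ∈ T} (u (k z) - M) = 0`. Every term is `≤ 0` (if `k z ∈ S` by maximality, if `k z ∉ S` strictly, by assumption). So all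
the terms vanish: for `z ∈ T`: `k z ∈ S` and `u (k z) = M`, so `k z ∈ T`. `T` is closed under `k`; by `exit` (Basic) `T` is
everything, but `T ⊆ S ≠ X`. Contradiction.
`min_principle`: apply `max_principle` to `-u` (`HarmOn.neg`).
-/

namespace UIPQ.D

variable {X : Type} {m : CMap X}

theorem max_principle (hc : m.Connected) {S : Set X} (hS : S.Finite) (hV : m.VSet S)
    (hne : ∃ y, y ∉ S) {u : X → ℝ} (hu : m.RInv u) (hh : m.HarmOn S u) {x : X} (hx : x ∈ S) :
    ∃ y ∈ S, m.k y ∉ S ∧ u x ≤ u (m.k y) := by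
  classical
  by_contra hcon
  have hout : ∀ y ∈ S, m.k y ∉ S → u (m.k y) < u x := by
    intro y hy hky
    by_contra h
    exact hcon ⟨y, hy, hky, not_lt.1 h⟩
  obtain ⟨z₀, hz₀, hmax⟩ := hS.exists_maximalFor u S ⟨x, hx⟩
  have hmax' : ∀ z ∈ S, u z ≤ u z₀ := by
    intro z hz
    rcases le_total (u z) (u z₀) with h | h
    · exact h
    · exact hmax hz h
  set T : Set X := {z | z ∈ S ∧ u z = u z₀} with hT
  have hTS : T ⊆ S := fun z hz => hz.1
  have hTfin : T.Finite := hS.subset hTS
  have hTV : m.VSet T := by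
    intro z
    show (m.r z ∈ S ∧ u (m.r z) = u z₀) ↔ (z ∈ S ∧ u z = u z₀)
    rw [hV z, hu z]
  have hsupp : Function.support (T.indicator (fun _ => (1 : ℝ))) ⊆ T :=
    Set.support_indicator_subset
  have hsum := hh (T.indicator fun _ => (1 : ℝ)) (by
      intro z
      by_cases hz : z ∈ T
      · rw [Set.indicator_of_mem hz, Set.indicator_of_mem ((hTV z).2 hz)]
      · rw [Set.indicator_of_notMem hz, Set.indicator_of_notMem (fun h => hz ((hTV z).1 h))])
    (hTfin.subset hsupp) (hsupp.trans hTS)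
  have hdle : ∀ z ∈ T, m.d u z ≤ 0 := by
    intro z hz
    unfold CMap.d
    by_cases hk : m.k z ∈ S
    · have := hmax' _ hk
      rw [hz.2]
      linarith
    · have h1 := hout z hz.1 hk
      have h2 := hmax' x hx
      rw [hz.2]
      linarith
  have hsum2 : ∑ z ∈ hTfin.toFinset, m.d u z = 0 := by
    rw [← hsum, finsum_eq_sum_of_support_subset _ (s := hTfin.toFinset)]
    · refine Finset.sum_congr rfl fun z hz => ?_
      rw [Set.indicator_of_mem (hTfin.mem_toFinset.1 hz), one_mul]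
    · intro z hz
      rw [Set.Finite.coe_toFinset]
      by_contra h
      apply hz
      show T.indicator (fun _ => (1 : ℝ)) z * m.d u z = 0
      rw [Set.indicator_of_notMem h, zero_mul]
  have hzero : ∀ z ∈ T, m.d u z = 0 := by
    intro z hz
    exact (Finset.sum_eq_zero_iff_of_nonpos fun z hz => hdle z (hTfin.mem_toFinset.1 hz)).1 hsum2 z
      (hTfin.mem_toFinset.2 hz)
  obtain ⟨y, hy⟩ := hne
  obtain ⟨z, hz, hkz⟩ := exit hc hTV (show z₀ ∈ T from ⟨hz₀, rfl⟩) (fun h => hy (hTS h) : y ∉ T)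
  apply hkz
  have h1 : u (m.k z) = u z₀ := by
    have h2 := hzero z hz
    unfold CMap.d at h2
    rw [← hz.2]
    linarith
  refine ⟨?_, h1⟩
  by_contra hk
  have h3 := hout z hz.1 hk
  have h4 := hmax' x hx
  rw [h1] at h3
  linarith

theorem min_principle (hc : m.Connected) {S : Set X} (hS : S.Finite) (hV : m.VSet S)
    (hne : ∃ y, y ∉ S) {u : X → ℝ} (hu : m.RInv u) (hh : m.HarmOn S u) {x : X} (hx : x ∈ S) :
    ∃ y ∈ S, m.k y ∉ S ∧ u (m.k y) ≤ u x := by
  obtain ⟨y, hy, hky, h⟩ := max_principle hc hS hV hne (u := fun x => - u x)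
    (fun z => congrArg Neg.neg (hu z)) (HarmOn.neg hh) hx
  exact ⟨y, hy, hky, neg_le_neg_iff.1 h⟩

end UIPQ.D
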