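import Pool.Agent.Lib.UIPQ.D.MaxP
import Pool.Agent.Lib.UIPQ.D.Dirich

/-!
# D/PotA: the equilibrium potential of a finite set, normalised by total flux one

PROOF. `φ` from `dirichlet`, `T = {x ∈ S | ¬ SameCycle x₀ x}`, `e = B φ φ`. (`φ` has support in `S`: finite, so `DFin`.)
(1) `0 ≤ φ ≤ 1`: on `T` by `max_principle`, `min_principle` (the exits of `T` are to the orbit of `x₀`, where `φ = 1`, or outside
`S`, where `φ = 0`; `T` finite, a set of vertices, harmonic on `T`).
(2) for `w` `RInv` with `w x₀ = 1`, `w = 0` off `S`: `w - φ` has support in `T` (value `0` on the orbit of `x₀`), so `B φ (w - φ) = 0`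
(`B_test`, `B_comm`), `B φ w = e`; by `B_cs` `e ^ 2 ≤ e * B w w`, so `e ≤ B w w` if `e > 0`. `e > 0`: otherwise `d φ = 0` everywhere
(`d_eq_zero_of_B`), `φ` is constant (`const_of_conn`), but it is `1` at `x₀` and `0` at a point off `S`.
(3) `R = 1/e`, `h = R - R * φ` (so `h x₀ = 0`, `h = R` off `S`, `0 ≤ h ≤ R`, harmonic on `T`: `HarmOn.affine`).
(4) for `w` `RInv` with `w x₀ = 0` and `w = c` off `S`: `B h w = c`. Indeed `w' = c - w` is `0` off `S` and `c` at `x₀`; `w' - c φ` has support
in `T`, so `B φ w' = c * e`; `B h w = - R * B φ w = R * B φ w' = c` (`B φ const = 0`).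
(5) `w = clip a b ∘ h - a`, `0 ≤ a ≤ b ≤ R`: `w x₀ = 0`, `w = b - a` off `S`: `B h (clip a b ∘ h) = b - a`. By `clip_d` and `B_le_of_d`:
`B (clip∘h) (clip∘h) ≤ b - a`: this is `clipE` (multiply by 2).
(6) `|d h x| ≤ 1`: by `d_k` we may assume `h x < h (k x)`; `a = h x`, `b = h (k x)`, `w = clip a b ∘ h`: the darts `x` and `k x` both
contribute `(b-a)^2` to the sum `2 * B h w = 2 (b-a)`, all terms are `≥ 0` (`clip_d`): `2 (b-a)^2 ≤ 2 (b-a)`. (Use `B_eq_sum` with a finset
containing `x`, `k x`; or `d_mul_le_B` only gives `(b-a)^2 ≤ (b-a)` as well: `d h x * d w x = (b-a)^2 ≤ B h w = b - a`... here `d_mul_le_B` is stated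
with the factor: one edge has two darts.)
(7) the last property: `1/R = e ≤ B w w`, and `B w w = (∑ᶠ (d w x)^2) / 2`.
-/

namespace UIPQ.D

variable {X : Type} {m : CMap X}

theorem potA (hc : m.Connected) {S : Set X} (hS : S.Finite) (hV : m.VSet S)
    (hne : ∃ y, y ∉ S) {x₀ : X} (hx₀ : x₀ ∈ S) :
    ∃ (R : ℝ) (h : X → ℝ), 0 < R ∧ m.RInv h ∧ h x₀ = 0 ∧ (∀ x, 0 ≤ h x ∧ h x ≤ R) ∧
      (∀ x, x ∉ S → h x = R) ∧ m.HarmOn {x | x ∈ S ∧ ¬ m.r.SameCycle x₀ x} h ∧
      (∀ x, |m.d h x| ≤ 1) ∧
      (∀ a b, 0 ≤ a → a ≤ b → b ≤ R →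
        ∑ᶠ x, (m.d (fun y => clip a b (h y)) x) ^ 2 ≤ 2 * (b - a)) ∧
      (∀ w : X → ℝ, m.RInv w → w x₀ = 1 → (∀ x, x ∉ S → w x = 0) →
        1 / R ≤ (∑ᶠ x, (m.d w x) ^ 2) / 2) := by
  classical
  obtain ⟨φ, hφr, hφ0, hφS, hφh⟩ := dirichlet hc hS hV hne hx₀
  set T : Set X := {x | x ∈ S ∧ ¬ m.r.SameCycle x₀ x} with hT
  have hTf : T.Finite := hS.subset fun x hx => hx.1
  have hTV : m.VSet T := by
    intro z
    show (m.r z ∈ S ∧ ¬ m.r.SameCycle x₀ (m.r z)) ↔ (z ∈ S ∧ ¬ m.r.SameCycle x₀ z)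
    rw [hV z, Equiv.Perm.sameCycle_apply_right]
  have hTne : ∃ y, y ∉ T := ⟨x₀, fun h => h.2 (Equiv.Perm.SameCycle.refl _ _)⟩
  have hφT : ∀ x, x ∉ T → φ x = 0 ∨ φ x = 1 := by
    intro x hx
    by_cases hxS : x ∈ S
    · right
      have h1 : m.r.SameCycle x₀ x := by
        by_contra h
        exact hx ⟨hxS, h⟩
      rw [← rinv_sameCycle hφr h1, hφ0]
    · exact Or.inl (hφS x hxS)
  have hφfin : (Function.support φ).Finite := by
    refine hS.subset fun x hx => ?_
    by_contra h
    exact hx (hφS x h)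
  have hφd : m.DFin φ := dfin_of_finite hφfin
  have hφ01 : ∀ x, 0 ≤ φ x ∧ φ x ≤ 1 := by
    intro x
    by_cases hx : x ∈ T
    · obtain ⟨y, _, hy2, hy3⟩ := max_principle hc hTf hTV hTne hφr hφh hx
      obtain ⟨z, _, hz2, hz3⟩ := min_principle hc hTf hTV hTne hφr hφh hx
      constructor
      · rcases hφT _ hz2 with h | h <;> rw [h] at hz3 <;> linarith
      · rcases hφT _ hy2 with h | h <;> rw [h] at hy3 <;> linarith
    · rcases hφT _ hx with h | h <;> rw [h] <;> constructor <;> norm_num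
  set e : ℝ := m.B φ φ with he
  have key : ∀ (w : X → ℝ) (c : ℝ), m.RInv w → w x₀ = c → (∀ x, x ∉ S → w x = 0) →
      m.DFin w ∧ m.B φ w = c * e := by
    intro w c hw hw0 hwS
    have hwfin : (Function.support w).Finite := by
      refine hS.subset fun x hx => ?_
      by_contra h
      exact hx (hwS x h)
    have hwd : m.DFin w := dfin_of_finite hwfin
    refine ⟨hwd, ?_⟩
    have hsup : Function.support (fun x => w x - c * φ x) ⊆ T := by
      intro x hx
      by_contra h
      apply hx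
      show w x - c * φ x = 0
      by_cases hxS : x ∈ S
      · have h1 : m.r.SameCycle x₀ x := by
          by_contra h2
          exact h ⟨hxS, h2⟩
        rw [← rinv_sameCycle hφr h1, ← rinv_sameCycle hw h1, hφ0, hw0]
        ring
      · rw [hwS x hxS, hφS x hxS]
        ring
    have h1 : m.B φ (fun x => w x - c * φ x) = 0 := by
      refine B_test hφh ?_ (hTf.subset hsup) hsup
      intro x
      show w (m.r x) - c * φ (m.r x) = w x - c * φ x
      rw [hw x, hφr x]
    rw [B_sub_right hwd (DFin.smul' c hφd), B_smul_right c hφd] at h1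
    linarith
  have hepos : 0 < e := by
    by_contra hcon
    have h1 : ∀ x, m.d φ x = 0 := d_eq_zero_of_B hφd (not_lt.1 hcon)
    obtain ⟨y, hy⟩ := hne
    have h2 := const_of_conn hc φ hφr (fun x => sub_eq_zero.1 (h1 x)) x₀ y
    rw [hφ0, hφS y hy] at h2
    exact one_ne_zero h2
  set R : ℝ := 1 / e with hR
  have hRpos : 0 < R := by positivity
  have hRe : R * e = 1 := by rw [hR]; field_simp
  set h : X → ℝ := fun x => R + (-R) * φ x with hh
  have hhr : m.RInv h := by
    intro x
    show R + (-R) * φ (m.r x) = R + (-R) * φ x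
    rw [hφr x]
  have hh0 : h x₀ = 0 := by
    show R + (-R) * φ x₀ = 0
    rw [hφ0]
    ring
  have hhS : ∀ x, x ∉ S → h x = R := by
    intro x hx
    show R + (-R) * φ x = R
    rw [hφS x hx]
    ring
  have hhb : ∀ x, 0 ≤ h x ∧ h x ≤ R := by
    intro x
    have h1 := hφ01 x
    constructor
    · show 0 ≤ R + (-R) * φ x
      nlinarith
    · show R + (-R) * φ x ≤ R
      nlinarith
  -- the flux property
  have hflux : ∀ (w : X → ℝ) (c : ℝ), m.RInv w → w x₀ = 0 → (∀ x, x ∉ S → w x = c) →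
      m.DFin w ∧ m.B h w = c := by
    intro w c hw hw0 hwS
    obtain ⟨hd, hB⟩ := key (fun x => c - w x) c
      (fun x => by show c - w (m.r x) = c - w x; rw [hw x])
      (by show c - w x₀ = c; rw [hw0, sub_zero])
      (fun x hx => by show c - w x = 0; rw [hwS x hx, sub_self])
    have hweq : w = fun x => c - (fun x => c - w x) x := by
      funext x
      show w x = c - (c - w x)
      ring
    have hwd : m.DFin w := by
      rw [hweq]
      exact DFin.sub' (dfin_const c) hd
    have h1 : m.B φ w = - (c * e) := by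
      conv_lhs => rw [hweq]
      rw [B_sub_right (dfin_const c) hd, B_const_right, hB]
      ring
    refine ⟨hwd, ?_⟩
    have h2 : m.B h w = m.B (fun _ => R) w + m.B (fun x => (-R) * φ x) w :=
      B_add_left (fun _ => R) (fun x => (-R) * φ x) hwd
    rw [h2, B_smul_left _ hwd, B_comm m (fun _ => R) w, B_const_right, h1]
    calc 0 + -R * -(c * e) = c * (R * e) := by ring
      _ = c := by rw [hRe, mul_one]
  -- clipping
  have hclip : ∀ a b, 0 ≤ a → a ≤ b → b ≤ R →
      m.DFin (fun y => clip a b (h y)) ∧ m.B h (fun y => clip a b (h y)) = b - a := by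
    intro a b ha hab hb
    obtain ⟨hd, hB⟩ := hflux (fun y => clip a b (h y) - a) (b - a)
      (fun x => by show clip a b (h (m.r x)) - a = clip a b (h x) - a; rw [hhr x])
      (by
        show clip a b (h x₀) - a = 0
        rw [hh0]
        unfold clip
        rw [min_eq_right (ha.trans hab), max_eq_left ha, sub_self])
      (fun x hx => by
        show clip a b (h x) - a = b - a
        rw [hhS x hx]
        unfold clip
        rw [min_eq_left hb, max_eq_right hab])
    have h1 : ∀ x, m.d (fun y => clip a b (h y) - a) x = m.d (fun y => clip a b (h y)) x := by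
      intro x
      unfold CMap.d
      ring
    constructor
    · unfold CMap.DFin at hd ⊢
      have h2 : m.d (fun y => clip a b (h y) - a) = m.d (fun y => clip a b (h y)) := funext h1
      rwa [h2] at hd
    · rw [← hB]
      unfold CMap.B
      simp only [h1]
  have hBsq : ∀ w : X → ℝ, m.B w w = (∑ᶠ x, (m.d w x) ^ 2) / 2 := by
    intro w
    unfold CMap.B
    congr 1
    exact finsum_congr fun x => (sq _).symm
  have hlip1 : ∀ x, h x < h (m.k x) → m.d h x ≤ 1 := by
    intro x hx
    obtain ⟨hd, hB⟩ := hclip (h x) (h (m.k x)) (hhb x).1 hx.le (hhb _).2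
    have h1 := d_mul_le_B (u := h) hd
      (fun y => (sq_nonneg _).trans (clip_d (m := m) (h x) (h (m.k x)) hx.le h y)) x
    rw [hB] at h1
    have h2 : m.d (fun y => clip (h x) (h (m.k x)) (h y)) x = h (m.k x) - h x := by
      show clip (h x) (h (m.k x)) (h (m.k x)) - clip (h x) (h (m.k x)) (h x) = _
      unfold clip
      rw [min_self, max_eq_right hx.le, min_eq_right hx.le, max_self]
    rw [h2] at h1
    unfold CMap.d at h1 ⊢
    have h3 : 0 < h (m.k x) - h x := sub_pos.2 hx
    nlinarith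
  refine ⟨R, h, hRpos, hhr, hh0, hhb, hhS, HarmOn.affine R (-R) hφh, ?_, ?_, ?_⟩
  · intro x
    rcases lt_trichotomy (h x) (h (m.k x)) with hlt | heq | hgt
    · have h1 := hlip1 x hlt
      have h2 : 0 < m.d h x := sub_pos.2 hlt
      rw [abs_of_pos h2]
      exact h1
    · have h2 : m.d h x = 0 := sub_eq_zero.2 heq.symm
      rw [h2, abs_zero]
      norm_num
    · have h1 := hlip1 (m.k x) (by rw [m.k_k]; exact hgt)
      rw [d_k] at h1
      have h2 : m.d h x < 0 := sub_neg.2 hgt
      rw [abs_of_neg h2]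
      exact h1
  · intro a b ha hab hb
    obtain ⟨hd, hB⟩ := hclip a b ha hab hb
    have h1 := B_le_of_d (u := h) hd (fun y => clip_d (m := m) a b hab h y)
    rw [hB, hBsq] at h1
    linarith
  · intro w hw hw0 hwS
    obtain ⟨hd, hB⟩ := key w 1 hw hw0 hwS
    have h1 := B_cs hφd hd
    rw [hB, one_mul, ← he] at h1
    rw [← hBsq]
    have h2 : 1 / R = e := by rw [hR, one_div_one_div]
    rw [h2]
    by_contra hcon
    rw [not_le] at hcon
    nlinarith

end UIPQ.D
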