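import Pool.Agent.Lib.UIPQ.D.PotA
import Pool.Agent.Lib.UIPQ.D.Bal

/-!
# D/PotB: the potential of the ball of radius `n`

PROOF. `S = hull m (ballDarts x₀ n)`: finite, a set of vertices, contains the ball and `x₀`; `X` is infinite, so some `y ∉ S`. Take
`R, h` from `potA`. `T = {x ∈ S | ¬ SameCycle x₀ x}`.
`1/e ≤ R`: the function `w` of `LowCond` vanishes off the ball, so off `S`; `1/R ≤ (∑ᶠ (d w x)^2)/2 ≤ e` (`(w x - w (k x))^2 = (d w x)^2`).
`fin`: `{h < R} ⊆ S`.
`conn`: `0 ≤ t < R`, `x ∈ dn h t`; `dn h t` is a set of vertices contained in `S`. Let `C = {w | Joined (dn h t) x w}`, finite, VSet. If `x₀ ∈ C`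
we are done (`symm'`). Otherwise `C ⊆ T` (a point of the orbit of `x₀` in `C` would give `x₀ ∈ C`, `vset_sameCycle`), `h` is harmonic on `C`,
`min_principle`: there is `y ∈ C` with `k y ∉ C` and `h (k y) ≤ h x ≤ t`; but then `k y ∈ dn h t`, so `k y ∈ C` (`comp_k`): contradiction.
`inf`: `x ∈ up h t`, `C = {w | Joined (up h t) x w}`; suppose `C` finite. `x₀ ∉ C` (`h x₀ = 0 ≤ t`), also no point of its orbit. `C ⊆ S`: if
`y ∈ C`, `y ∉ S`, then `{w | Joined Sᶜ y w}` is infinite (`hull_inf`) and `Sᶜ ⊆ up h t` (there `h = R > t`), so it is contained in `C`: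
contradiction. So `h` is harmonic on the finite VSet `C`; `max_principle`: `y ∈ C`, `k y ∉ C`, `h x ≤ h (k y)`, so `k y ∈ up h t`, so `k y ∈ C`:
contradiction.
Last property: let `h x < R`, so `x ∈ S`. If `x` is in the ball nothing to prove. Otherwise `hull_exit`: finite VSet `C ∋ x` inside `S`
whose exits lead to the ball; `max_principle` and `min_principle` for `u` on `C` give `|u x| ≤ M`.
-/

namespace UIPQ.D

variable {X : Type} {m : CMap X}

theorem exists_pot [Infinite X] (hc : m.Connected) (hm : m.LocFinite) (x₀ : X) (n : ℕ) (e : ℝ)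
    (he : 0 < e) (hL : m.LowCond x₀ n e) :
    ∃ (R : ℝ) (h : X → ℝ), 1 / e ≤ R ∧ m.Pot x₀ R h ∧
      ∀ (u : X → ℝ) (M : ℝ), m.RInv u → m.HarmOn Set.univ u →
        (∀ x ∈ m.ballDarts x₀ n, |u x| ≤ M) → ∀ x, h x < R → |u x| ≤ M := by
  have hbf := ballDarts_finite hm x₀ n
  have hbv := ballDarts_vset m x₀ n
  have hbne : (m.ballDarts x₀ n).Nonempty := ⟨x₀, ballDarts_self m x₀ n⟩
  have hS : (hull m (m.ballDarts x₀ n)).Finite := hull_finite hc hbf hbv hbne
  have hSV : m.VSet (hull m (m.ballDarts x₀ n)) := hull_vset hbv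
  obtain ⟨y₀, hy₀⟩ : ∃ y, y ∉ hull m (m.ballDarts x₀ n) := hS.infinite_compl.nonempty
  have hx₀ : x₀ ∈ hull m (m.ballDarts x₀ n) := Or.inl (ballDarts_self m x₀ n)
  obtain ⟨R, h, hR, hr, h0, hb, hout, hharm, hlip, hclip, hcap⟩ :=
    potA hc hS hSV ⟨y₀, hy₀⟩ hx₀
  refine ⟨R, h, ?_, ⟨hR, hr, h0, fun x => (hb x).1, fun x => (hb x).2, ?_, hlip, hclip, ?_, ?_⟩, ?_⟩
  · obtain ⟨w, hw, hw0, hwout, hwe⟩ := hL
    have h1 := hcap w hw hw0 (fun x hx => hwout x (fun hxb => hx (Or.inl hxb)))
    have h2 : (∑ᶠ x, (m.d w x) ^ 2) = ∑ᶠ x, (w x - w (m.k x)) ^ 2 := by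
      refine finsum_congr (fun x => ?_)
      unfold CMap.d
      ring
    rw [h2] at h1
    exact (one_div_le he hR).2 (h1.trans hwe)
  · refine hS.subset (fun x hx => ?_)
    by_contra hxS
    have h1 : h x < R := hx
    rw [hout x hxS] at h1
    exact lt_irrefl _ h1
  · intro t ht htR x hx
    have hV : m.VSet (dn h t) := by
      intro y
      have h1 : h (m.r y) = h y := hr y
      show h (m.r y) ≤ t ↔ h y ≤ t
      rw [h1]
    have hdS : dn h t ⊆ hull m (m.ballDarts x₀ n) := by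
      intro y hy
      by_contra hyS
      have h1 : h y ≤ t := hy
      rw [hout y hyS] at h1
      exact absurd htR (not_lt.2 h1)
    by_contra hcon
    have hCsub : {w | m.Joined (dn h t) x w} ⊆ dn h t := comp_sub hx
    have hCfin : {w | m.Joined (dn h t) x w}.Finite := hS.subset (hCsub.trans hdS)
    have hCV : m.VSet {w | m.Joined (dn h t) x w} := comp_vset hV hx
    have hCT : {w | m.Joined (dn h t) x w} ⊆
        {x | x ∈ hull m (m.ballDarts x₀ n) ∧ ¬ m.r.SameCycle x₀ x} := by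
      intro y hy
      refine ⟨hdS (hCsub hy), fun hs => hcon ?_⟩
      have h1 : x₀ ∈ {w | m.Joined (dn h t) x w} := vset_sameCycle hCV hy hs.symm
      exact Joined.symm' h1
    obtain ⟨y, hyC, hyk, hle⟩ := min_principle hc hCfin hCV
      ⟨y₀, fun hy => hy₀ (hdS (hCsub hy))⟩ hr (HarmOn.mono hCT hharm)
      (x := x) (show x ∈ {w | m.Joined (dn h t) x w} from joined_refl)
    have hkd : m.k y ∈ dn h t := le_trans hle hx
    exact hyk (comp_k hx hyC hkd)
  · intro t ht htR x hx hfin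
    have hV : m.VSet (up h t) := by
      intro y
      have h1 : h (m.r y) = h y := hr y
      show t < h (m.r y) ↔ t < h y
      rw [h1]
    have hSup : (hull m (m.ballDarts x₀ n))ᶜ ⊆ up h t := by
      intro y hy
      show t < h y
      rw [hout y hy]
      exact htR
    have hCsub : {w | m.Joined (up h t) x w} ⊆ up h t := comp_sub hx
    have hCV : m.VSet {w | m.Joined (up h t) x w} := comp_vset hV hx
    have hCT : {w | m.Joined (up h t) x w} ⊆
        {x | x ∈ hull m (m.ballDarts x₀ n) ∧ ¬ m.r.SameCycle x₀ x} := by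
      intro y hy
      refine ⟨?_, fun hs => ?_⟩
      · by_contra hyS
        have h1 := hull_inf hbv hyS
        refine h1 (hfin.subset (fun w hw => ?_))
        exact Joined.trans' hy (Joined.mono' hSup hw)
      · have h1 : h x₀ = h y := rinv_sameCycle hr hs
        have h2 : t < h y := hCsub hy
        rw [← h1, h0] at h2
        exact absurd ht (not_le.2 h2)
    obtain ⟨y, hyC, hyk, hle⟩ := max_principle hc hfin hCV
      ⟨y₀, fun hy => hy₀ (hCT hy).1⟩ hr (HarmOn.mono hCT hharm)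
      (x := x) (show x ∈ {w | m.Joined (up h t) x w} from joined_refl)
    have hxt : t < h x := hx
    have hkd : m.k y ∈ up h t := lt_of_lt_of_le hxt hle
    exact hyk (comp_k hx hyC hkd)
  · intro u M hu hharmu hM x hx
    have hxS : x ∈ hull m (m.ballDarts x₀ n) := by
      by_contra hxS
      rw [hout x hxS] at hx
      exact lt_irrefl _ hx
    by_cases hxb : x ∈ m.ballDarts x₀ n
    · exact hM x hxb
    · obtain ⟨C, hxC, hCfin, hCV, hCS, hdisj, hexit⟩ := hull_exit hbv hxS hxb
      have hneC : ∃ y, y ∉ C := ⟨y₀, fun hy => hy₀ (hCS hy)⟩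
      have hhC : m.HarmOn C u := HarmOn.mono (Set.subset_univ C) hharmu
      obtain ⟨y, hyC, hyk, hle⟩ := max_principle hc hCfin hCV hneC hu hhC hxC
      obtain ⟨z, hzC, hzk, hle'⟩ := min_principle hc hCfin hCV hneC hu hhC hxC
      have h1 := hM _ (hexit y hyC hyk)
      have h2 := hM _ (hexit z hzC hzk)
      rw [abs_le] at h1 h2 ⊢
      constructor
      · exact h2.1.trans hle'
      · exact hle.trans h1.2

end UIPQ.D
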