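import Pool.Agent.Lib.UIPQ.D.Bal

/-!
# D/PotC: first consequences of the properties of the potential

PROOFS. `up_vset`, `dn_vset`: `h (r x) = h x`. `dn_finite`: `t < R`, `dn h t ⊆ {h < R}`.
`ball_le`: induction on `j` with `ballDarts_succ`, `lip`, `rinv_sameCycle`.
`comp_up_inter`: the component of `x` in `up h t1` is infinite (`inf`), `dn h t2` is finite: there is a point of the component in `up h t2`.
`two_mono`: `x, y ∈ up h t` not joined; choose `x', y'` in their components with `h x', h y' > t'`; if `x', y'` were joined in `up h t'`, they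
would be joined in the larger set `up h t`, so `x` and `y` too.
`level_comp`: choose `x'` by `comp_up_inter`. Let `y` be joined to `x` in `up h t1`, `y ∈ up h t2`, and suppose that `x'` and `y` are not joined in
`up h t2`. Then `Two h t2`, so by hypothesis `Two h t1`: there are `p, q ∈ up h t1` not joined; at least one of them, call it `z`, is not joined
to `x` in `up h t1`. Choose `z'` joined to `z` in `up h t1` with `z' ∈ up h t2`. `TwoEnds` for `D = dn h t2` (finite, VSet, `Dᶜ = up h t2`) and the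
points `x', y, z'` (their components are infinite by `inf`): two of them are joined in `up h t2`; `x', y` are not; if `x', z'` or `y, z'` are, then
`x` and `z` are joined in `up h t1`: contradiction.
`comp_low`: the component `C` of `x` in `up h t` does not contain `x₀`; by `comp_exit` there is `z ∈ C` with `k z ∉ up h t`, so `h (k z) ≤ t` and by `lip`
`h z ≤ t + 1`: `p = z`.
-/

namespace UIPQ.D

variable {X : Type} {m : CMap X} {x₀ : X} {R : ℝ} {h : X → ℝ}

theorem up_compl (h : X → ℝ) (t : ℝ) : (dn h t)ᶜ = up h t := by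
  ext x
  show ¬ (h x ≤ t) ↔ t < h x
  exact not_le

private theorem not_dn_iff {h : X → ℝ} {t : ℝ} {x : X} : x ∉ dn h t ↔ x ∈ up h t := by
  rw [← up_compl]
  rfl

theorem Pot.up_vset (P : m.Pot x₀ R h) (t : ℝ) : m.VSet (up h t) := by
  intro x
  show t < h (m.r x) ↔ t < h x
  rw [P.rinv x]

theorem Pot.dn_vset (P : m.Pot x₀ R h) (t : ℝ) : m.VSet (dn h t) := by
  intro x
  show h (m.r x) ≤ t ↔ h x ≤ t
  rw [P.rinv x]

theorem Pot.dn_finite (P : m.Pot x₀ R h) {t : ℝ} (ht : t < R) : (dn h t).Finite := by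
  refine P.fin.subset fun x hx => ?_
  exact lt_of_le_of_lt (show h x ≤ t from hx) ht

theorem Pot.le_add (P : m.Pot x₀ R h) (x : X) : h (m.k x) ≤ h x + 1 := by
  have h1 : |h (m.k x) - h x| ≤ 1 := P.lip x
  have h2 := (abs_le.1 h1).2
  linarith

theorem Pot.ball_le (P : m.Pot x₀ R h) (j : ℕ) {x : X} (hx : x ∈ m.ballDarts x₀ j) :
    h x ≤ j := by
  induction j generalizing x with
  | zero =>
    rw [ballDarts_zero] at hx
    have h1 := rinv_sameCycle P.rinv hx
    rw [← h1, P.zero]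
    simp
  | succ j ih =>
    rw [ballDarts_succ] at hx
    push_cast
    rcases hx with hx | ⟨z, hz, hx⟩
    · have := ih hx
      linarith
    · have h1 := rinv_sameCycle P.rinv hx
      have h2 := ih hz
      have h3 := Pot.le_add P z
      linarith

theorem Pot.cr_finite (P : m.Pot x₀ R h) {t : ℝ} (ht : t < R) : (m.Cr h t).Finite := by
  have h1 := Pot.dn_finite P ht
  have h2 : (m.k ⁻¹' dn h t).Finite := by
    refine h1.preimage ?_
    intro a _ b _ hab
    have := congrArg m.k hab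
    rwa [m.k_k, m.k_k] at this
  refine (h1.union h2).subset fun x hx => ?_
  by_contra hcon
  have h3 : ¬ (h x ≤ t) := fun h' => hcon (Or.inl h')
  have h4 : ¬ (h (m.k x) ≤ t) := fun h' => hcon (Or.inr h')
  exact hx ⟨fun _ => not_le.1 h4, fun _ => not_le.1 h3⟩

theorem Pot.comp_up_inter (P : m.Pot x₀ R h) {t1 t2 : ℝ} (h0 : 0 ≤ t1) (h12 : t1 ≤ t2)
    (h2R : t2 < R) {x : X} (hx : x ∈ up h t1) :
    ∃ x', x' ∈ up h t2 ∧ m.Joined (up h t1) x x' := by
  have h1 := P.inf t1 h0 (lt_of_le_of_lt h12 h2R) x hx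
  obtain ⟨w, hw1, hw2⟩ := (h1.sdiff (Pot.dn_finite P h2R)).nonempty
  exact ⟨w, not_dn_iff.1 hw2, hw1⟩

theorem Pot.two_mono (P : m.Pot x₀ R h) {t t' : ℝ} (h0 : 0 ≤ t) (htt : t ≤ t') (hR : t' < R)
    (hT : m.Two h t) : m.Two h t' := by
  obtain ⟨x, y, hx, hy, hn⟩ := hT
  obtain ⟨x', hx', hxx⟩ := Pot.comp_up_inter P h0 htt hR hx
  obtain ⟨y', hy', hyy⟩ := Pot.comp_up_inter P h0 htt hR hy
  refine ⟨x', y', hx', hy', fun hj => hn ?_⟩
  have h1 : m.Joined (up h t) x' y' := Joined.mono' (fun z hz => lt_of_le_of_lt htt hz) hj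
  exact Joined.trans' hxx (Joined.trans' h1 (Joined.symm' hyy))

theorem Pot.level_comp (P : m.Pot x₀ R h) (hE : m.TwoEnds) {t1 t2 : ℝ} (h0 : 0 ≤ t1)
    (h12 : t1 ≤ t2) (h2R : t2 < R) (hT : m.Two h t1 ∨ ¬ m.Two h t2) {x : X} (hx : x ∈ up h t1) :
    ∃ x', x' ∈ up h t2 ∧ m.Joined (up h t1) x x' ∧
      ∀ y, m.Joined (up h t1) x y → y ∈ up h t2 → m.Joined (up h t2) x' y := by
  obtain ⟨x', hx', hxx⟩ := Pot.comp_up_inter P h0 h12 h2R hx
  refine ⟨x', hx', hxx, fun y hxy hy => ?_⟩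
  by_contra hn
  have hT2 : m.Two h t2 := ⟨x', y, hx', hy, hn⟩
  have hT1 : m.Two h t1 := by
    rcases hT with hT | hT
    · exact hT
    · exact absurd hT2 hT
  obtain ⟨z, hz, hxz⟩ : ∃ z, z ∈ up h t1 ∧ ¬ m.Joined (up h t1) x z := by
    obtain ⟨p, q, hp, hq, hpq⟩ := hT1
    by_cases hxp : m.Joined (up h t1) x p
    · exact ⟨q, hq, fun hxq => hpq (Joined.trans' (Joined.symm' hxp) hxq)⟩
    · exact ⟨p, hp, hxp⟩
  obtain ⟨z', hz', hzz⟩ := Pot.comp_up_inter P h0 h12 h2R hz
  have hmono : ∀ {a b : X}, m.Joined (up h t2) a b → m.Joined (up h t1) a b := fun hj =>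
    Joined.mono' (fun w hw => lt_of_le_of_lt h12 hw) hj
  have h0' : 0 ≤ t2 := h0.trans h12
  have hE' := hE (dn h t2) (Pot.dn_finite P h2R) (Pot.dn_vset P t2) x' y z'
    (not_dn_iff.2 hx') (not_dn_iff.2 hy) (not_dn_iff.2 hz')
  rw [up_compl] at hE'
  rcases hE' (P.inf t2 h0' h2R x' hx') (P.inf t2 h0' h2R y hy) (P.inf t2 h0' h2R z' hz') with
    hj | hj | hj
  · exact hn hj
  · exact hxz (Joined.trans' hxx (Joined.trans' (hmono hj) (Joined.symm' hzz)))
  · exact hxz (Joined.trans' hxy (Joined.trans' (hmono hj) (Joined.symm' hzz)))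

theorem Pot.comp_low (P : m.Pot x₀ R h) (hc : m.Connected) {t : ℝ} (h0 : 0 ≤ t) {x : X}
    (hx : x ∈ up h t) : ∃ p, m.Joined (up h t) x p ∧ h p ≤ t + 1 := by
  have hx₀ : x₀ ∉ up h t := by
    intro hh
    have h1 : t < h x₀ := hh
    rw [P.zero] at h1
    linarith
  have hn : ¬ m.Joined (up h t) x x₀ := fun hj => hx₀ (Joined.mem' hj hx)
  obtain ⟨z, hxz, hz, hkz⟩ := comp_exit hc (Pot.up_vset P t) hx hn
  refine ⟨z, hxz, ?_⟩
  have h1 : h (m.k z) ≤ t := not_lt.1 hkz
  have h2 : |h (m.k z) - h z| ≤ 1 := P.lip z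
  have h3 := (abs_le.1 h2).1
  linarith

end UIPQ.D
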