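import Pool.Agent.Lib.UIPQ.D.ChainL
import Pool.Agent.Lib.UIPQ.D.CutConn
import Pool.Agent.Lib.UIPQ.D.PotC
import Pool.Agent.Lib.UIPQ.D.BForm

/-!
# D/Ring: the oscillation of `u` on the boundary of a component above the level `t`

PROOF. `K = {w | Joined (up h t) x₁ w}`: a set of vertices (`comp_vset`), `K ⊆ up h t`, connected: `x, y ∈ K` are joined in `up h t`, and a path from
a point of `K` stays in `K`: prove `Joined (up h t) x w → Joined K x w` for `x ∈ K` by induction on the path.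
`Kᶜ` is connected: every `x ∉ K` is joined to `x₀` inside `Kᶜ`: if `h x ≤ t` by `P.conn` (`dn h t ⊆ Kᶜ`, `mono'`). If `h x > t`: the component `K'`
of `x` in `up h t` is disjoint from `K`, contained in `Kᶜ`; by `comp_exit` (with `y = x₀`, `x₀ ∉ up h t`) there is `z ∈ K'` with `k z ∉ up h t`; `x` is
joined to `z` inside `K' ⊆ Kᶜ`, then to `k z ∈ dn h t ⊆ Kᶜ` (`joined_k`), then to `x₀`.
`Bd K ⊆ Cr h t`: if `y ∈ K` and `k y ∉ K` then `k y ∉ up h t` (`comp_k`). So `Bd K` is finite (`cr_finite`).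
`cut_conn` gives a chain inside `Bd K` between `y` and `z`. With `ρ = rho u`: `|u a - u (k a)| = |d u a| ≤ ρ a`; `u (f a) = u (k a)` (`rinv_k`), so
`|u a - u (f a)| = |d u a|`, `|u a - u (f (f a))| ≤ |d u a| + |d u (f a)|`, etc., all `≤ ρ a ≤ ρ a + ρ b`. `chain_le` gives
`|u y - u z| ≤ 2 ∑ᶠ_{Bd K} ρ ≤ 2 ∑ᶠ_{Cr h t} ρ = L` (`ρ ≥ 0`, `finsum_mem` monotone in the set, `Cr h t` finite).
-/

namespace UIPQ.D

variable {X : Type} {m : CMap X} {x₀ : X} {R : ℝ} {h : X → ℝ}

private theorem ring_comp {S : Set X} {x y : X} (h : m.Joined S x y) :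
    m.Joined {w | m.Joined S x w} x y := by
  induction h with
  | refl => exact joined_refl
  | @tail b c hab hbc ih =>
    exact Relation.ReflTransGen.tail ih ⟨hab, Relation.ReflTransGen.tail hab hbc, hbc.2.2⟩

theorem bd_sub_cr {t : ℝ} {x₁ : X} (hx₁ : x₁ ∈ up h t) :
    m.Bd {w | m.Joined (up h t) x₁ w} ⊆ m.Cr h t := by
  intro y hy hiff
  apply hy
  constructor
  · intro h1
    exact comp_k hx₁ h1 (hiff.1 (Joined.mem' h1 hx₁))
  · intro h1
    have h2 : m.k (m.k y) ∈ up h t := by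
      rw [m.k_k]
      exact hiff.2 (Joined.mem' h1 hx₁)
    have h3 := comp_k hx₁ h1 h2
    rw [m.k_k] at h3
    exact h3

private theorem ring_step {u : X → ℝ} (hu : m.RInv u) (a b : X)
    (hab : b = m.k a ∨ b = m.f a ∨ b = m.f (m.f a) ∨ b = m.f (m.f (m.f a))) :
    |u a - u b| ≤ m.rho u a + m.rho u b := by
  have q1 : u (m.k a) = u a + m.d u a := by unfold CMap.d; ring
  have q2 : u (m.f a) = u a + m.d u a := by rw [← rinv_k hu]; exact q1
  have q3 : u (m.f (m.f a)) = u (m.f a) + m.d u (m.f a) := by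
    rw [← rinv_k hu (m.f a)]; unfold CMap.d; ring
  have q4 : u (m.f (m.f (m.f a))) = u (m.f (m.f a)) + m.d u (m.f (m.f a)) := by
    rw [← rinv_k hu (m.f (m.f a))]; unfold CMap.d; ring
  have hb : 0 ≤ m.rho u b := by unfold CMap.rho; positivity
  have h1 := abs_nonneg (m.d u a)
  have h2 := abs_nonneg (m.d u (m.f a))
  have h3 := abs_nonneg (m.d u (m.f (m.f a)))
  have h4 := abs_nonneg (m.d u (m.f (m.f (m.f a))))
  have g1 := le_abs_self (m.d u a)
  have g2 := le_abs_self (m.d u (m.f a))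
  have g3 := le_abs_self (m.d u (m.f (m.f a)))
  have k1 := neg_abs_le (m.d u a)
  have k2 := neg_abs_le (m.d u (m.f a))
  have k3 := neg_abs_le (m.d u (m.f (m.f a)))
  have ha : m.rho u a = |m.d u a| + |m.d u (m.f a)| + |m.d u (m.f (m.f a))| +
    |m.d u (m.f (m.f (m.f a)))| := rfl
  rw [abs_le]
  rcases hab with h5 | h5 | h5 | h5
  · rw [← h5] at q1
    constructor <;> linarith
  · rw [← h5] at q2
    constructor <;> linarith
  · rw [← h5] at q3
    constructor <;> linarith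
  · rw [← h5] at q4
    constructor <;> linarith

theorem ring (hc : m.Connected) (h4 : ∀ x, m.f (m.f (m.f (m.f x))) = x) (hPL : m.PL)
    (P : m.Pot x₀ R h) {t : ℝ} (h0 : 0 ≤ t) (hR : t < R) {x₁ : X} (hx₁ : x₁ ∈ up h t)
    {u : X → ℝ} (hu : m.RInv u) :
    ∀ y ∈ m.Bd {w | m.Joined (up h t) x₁ w}, ∀ z ∈ m.Bd {w | m.Joined (up h t) x₁ w},
      |u y - u z| ≤ m.L h t u := by
  classical
  have hV : m.VSet {w | m.Joined (up h t) x₁ w} := comp_vset (Pot.up_vset P t) hx₁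
  have hKsub : {w | m.Joined (up h t) x₁ w} ⊆ up h t := comp_sub hx₁
  have hdn : dn h t ⊆ {w | m.Joined (up h t) x₁ w}ᶜ := fun w hw hwK =>
    not_lt.2 (show h w ≤ t from hw) (show t < h w from hKsub hwK)
  have hx0 : h x₀ ≤ t := by rw [P.zero]; exact h0
  have hKc : ∀ x ∈ {w | m.Joined (up h t) x₁ w}, ∀ y ∈ {w | m.Joined (up h t) x₁ w},
      m.Joined {w | m.Joined (up h t) x₁ w} x y := fun x hx y hy =>
    Joined.trans' (Joined.symm' (ring_comp hx)) (ring_comp hy)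
  have hKc0 : ∀ x ∈ {w | m.Joined (up h t) x₁ w}ᶜ,
      m.Joined {w | m.Joined (up h t) x₁ w}ᶜ x x₀ := by
    intro x hx
    by_cases hxt : h x ≤ t
    · exact Joined.symm' (Joined.mono' hdn (P.conn t h0 hR x hxt))
    · have hxu : x ∈ up h t := not_le.1 hxt
      have hx0u : ¬ m.Joined (up h t) x x₀ := fun hj => by
        have h9 : x₀ ∈ up h t := Joined.mem' hj hxu
        exact not_lt.2 hx0 h9
      obtain ⟨z, hz, hzu, hkz⟩ := comp_exit hc (Pot.up_vset P t) hxu hx0u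
      have hK' : {w | m.Joined (up h t) x w} ⊆ {w | m.Joined (up h t) x₁ w}ᶜ :=
        fun w hw hwK => hx (Joined.trans' hwK (Joined.symm' hw))
      have h1 : m.Joined {w | m.Joined (up h t) x₁ w}ᶜ x z := Joined.mono' hK' (ring_comp hz)
      have hkz' : h (m.k z) ≤ t := not_lt.1 hkz
      have h2 : m.Joined {w | m.Joined (up h t) x₁ w}ᶜ z (m.k z) :=
        joined_k (hK' hz) (hdn hkz')
      exact Joined.trans' h1 (Joined.trans' h2
        (Joined.symm' (Joined.mono' hdn (P.conn t h0 hR _ hkz'))))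
  have hKc' : ∀ x ∈ {w | m.Joined (up h t) x₁ w}ᶜ, ∀ y ∈ {w | m.Joined (up h t) x₁ w}ᶜ,
      m.Joined {w | m.Joined (up h t) x₁ w}ᶜ x y := fun x hx y hy =>
    Joined.trans' (hKc0 x hx) (Joined.symm' (hKc0 y hy))
  have hfinC := Pot.cr_finite P hR
  have hsub : m.Bd {w | m.Joined (up h t) x₁ w} ⊆ m.Cr h t := bd_sub_cr hx₁
  have hfin : (m.Bd {w | m.Joined (up h t) x₁ w}).Finite := hfinC.subset hsub
  intro y hy z hz
  have hch := cut_conn h4 hPL hV hKc hKc' hfin hy hz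
  have hρ : ∀ x, 0 ≤ m.rho u x := fun x => by unfold CMap.rho; positivity
  have h1 := chain_le hfin (fun a b => b = m.k a ∨ b = m.f a ∨ b = m.f (m.f a) ∨
    b = m.f (m.f (m.f a))) u (m.rho u) hρ (fun a b hab _ _ => ring_step hu a b hab) hy hch
  refine h1.trans ?_
  unfold CMap.L
  refine mul_le_mul_of_nonneg_left ?_ (by norm_num)
  rw [finsum_mem_eq_finite_toFinset_sum _ hfin, finsum_mem_eq_finite_toFinset_sum _ hfinC]
  refine Finset.sum_le_sum_of_subset_of_nonneg ?_ fun i _ _ => hρ i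
  intro a ha
  rw [Set.Finite.mem_toFinset] at ha ⊢
  exact hsub ha

end UIPQ.D
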