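import Pool.Agent.Lib.UIPQ.D.Window
import Pool.Agent.Lib.UIPQ.D.Cacc

/-!
# D/Trace: the trace bound in a good window

PROOF. Choose `p : X → X` constant on the components of `up h (a+1)` with: for `x ∈ up h (a+1)`, `p x` is joined to `x` in `up h (a+1)` and
`h (p x) ≤ a + 2` (`comp_low`). (For instance `p x = sel {w | Joined (up h (a+1)) x w ∧ h w ≤ a + 2}` with `sel : Set X → X` a choice function:
the set is the same for joined points.) Apply `caccioppoli` to every `v i` and add. For a dart `x` of the sum with `d (clip ∘ h) x ≠ 0`: one end has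
`h < a + 3`, so by `lip` both ends have `h ≤ a + 4`; both are in `up h (a+1)`, joined to `p x`. Put `z_i = v i x - v i (p x)`, `z'_i = v i (k x) - v i (p x)`.
CLAIM: `∑ z_i^2 ≤ 1024`. For `c : Fin q → ℝ`, the function `∑ c_i v_i` is `RInv`, `NoFlux` (`NoFlux.sum`), so by `window_osc`
`|∑ c_i z_i| ≤ 32 sqrt (∑ c_i^2)`; take `c = z`: `∑ z^2 ≤ 32 sqrt (∑ z^2)`, so `∑ z^2 ≤ 1024`. The same for `z'`. By Cauchy-Schwarz (or `2 |z z'| ≤ z^2 + z'^2`)
`∑_i |z_i| |z'_i| ≤ 1024`. So the sum is `≤ (1/2) * 1024 * ∑_x (d (clip (a+2) (a+3) ∘ h) x)^2 ≤ (1/2) * 1024 * 2 = 1024` (`P.clipE`).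
-/

namespace UIPQ.D

variable {X : Type} {m : CMap X} {x₀ : X} {R : ℝ} {h : X → ℝ}

open Classical in
private noncomputable def trSel (x₀ : X) (S : Set X) : X := if hS : S.Nonempty then hS.some else x₀

private theorem trSel_mem (x₀ : X) {S : Set X} (hS : S.Nonempty) : trSel x₀ S ∈ S := by
  unfold trSel
  rw [dif_pos hS]
  exact hS.some_mem

private theorem tr_sq (S : ℝ) (h0 : 0 ≤ S) (h : S ≤ 32 * Real.sqrt S) : S ≤ 1024 := by
  have h1 := Real.sq_sqrt h0
  have h2 := Real.sqrt_nonneg S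
  have h3 : Real.sqrt S ≤ 32 := by
    by_contra hc
    push Not at hc
    nlinarith
  nlinarith

private theorem tr_osc (hc : m.Connected) (h4 : ∀ x, m.f (m.f (m.f (m.f x))) = x) (hPL : m.PL)
    (hE : m.TwoEnds) (P : m.Pot x₀ R h) {a : ℝ} (ha : 0 ≤ a) (haR : a + 8 < R)
    (hg : m.Two h a ∨ ¬ m.Two h (a + 6)) {q : ℕ} (v : Fin q → X → ℝ) (hv : ∀ i, m.RInv (v i))
    (hF : ∀ i, m.NoFlux (v i))
    (horth : ∀ c : Fin q → ℝ, m.ED (dn h (a + 8)) (fun x => ∑ i, c i * v i x)
      (fun x => ∑ i, c i * v i x) = ∑ i, c i ^ 2) {x y : X} (hx : x ∈ up h (a + 1))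
    (hxy : m.Joined (up h (a + 1)) x y) (hx4 : h x ≤ a + 4) (hy4 : h y ≤ a + 4) :
    ∑ i, (v i x - v i y) ^ 2 ≤ 1024 := by
  have hr : m.RInv (fun z => ∑ i, (v i x - v i y) * v i z) := by
    intro z
    exact Finset.sum_congr rfl (fun i _ => by rw [hv i z])
  have key := window_osc hc h4 hPL hE P ha haR hg hr (NoFlux.sum (fun i => v i x - v i y) v hF)
    hx hxy hx4 hy4
  rw [horth (fun i => v i x - v i y)] at key
  have e : (∑ i, (v i x - v i y) * v i x) - (∑ i, (v i x - v i y) * v i y) =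
      ∑ i, (v i x - v i y) ^ 2 := by
    rw [← Finset.sum_sub_distrib]
    exact Finset.sum_congr rfl (fun i _ => by ring)
  have key2 : (∑ i, (v i x - v i y) ^ 2) ≤ 32 * Real.sqrt (∑ i, (v i x - v i y) ^ 2) := by
    have := le_trans (le_abs_self _) key
    simpa only [e] using this
  exact tr_sq _ (Finset.sum_nonneg (fun i _ => sq_nonneg _)) key2

theorem trace_bound (hc : m.Connected) (h4 : ∀ x, m.f (m.f (m.f (m.f x))) = x) (hPL : m.PL)
    (hE : m.TwoEnds) (P : m.Pot x₀ R h) {a : ℝ} (ha : 0 ≤ a) (haR : a + 8 < R)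
    (hg : m.Two h a ∨ ¬ m.Two h (a + 6)) {q : ℕ} (v : Fin q → X → ℝ) (hv : ∀ i, m.RInv (v i))
    (hF : ∀ i, m.NoFlux (v i))
    (horth : ∀ c : Fin q → ℝ, m.ED (dn h (a + 8)) (fun x => ∑ i, c i * v i x)
      (fun x => ∑ i, c i * v i x) = ∑ i, c i ^ 2) :
    ∑ i, m.ED (dn h (a + 2)) (v i) (v i) ≤ 1024 := by
  classical
  set A : Set X := up h (a + 1) with hA
  set p : X → X := fun x => trSel x₀ {w | m.Joined A x w ∧ h w ≤ a + 2} with hpdef
  have hp1 : ∀ x, x ∈ A → m.Joined A x (p x) ∧ h (p x) ≤ a + 2 := by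
    intro x hx
    have hne : ({w | m.Joined A x w ∧ h w ≤ a + 2} : Set X).Nonempty := by
      obtain ⟨w, hw1, hw2⟩ := Pot.comp_low P hc (by linarith : (0:ℝ) ≤ a + 1) hx
      exact ⟨w, hw1, by linarith⟩
    exact trSel_mem x₀ hne
  have hp2 : ∀ x y, x ∈ A → m.Joined A x y → p x = p y := by
    intro x y _ hxy
    have : ({w | m.Joined A x w ∧ h w ≤ a + 2} : Set X) = {w | m.Joined A y w ∧ h w ≤ a + 2} := by
      ext w
      exact ⟨fun hw => ⟨Joined.trans' (Joined.symm' hxy) hw.1, hw.2⟩,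
        fun hw => ⟨Joined.trans' hxy hw.1, hw.2⟩⟩
    simp only [hpdef, this]
  set F : X → ℝ := fun x => (m.d (fun y => clip (a + 2) (a + 3) (h y)) x) ^ 2 with hFdef
  have hF0 : ∀ x, 0 ≤ F x := fun x => sq_nonneg _
  -- where `F` does not vanish
  have hFne : ∀ x, F x ≠ 0 → h x ≤ a + 4 ∧ h (m.k x) ≤ a + 4 := by
    intro x hx
    have hlip := P.lip x
    have hl : |h (m.k x) - h x| ≤ 1 := hlip
    rw [abs_le] at hl
    by_cases h1 : h x < a + 3
    · exact ⟨by linarith, by linarith [hl.2]⟩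
    · by_cases h2 : h (m.k x) < a + 3
      · exact ⟨by linarith [hl.1], by linarith⟩
      · exfalso
        apply hx
        have e1 : clip (a + 2) (a + 3) (h x) = a + 3 := by
          unfold clip
          rw [min_eq_left (not_lt.mp h1), max_eq_right (by linarith)]
        have e2 : clip (a + 2) (a + 3) (h (m.k x)) = a + 3 := by
          unfold clip
          rw [min_eq_left (not_lt.mp h2), max_eq_right (by linarith)]
        simp only [hFdef, CMap.d, e1, e2, sub_self]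
        norm_num
  set T : Finset X := (Pot.dn_finite P (by linarith : a + 4 < R)).toFinset with hT
  have hTmem : ∀ x, F x ≠ 0 → x ∈ T := by
    intro x hx
    rw [hT, Set.Finite.mem_toFinset]
    exact (hFne x hx).1
  set E : Set X := {x | x ∈ A ∧ m.k x ∈ A} with hEdef
  set T' : Finset X := T.filter (fun x => x ∈ E) with hT'
  have hsum : ∀ G : X → ℝ, ∑ᶠ x ∈ E, F x * G x = ∑ x ∈ T', F x * G x := by
    intro G
    apply finsum_mem_eq_sum_of_inter_support_eq
    ext x
    simp only [Set.mem_inter_iff, Function.mem_support, hT', Finset.coe_filter, Set.mem_ofPred_eq]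
    constructor
    · rintro ⟨hx1, hx2⟩
      exact ⟨⟨hTmem x (left_ne_zero_of_mul hx2), hx1⟩, hx2⟩
    · rintro ⟨⟨_, hx1⟩, hx2⟩
      exact ⟨hx1, hx2⟩
  have hFsum : ∑ x ∈ T', F x ≤ 2 := by
    have e : ∑ᶠ x, F x = ∑ x ∈ T, F x :=
      finsum_eq_sum_of_support_subset F (fun x hx => hTmem x hx)
    have h1 : ∑ᶠ x, F x ≤ 2 * ((a + 3) - (a + 2)) :=
      P.clipE (a + 2) (a + 3) (by linarith) (by linarith) (by linarith)
    have h2 : ∑ x ∈ T', F x ≤ ∑ x ∈ T, F x :=
      Finset.sum_le_sum_of_subset_of_nonneg (Finset.filter_subset _ _) (fun x _ _ => hF0 x)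
    linarith
  have hcacc : ∀ i, m.ED (dn h (a + 2)) (v i) (v i) ≤
      (∑ x ∈ T', F x * (|v i x - v i (p x)| * |v i (m.k x) - v i (p x)|)) / 2 := by
    intro i
    have := caccioppoli P ha (by linarith : a + 3 ≤ R) (hv i) (hF i) p hp2
    rwa [hsum (fun x => |v i x - v i (p x)| * |v i (m.k x) - v i (p x)|)] at this
  have hpt : ∀ x ∈ T', F x * ∑ i, (|v i x - v i (p x)| * |v i (m.k x) - v i (p x)|) ≤ F x * 1024 := by
    intro x hx
    by_cases hz : F x = 0
    · rw [hz]; simp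
    · apply mul_le_mul_of_nonneg_left _ (hF0 x)
      obtain ⟨hx4, hk4⟩ := hFne x hz
      have hxE : x ∈ E := (Finset.mem_filter.mp hx).2
      obtain ⟨hj, hjp⟩ := hp1 x hxE.1
      have hjk : m.Joined A (m.k x) (p x) := Joined.trans' (Joined.symm' (joined_k hxE.1 hxE.2)) hj
      have b1 := tr_osc hc h4 hPL hE P ha haR hg v hv hF horth hxE.1 hj hx4 (by linarith)
      have b2 := tr_osc hc h4 hPL hE P ha haR hg v hv hF horth hxE.2 hjk hk4 (by linarith)
      have b3 : ∑ i, (|v i x - v i (p x)| * |v i (m.k x) - v i (p x)|) ≤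
          ∑ i, ((v i x - v i (p x)) ^ 2 / 2 + (v i (m.k x) - v i (p x)) ^ 2 / 2) := by
        apply Finset.sum_le_sum
        intro i _
        have := sq_nonneg (|v i x - v i (p x)| - |v i (m.k x) - v i (p x)|)
        have e1 := sq_abs (v i x - v i (p x))
        have e2 := sq_abs (v i (m.k x) - v i (p x))
        nlinarith
      rw [Finset.sum_add_distrib, ← Finset.sum_div, ← Finset.sum_div] at b3
      linarith
  calc ∑ i, m.ED (dn h (a + 2)) (v i) (v i)
      ≤ ∑ i, (∑ x ∈ T', F x * (|v i x - v i (p x)| * |v i (m.k x) - v i (p x)|)) / 2 :=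
        Finset.sum_le_sum (fun i _ => hcacc i)
    _ = (∑ x ∈ T', F x * ∑ i, (|v i x - v i (p x)| * |v i (m.k x) - v i (p x)|)) / 2 := by
        rw [← Finset.sum_div, Finset.sum_comm]
        congr 1
        exact Finset.sum_congr rfl (fun x _ => by rw [Finset.mul_sum])
    _ ≤ (∑ x ∈ T', F x * 1024) / 2 := by
        have := Finset.sum_le_sum hpt
        linarith
    _ ≤ 1024 := by
        rw [← Finset.sum_mul]
        linarith

end UIPQ.D
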