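import Pool.Agent.Lib.UIPQ.D.Annulus
import Pool.Agent.Lib.UIPQ.D.Ring
import Pool.Agent.Lib.UIPQ.D.Coarea

/-!
# D/Window: oscillation of a function without flux in a window of levels

PROOF. `coarea` at `a`: `t1 ∈ [a, a+1)` with `L h t1 u ≤ 16 sqrt (ED (dn h (a+3)))`; `coarea` at `a + 5`: `t2 ∈ [a+5, a+6)` with
`L h t2 u ≤ 16 sqrt (ED (dn h (a+8)))`; by `ED_mono` both are `≤ 16 sqrt (ED (dn h (a+8)))`. `0 ≤ t1 ≤ t2 < R`.
`Two h t1 ∨ ¬ Two h t2`: from `hg` and `two_mono` (`a ≤ t1`, `t2 ≤ a + 6 < R`).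
`K1 = {w | Joined (up h t1) x w}` (`h x > a + 1 > t1`), `level_comp` gives `x'`; `K2 = {w | Joined (up h t2) x' w} ⊆ K1`.
`K1 \ K2 ⊆ dn h t2` is finite. `Bd K2 ⊆ Cr h t2` is finite (`bd_sub_cr`). `x₀ ∉ K1` (`h x₀ = 0 ≤ t1`), `x' ∈ K2`.
`x, y ∈ K1` (`up h (a+1) ⊆ up h t1`, `mono'`) and `h x, h y ≤ a + 4 < t2`: not in `K2`. `annulus` with `L1 = L h t1 u`, `L2 = L h t2 u` (from `ring`).
-/

namespace UIPQ.D

variable {X : Type} {m : CMap X} {x₀ : X} {R : ℝ} {h : X → ℝ}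

theorem window_osc (hc : m.Connected) (h4 : ∀ x, m.f (m.f (m.f (m.f x))) = x) (hPL : m.PL)
    (hE : m.TwoEnds) (P : m.Pot x₀ R h) {a : ℝ} (ha : 0 ≤ a) (haR : a + 8 < R)
    (hg : m.Two h a ∨ ¬ m.Two h (a + 6)) {u : X → ℝ} (hu : m.RInv u) (hF : m.NoFlux u)
    {x y : X} (hx : x ∈ up h (a + 1)) (hxy : m.Joined (up h (a + 1)) x y) (hx4 : h x ≤ a + 4)
    (hy4 : h y ≤ a + 4) : |u x - u y| ≤ 32 * Real.sqrt (m.ED (dn h (a + 8)) u u) := by
  obtain ⟨t1, h1a, h1b, hL1⟩ := coarea h4 P ha (by linarith) hu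
  obtain ⟨t2, h2a, h2b, hL2⟩ := coarea h4 P (a := a + 5) (by linarith) (by linarith) hu
  have hup : ∀ s t : ℝ, s ≤ t → up h t ⊆ up h s := by
    intro s t hst z hz
    exact lt_of_le_of_lt hst hz
  have hD8 : (dn h (a + 8)).Finite := Pot.dn_finite P haR
  have hE3 : m.ED (dn h (a + 3)) u u ≤ m.ED (dn h (a + 8)) u u := by
    apply ED_mono hD8
    intro z hz
    change h z ≤ a + 3 at hz
    change h z ≤ a + 8
    linarith
  have hs3 := Real.sqrt_le_sqrt hE3
  have h58 : a + 5 + 3 = a + 8 := by ring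
  rw [h58] at hL2
  have hT : m.Two h t1 ∨ ¬ m.Two h t2 := by
    rcases hg with hg | hg
    · exact Or.inl (Pot.two_mono P ha h1a (by linarith) hg)
    · exact Or.inr fun h7 => hg (Pot.two_mono P (by linarith) (by linarith) (by linarith) h7)
  have hx1 : x ∈ up h t1 := hup _ _ h1b.le hx
  obtain ⟨x', hx', hj, hall⟩ := Pot.level_comp P hE (by linarith) (by linarith : t1 ≤ t2)
    (by linarith) hT hx1
  have hfin : ({w | m.Joined (up h t1) x w} \ {w | m.Joined (up h t2) x' w}).Finite := by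
    refine (Pot.dn_finite P (t := t2) (by linarith)).subset ?_
    rintro w ⟨hw1, hw2⟩
    by_contra hw
    apply hw2
    apply hall w hw1
    change ¬ (h w ≤ t2) at hw
    exact not_le.1 hw
  have hn1 : ∃ z, z ∉ {w | m.Joined (up h t1) x w} := by
    refine ⟨x₀, fun hz => ?_⟩
    have h5 : x₀ ∈ up h t1 := Joined.mem' hz hx1
    change t1 < h x₀ at h5
    rw [P.zero] at h5
    linarith
  have hann := annulus hc (comp_vset (Pot.up_vset P t1) hx1) (comp_vset (Pot.up_vset P t2) hx')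
    (fun w hw => Joined.trans' hj (Joined.mono' (hup t1 t2 (by linarith)) hw)) hfin
    ((Pot.cr_finite P (by linarith)).subset (bd_sub_cr hx')) hn1 ⟨x', joined_refl⟩ hu hF
    (ring hc h4 hPL P (by linarith) (by linarith) hx1 hu)
    (ring hc h4 hPL P (by linarith) (by linarith) hx' hu)
  have hxK : x ∈ {w | m.Joined (up h t1) x w} \ {w | m.Joined (up h t2) x' w} := by
    refine ⟨joined_refl, fun hz => ?_⟩
    have h5 : x ∈ up h t2 := Joined.mem' hz hx'
    change t2 < h x at h5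
    linarith
  have hyK : y ∈ {w | m.Joined (up h t1) x w} \ {w | m.Joined (up h t2) x' w} := by
    refine ⟨Joined.mono' (hup _ _ h1b.le) hxy, fun hz => ?_⟩
    have h5 : y ∈ up h t2 := Joined.mem' hz hx'
    change t2 < h y at h5
    linarith
  have h6 := hann x hxK y hyK
  linarith

end UIPQ.D
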